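import Pool.Agent.Helper52.KP.StG

/-!
# Project KP (MP_26be5b_ag), chapter F: from the chart `Ch` and the results of chapter H to `StCONE`

For every statement `StXX` prove `theorem hXX : StXX` in `Pool/Agent/<You>/KP/M_XX.lean`; statements
named in the docstring may be taken as hypotheses.
-/

set_option autoImplicit false

namespace Pool.Agent.Helper52.KP

open Pool.Agent.Helper67.NO MeasureTheory Filter
open scoped ContDiff ComplexOrder Topology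

universe u

/-- Chapter G, algebraic part (helper67): the chart exists. -/
def StCHX : Prop := ∀ (g : Type u) [LieRing g] [LieAlgebra ℂ g] [FiniteDimensional ℂ g]
  [LieAlgebra.IsSemisimple ℂ g] (x₀ : g), x₀ ≠ 0 → IsNilpotent (LieAlgebra.ad ℂ g x₀) →
  Nonempty (Ch x₀)

section

variable {g : Type u} [LieRing g] [LieAlgebra ℂ g] [FiniteDimensional ℂ g]

/-- the data of chapter H -/
structure HD (x₀ : g) {m : ℕ} (y : Fin m → (g →ₗ[ℂ] ℂ)) (rd : ℕ) : Prop where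
  bdd : ∀ k, ∀ f ∈ Hol x₀ k, ∃ B : ℝ, ∀ x : OO x₀, ‖f x‖ ≤ B * size x.1 ^ k
  reg : ∀ k, Hol x₀ k = Reg x₀ k
  fd : ∀ k, FiniteDimensional ℂ (Hol x₀ k)
  cst : ∀ f ∈ Hol x₀ 0, ∃ c : ℂ, ∀ x, f x = c
  rd0 : 0 < rd
  ybd : ∃ a : ℝ, 0 < a ∧ ∀ x, Orb x₀ x → a * size x ≤ ∑ i, ‖y i x‖
  card : ∀ᵐ v : Fin m → ℂ, {x : g | Orb x₀ x ∧ ∀ i, y i x = v i}.ncard = rd
  dim : Tendsto (fun k : ℕ => (Module.finrank ℂ (Hol x₀ k) : ℝ) / (k : ℝ) ^ (m - 1))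
    atTop (𝓝 ((rd : ℝ) / (m - 1).factorial))

variable {x₀ : g}

/-- coordinates of the chart -/
noncomputable def Ch.pol (C : Ch x₀) (i : Fin (Module.finrank ℂ g)) : MvPolynomial (Fin C.m) ℂ :=
  (C.poly i).choose

theorem Ch.pol_spec (C : Ch x₀) (i : Fin (Module.finrank ℂ g)) (z : Fin C.m → ℂ) :
    co (C.Φ z) i = MvPolynomial.eval z (C.pol i) := (C.poly i).choose_spec z

/-- a linear form in the chart -/
noncomputable def Ch.lin (C : Ch x₀) (y : g →ₗ[ℂ] ℂ) : MvPolynomial (Fin C.m) ℂ :=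
  ∑ i, MvPolynomial.C (y (Module.finBasis ℂ g i)) * C.pol i

/-- the matrix of `ad (Φ z)` -/
noncomputable def Ch.adm (C : Ch x₀) : Matrix (Fin (Module.finrank ℂ g))
    (Fin (Module.finrank ℂ g)) (MvPolynomial (Fin C.m) ℂ) :=
  ∑ l, C.pol l • (LinearMap.toMatrix (Module.finBasis ℂ g) (Module.finBasis ℂ g)
    (LieAlgebra.ad ℂ g (Module.finBasis ℂ g l) : g →ₗ[ℂ] g)).map MvPolynomial.C

/-- the minors of `ad (Φ z)` -/
noncomputable def Ch.min (C : Ch x₀) (ab : (Fin C.m → Fin (Module.finrank ℂ g)) ×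
    (Fin C.m → Fin (Module.finrank ℂ g))) : MvPolynomial (Fin C.m) ℂ :=
  (C.adm.submatrix ab.1 ab.2).det

/-- functions on the orbit in the chart -/
noncomputable def Ch.RR (C : Ch x₀) (k : ℕ) : Submodule ℂ (MvPolynomial (Fin C.m) ℂ) where
  carrier := {P | ∃ f ∈ Hol x₀ k, ∀ z, MvPolynomial.eval z C.Δ ≠ 0 →
    MvPolynomial.eval z P = ext f (C.Φ z)}
  add_mem' := by
    rintro P P' ⟨f, hf, h⟩ ⟨f', hf', h'⟩
    refine ⟨f + f', Submodule.add_mem _ hf hf', fun z hz => ?_⟩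
    have hO := C.orb z hz
    rw [map_add, h z hz, h' z hz]
    simp [ext, hO]
  zero_mem' := ⟨0, Submodule.zero_mem _, fun z hz => by
    have hO := C.orb z hz
    simp only [ext, hO, dif_pos, map_zero]
    rfl⟩
  smul_mem' := by
    rintro a P ⟨f, hf, h⟩
    refine ⟨a • f, Submodule.smul_mem _ _ hf, fun z hz => ?_⟩
    have hO := C.orb z hz
    rw [MvPolynomial.smul_eval, h z hz]
    simp [ext, hO]

open Classical in
/-- the polynomial of `p₁` in the chart (`0` if there is none) -/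
noncomputable def Ch.P₁ (C : Ch x₀) : MvPolynomial (Fin C.m) ℂ :=
  if h : ∃ P : MvPolynomial (Fin C.m) ℂ, ∀ z, MvPolynomial.eval z C.Δ ≠ 0 →
    MvPolynomial.eval z P = ext C.p₁ (C.Φ z) then h.choose else 0

/-- the cone of the orbit -/
noncomputable def mkCone (C : Ch x₀) (ρ : g → ℝ) (y : Fin C.m → (g →ₗ[ℂ] ℂ)) (rd : ℕ) : Cone where
  m := C.m
  n := hdim x₀
  w := C.w
  jd := C.jd
  d₁ := C.d₁
  dq := C.m
  rd := rd
  nx := Module.finrank ℂ g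
  nq := Fintype.card ((Fin C.m → Fin (Module.finrank ℂ g)) × (Fin C.m → Fin (Module.finrank ℂ g)))
  Δ := C.Δ
  J := C.J
  p₁ := C.P₁
  X := C.pol
  Q := fun i => C.min ((Fintype.equivFin _).symm i)
  Y := fun i => C.lin (y i)
  R := C.RR
  u := fun z => ρ (C.Φ z)

end

/-- Chapter H (helper20): output. -/
def StHDX : Prop := ∀ (g : Type u) [LieRing g] [LieAlgebra ℂ g] [FiniteDimensional ℂ g]
  [LieAlgebra.IsSemisimple ℂ g] (x₀ : g), x₀ ≠ 0 → IsNilpotent (LieAlgebra.ad ℂ g x₀) →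
  ∀ C : Ch x₀, ∃ (y : Fin C.m → (g →ₗ[ℂ] ℂ)) (rd : ℕ), HD x₀ y rd

/-- MODULE POG (polynomial growth).
PROOF.  Induction on `m`.  For fixed `z' ∈ ℂ^(m-1)` the entire function `ζ ↦ F (ζ, z')` of growth
`(1 + |ζ|)^N` is a polynomial of degree `≤ N`: `F (ζ, z') = ∑_{j ≤ N} F_j (z') ζ^j`,
`F_j (z') = (1/2πi) ∮_{|ζ|=1} F (ζ, z') ζ^{-j-1} dζ` is entire in `z'` with polynomial growth; apply the
induction hypothesis to the `F_j` and `MvPolynomial.finSuccEquiv`. -/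
def StPOG : Prop := ∀ (m : ℕ) (F : (Fin m → ℂ) → ℂ), Differentiable ℂ F →
  (∃ (B : ℝ) (N : ℕ), ∀ z, ‖F z‖ ≤ B * (1 + ‖z‖) ^ N) →
  ∃ P : MvPolynomial (Fin m) ℂ, ∀ z, F z = MvPolynomial.eval z P

/-- MODULE HPO (functions on the orbit are polynomials in the chart).
Inputs: `StHLC`, `StEXT`, `StPOG`.
PROOF.  `F z = ext f (Φ z)` is holomorphic on `U = {Δ ≠ 0}` (`StHLC`) and
`|F z| ≤ B size (Φ z)^k`, `size (Φ z) = ∑ |co (Φ z) i|` is continuous of polynomial growth; so it is locally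
bounded near every point of `ℂ^m` and `StEXT` (with `P = Δ`) extends it to an entire function, with the
same bound (density of `U`, continuity), so a polynomial (`StPOG`). -/
def StHPO : Prop := ∀ (g : Type u) [LieRing g] [LieAlgebra ℂ g] [FiniteDimensional ℂ g]
  [LieAlgebra.IsSemisimple ℂ g] (x₀ : g), x₀ ≠ 0 → IsNilpotent (LieAlgebra.ad ℂ g x₀) →
  ∀ (C : Ch x₀) (k : ℕ), ∀ f ∈ Hol x₀ k, (∃ B : ℝ, ∀ x : OO x₀, ‖f x‖ ≤ B * size x.1 ^ k) →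
  ∃ P : MvPolynomial (Fin C.m) ℂ, (∀ z, MvPolynomial.eval z C.Δ ≠ 0 →
    MvPolynomial.eval z P = ext f (C.Φ z)) ∧
    ∃ B : ℝ, ∀ z, ‖MvPolynomial.eval z P‖ ≤ B * (∑ i, ‖MvPolynomial.eval z (C.pol i)‖) ^ k

/-- MODULE FF1 (elementary fields).
PROOF.  `Ch` fields.
`hom`: for `z ∈ U` from the homogeneity of `f`; both sides are polynomials in `z`, so for all `z` (`U` is
dense; for `c = 0` by continuity in `c`).  `one`, `mul`: `ext` of a product; the product of two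
functions in `Hol` is in `Hol`.  Inputs: `StORB`, `StNUL`. -/
def StFF1 : Prop := ∀ (g : Type u) [LieRing g] [LieAlgebra ℂ g] [FiniteDimensional ℂ g]
  [LieAlgebra.IsSemisimple ℂ g] (x₀ : g), x₀ ≠ 0 → IsNilpotent (LieAlgebra.ad ℂ g x₀) →
  ∀ (C : Ch x₀) (ρ : g → ℝ) (y : Fin C.m → (g →ₗ[ℂ] ℂ)) (rd : ℕ) (K : Cone),
  K = mkCone C ρ y rd →
  (∀ (c : ℂ), c ≠ 0 → ∀ z ∈ K.U, scl K.w c z ∈ K.U) ∧ 1 ∈ K.R 0 ∧
  (∀ k k' f f', f ∈ K.R k → f' ∈ K.R k' → f * f' ∈ K.R (k + k')) ∧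
  (∀ k, ∀ f ∈ K.R k, ∀ (c : ℂ) z, ev f (scl K.w c z) = c ^ k * ev f z) ∧
  (∀ f f' : MvPolynomial (Fin K.m) ℂ, (∀ z ∈ K.U, ev f z = ev f' z) → f = f')

/-- MODULE FF2 (the isomorphism with regular functions; dimensions, constants).
Inputs: `StHPO`, `StFF1`, `StCNX`, `StNUL`.
PROOF.  `C.RR k ≃ Hol x₀ k`: to `P` corresponds the unique `f` (two functions in `Hol` which agree on
`Φ (U)`, a nonempty open part of the orbit, are equal: `StCNX` applied to the difference and an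
exponential chart with values in `Φ (U)`: `Φ (U) = {p₁ ≠ 0}`), surjective by `StHPO` and `HD.bdd`.
`Hol = Reg` (`HD.reg`).  Multiplicativity: clear on `Φ (U)`, both sides in `Hol`. -/
def StFF2 : Prop := ∀ (g : Type u) [LieRing g] [LieAlgebra ℂ g] [FiniteDimensional ℂ g]
  [LieAlgebra.IsSemisimple ℂ g] (x₀ : g), x₀ ≠ 0 → IsNilpotent (LieAlgebra.ad ℂ g x₀) →
  ∀ (C : Ch x₀) (ρ : g → ℝ) (y : Fin C.m → (g →ₗ[ℂ] ℂ)) (rd : ℕ), HD x₀ y rd →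
  ∀ K : Cone, K = mkCone C ρ y rd →
  (∀ k, FiniteDimensional ℂ (K.R k)) ∧ (∀ f ∈ K.R 0, ∃ c : ℂ, f = MvPolynomial.C c) ∧
  Tendsto (fun k : ℕ => (Module.finrank ℂ (K.R k) : ℝ) / (k : ℝ) ^ (K.m - 1))
    atTop (𝓝 ((K.rd : ℝ) / (K.m - 1).factorial)) ∧
  ∃ e : ∀ k, K.R k ≃ₗ[ℂ] Reg x₀ k, ∀ k k' (f : K.R k) (f' : K.R k') (ff : K.R (k + k')),
    (ff : MvPolynomial (Fin K.m) ℂ) = f * f' →
      (e (k + k') ff : OO x₀ → ℂ) = (e k f : OO x₀ → ℂ) * (e k' f' : OO x₀ → ℂ)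

/-- MODULE FF3 (functions `X`, `Y`, `Q`, `p₁`).  Inputs: `StHPO`, `StORB`, `StCLO`, `StFF1`, `StNUD`,
`StHLC`.
PROOF.  A linear form `y` restricted to the orbit is in `Hol x₀ 1` (`StORB`); minors of `ad x` are in
`Hol x₀ m`; `C.lin y` and `C.min ab` are their polynomials in the chart (linearity of `ad`, `co`).
`Xpos`: `x ≠ 0` on the orbit, `sz z = size (Φ z)`.  `bdd`: `StHPO` (two polynomials equal on `U` are
equal).  `p₁`: `StHPO`.  `p10`: `Ch.p1`.  `crd`: `Ch.crd`, `StHPO`.  `Q0`: `StCLO` first part.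
`Ybd`: `HD.ybd` on `U`, density.  `Ycard`: by `HD.card` and `StNUD`, for almost every `v` all points of
the orbit over `v` have `p₁ ≠ 0`, so are in the image of `Φ` restricted to `U`, which is injective. -/
def StFF3 : Prop := ∀ (g : Type u) [LieRing g] [LieAlgebra ℂ g] [FiniteDimensional ℂ g]
  [LieAlgebra.IsSemisimple ℂ g] (x₀ : g), x₀ ≠ 0 → IsNilpotent (LieAlgebra.ad ℂ g x₀) →
  ∀ (C : Ch x₀) (ρ : g → ℝ) (y : Fin C.m → (g →ₗ[ℂ] ℂ)) (rd : ℕ), HD x₀ y rd →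
  ∀ K : Cone, K = mkCone C ρ y rd →
  (∀ i, K.X i ∈ K.R 1) ∧ (∀ z ∈ K.U, 0 < K.sz z) ∧
  (∀ k, ∀ f ∈ K.R k, ∃ B : ℝ, ∀ z, ‖ev f z‖ ≤ B * K.sz z ^ k) ∧
  K.p₁ ∈ K.R K.d₁ ∧ (∀ z ∈ K.U, ev K.p₁ z ≠ 0) ∧
  (∀ j, ∃ a : ℕ, MvPolynomial.X j * K.p₁ ^ a ∈ K.R (a * K.d₁ + K.w j)) ∧
  (∀ i, K.Q i ∈ K.R K.dq) ∧ (∀ z ∈ K.U, ∃ i, ev (K.Q i) z ≠ 0) ∧
  (∀ i, K.Y i ∈ K.R 1) ∧ (∃ a : ℝ, 0 < a ∧ ∀ z, a * K.sz z ≤ ∑ i, ‖ev (K.Y i) z‖) ∧
  (∀ᵐ v : Fin K.m → ℂ, {z | z ∈ K.U ∧ ∀ i, ev (K.Y i) z = v i}.ncard = K.rd)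

/-- MODULE FF4 (`extl`, `extd`, `grd`, `cpt`).
Inputs: `StEXL`, `StGRC`, `StCPC`, `StHPO`, `StFF1`, `StFF3`, `StNUL`, `StHLC`.
PROOF.  `∑ i, ‖ev (K.Q i) z‖ = mns m (Φ z)` and `K.sz z = size (Φ z)`.  `extl`: `StEXL` and `StHPO`.
`extd`: an entire `h` with `∫ |h|² e^{-b sz} < ∞` satisfies the hypotheses of `extl`; `h = f J` on `U`, so
everywhere by density.  `grd`: `StGRC`; `dz j` of a polynomial is `pderiv j`.  `cpt`: `StCPC`. -/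
def StFF4 : Prop := ∀ (g : Type u) [LieRing g] [LieAlgebra ℂ g] [FiniteDimensional ℂ g]
  [LieAlgebra.IsSemisimple ℂ g] (x₀ : g), x₀ ≠ 0 → IsNilpotent (LieAlgebra.ad ℂ g x₀) →
  ∀ ρ : g → ℝ, RicciFlatCone x₀ ρ →
  ∀ (C : Ch x₀) (y : Fin C.m → (g →ₗ[ℂ] ℂ)) (rd : ℕ), HD x₀ y rd →
  ∀ K : Cone, K = mkCone C ρ y rd →
  (∀ (k : ℕ) (h : (Fin K.m → ℂ) → ℂ), DifferentiableOn ℂ h K.U →
    (∀ (c : ℂ), ‖c‖ = 1 → ∀ z ∈ K.U, h (scl K.w c z) = c ^ (k + K.jd) * h z) →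
    (∀ r δ : ℝ, 0 < δ → IntegrableOn (fun z => ‖h z‖ ^ 2)
      {z | z ∈ K.U ∧ K.sz z ≤ r ∧ δ ≤ ∑ i, ‖ev (K.Q i) z‖}) →
    ∃ f ∈ K.R k, ∀ z ∈ K.U, h z = ev f z * ev K.J z) ∧
  (∀ (k : ℕ) (h : (Fin K.m → ℂ) → ℂ), Differentiable ℂ h →
    (∀ (c : ℂ) z, ‖c‖ = 1 → h (scl K.w c z) = c ^ (k + K.jd) * h z) →
    (∃ b : ℝ, Integrable fun z => ‖h z‖ ^ 2 * Real.exp (-(b * K.sz z))) →
    ∃ f ∈ K.R k, ∀ z, h z = ev f z * ev K.J z) ∧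
  (∀ k, ∀ f ∈ K.R k, ∀ r δ : ℝ, 0 < δ → ∃ B : ℝ, ∀ z ∈ K.U, K.sz z ≤ r →
    δ ≤ ∑ i, ‖ev (K.Q i) z‖ → ∀ ξ : Fin K.m → ℂ,
    ‖∑ j, ev (MvPolynomial.pderiv j f) z * ξ j‖ ^ 2 ≤ B * hf (hes K.u z) ξ) ∧
  (∀ r δ : ℝ, 0 < δ → IsCompact
    {z | z ∈ K.U ∧ K.sz z ≤ r ∧ δ ≤ ‖ev K.p₁ z‖ ∧ δ ≤ ∑ i, ‖ev (K.Q i) z‖})

/-- MODULE JCN (Jacobians: local square integrability in all degrees).
Inputs: `StTRN`, `StCLO`, `StHLC`, `StLFT`, `StORB`.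
PROOF.  The set `{x ∈ O : size x ≤ r, mns m x ≥ δ}` is sequentially compact in the orbit (`StCLO`), so it is
covered by finitely many sets `{y : size (y - x) < δ_x}` of `StTRN` (Lebesgue number or contradiction by
sequences); the integral of `|det (∂_j (f_i ∘ Φ))|²` over the part of `U` over such a set is at most
`∫_{‖w‖ < ε} |det (∂ (f_i ∘ E_x))(w)|² dw < ∞`, `E_x = chart x X`, by the injective change of variables
`z = τ w` (shrink `ε` a little so that the integrand is bounded). -/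
def StJCN : Prop := ∀ (g : Type u) [LieRing g] [LieAlgebra ℂ g] [FiniteDimensional ℂ g]
  [LieAlgebra.IsSemisimple ℂ g] (x₀ : g), x₀ ≠ 0 → IsNilpotent (LieAlgebra.ad ℂ g x₀) →
  ∀ (C : Ch x₀) (k : Fin C.m → ℕ) (f : Fin C.m → OO x₀ → ℂ), (∀ i, f i ∈ Hol x₀ (k i)) →
  ∀ r δ : ℝ, 0 < δ → IntegrableOn (fun z =>
      ‖(Matrix.of fun i j : Fin C.m => dz j (fun z => ext (f i) (C.Φ z)) z).det‖ ^ 2)
    {z | MvPolynomial.eval z C.Δ ≠ 0 ∧ size (C.Φ z) ≤ r ∧ δ ≤ mns C.m (C.Φ z)}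

/-- MODULE FF5 (`jac`).  Inputs: `StJCN`, `StFF1`, `StFF2`, `StFF3`, `StFF4`, `StHPO`.
PROOF.  `h = jac f` (a polynomial; on `U` it is the determinant of `StJCN`, as `dz j` of a polynomial is
`pderiv j`), `h (scl w c z) = c^{∑ k_i - ∑ w} h z` for `c ≠ 0` (chain rule), where `n = jd + ∑ w`.  If
`n ≤ ∑ k_i`: `StFF4` (first part, `k = ∑ k_i - n`).  If `∑ k_i < n`, `a = n - ∑ k_i`: for every `f' ∈ R a`,
`h f'` satisfies the hypotheses of `StFF4` with `k = 0` (`f'` is bounded on `{sz ≤ r}`), so `h f' = c J` with a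
constant `c` (`StFF2`).  `R a` contains two linearly independent elements `f', f''`: `Y_1^a`, `Y_2^a` for two
of the `Y_i` (`m ≥ 2`; if all `Y_i^a` were proportional to one, the fibre condition `Ycard` would fail: the
`Y_i` would satisfy a polynomial relation).  So `h (c'' f' - c' f'') = 0` as polynomials; if
`(c', c'') ≠ 0` then `h = 0`, and if `c' = 0` then `h f' = 0`, `h = 0`. -/
def StFF5 : Prop := ∀ (g : Type u) [LieRing g] [LieAlgebra ℂ g] [FiniteDimensional ℂ g]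
  [LieAlgebra.IsSemisimple ℂ g] (x₀ : g), x₀ ≠ 0 → IsNilpotent (LieAlgebra.ad ℂ g x₀) →
  ∀ ρ : g → ℝ, RicciFlatCone x₀ ρ →
  ∀ (C : Ch x₀) (y : Fin C.m → (g →ₗ[ℂ] ℂ)) (rd : ℕ), HD x₀ y rd →
  ∀ K : Cone, K = mkCone C ρ y rd →
  ∀ (k : Fin K.m → ℕ) (f : Fin K.m → MvPolynomial (Fin K.m) ℂ), (∀ i, f i ∈ K.R (k i)) →
    (∃ s ∈ K.R (∑ i, k i - K.n), jac f = s * K.J) ∧ (∑ i, k i < K.n → jac f = 0)

/-- MODULE FF6 (the potential).  Inputs: `StRHO`, `StTAN`, `StORB`.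
PROOF.  `Ψ = Φ`, `V = U`: `StRHO`, `StTAN` and `Ch.kks`, `Ch.J0`, `Ch.hrk`.  Bounds and homogeneity from
`RicciFlatCone`. -/
def StFF6 : Prop := ∀ (g : Type u) [LieRing g] [LieAlgebra ℂ g] [FiniteDimensional ℂ g]
  [LieAlgebra.IsSemisimple ℂ g] (x₀ : g), x₀ ≠ 0 → IsNilpotent (LieAlgebra.ad ℂ g x₀) →
  ∀ ρ : g → ℝ, RicciFlatCone x₀ ρ →
  ∀ (C : Ch x₀) (y : Fin C.m → (g →ₗ[ℂ] ℂ)) (rd : ℕ) (K : Cone), K = mkCone C ρ y rd →
  ContDiffOn ℝ ∞ K.u K.U ∧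
  (∀ z ∈ K.U, Pd (hes K.u z) ∧ (hes K.u z).det = ((‖ev K.J z‖ ^ 2 : ℝ) : ℂ)) ∧
  (∃ a b : ℝ, 0 < a ∧ ∀ z ∈ K.U, a * K.sz z ≤ K.u z ∧ K.u z ≤ b * K.sz z) ∧
  (∀ z ∈ K.U, ∀ c : ℂ, c ≠ 0 → K.u (scl K.w c z) = ‖c‖ * K.u z)

end Pool.Agent.Helper52.KP
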