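import Pool.Agent.Helper52.KP.Defs

/-!
# Project KP (MP_26be5b_ag): interfaces between the chapters
-/

set_option autoImplicit false

namespace Pool.Agent.Helper52.KP

open MeasureTheory Pool.Agent.Helper67.NO
open scoped ContDiff ComplexOrder Topology

/-! ### Interface of the geometry (chapters G, H): the orbit is a `Good` cone -/

/-- CHAPTERS G, H.  Every nonzero nilpotent orbit with its Kaehler-Einstein potential gives a `Good`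
cone whose algebra `⊕ R k` is the algebra of homogeneous regular functions on the orbit. -/
def StCONE.{u} : Prop := ∀ (g : Type u) [LieRing g] [LieAlgebra ℂ g] [FiniteDimensional ℂ g]
    [LieAlgebra.IsSemisimple ℂ g] (x₀ : g), x₀ ≠ 0 → IsNilpotent (LieAlgebra.ad ℂ g x₀) →
    ∀ ρ : g → ℝ, RicciFlatCone x₀ ρ →
    ∃ C : Cone, Good C ∧ C.n = hdim x₀ ∧
      ∃ e : ∀ k, C.R k ≃ₗ[ℂ] Reg x₀ k, ∀ k k' (f : C.R k) (f' : C.R k') (ff : C.R (k + k')),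
        (ff : MvPolynomial (Fin C.m) ℂ) = f * f' →
          (e (k + k') ff : OO x₀ → ℂ) = (e k f : OO x₀ → ℂ) * (e k' f' : OO x₀ → ℂ)

/-! ### Filtrations -/

/-- A nice filtration of `⊕ R (n r k)`: nonnegative jumps, generated in degree one, integrally
closed. -/
structure NF (C : Cone) (r : ℕ) (F : ℕ → ℕ → Submodule ℂ (MvPolynomial (Fin C.m) ℂ)) : Prop where
  hr : 0 < r
  zero : ∀ k, F k 0 = C.R (C.n * r * k)
  /-- all jumps in degree one are positive -/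
  one : F 1 1 = C.R (C.n * r)
  anti : ∀ k l, F k (l + 1) ≤ F k l
  mul : ∀ k l k' l' f f', f ∈ F k l → f' ∈ F k' l' → f * f' ∈ F (k + k') (l + l')
  sep0 : F 0 1 = ⊥
  sep : ∃ l, F 1 l = ⊥
  /-- generated in degree one -/
  gen : ∀ k l, 0 < k → F (k + 1) l = Submodule.span ℂ
    {b | ∃ i j f f', i + j = l ∧ f ∈ F k i ∧ f' ∈ F 1 j ∧ b = f * f'}
  /-- the algebra `⊕ F k l τ^l` is integrally closed -/
  normal : IsIntegrallyClosed (Algebra.adjoin ℂ {b : Polynomial (MvPolynomial (Fin C.m) ℂ) |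
    ∃ k l f, f ∈ F k l ∧ b = Polynomial.C f * Polynomial.X ^ l})

/-- the total weight -/
noncomputable def wF {m : ℕ} (F : ℕ → ℕ → Submodule ℂ (MvPolynomial (Fin m) ℂ)) (k : ℕ) : ℝ :=
  ∑ᶠ l : ℕ, (Module.finrank ℂ (F k (l + 1)) : ℝ)

/-- the asymptotic expansions -/
def Ex (C : Cone) (r : ℕ) (F : ℕ → ℕ → Submodule ℂ (MvPolynomial (Fin C.m) ℂ))
    (a₀ a₁ b₀ b₁ : ℝ) : Prop :=
  ∃ K : ℝ, ∀ k : ℕ, 0 < k →
    |(Module.finrank ℂ (C.R (C.n * r * k)) : ℝ) -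
      (a₀ * k ^ (2 * C.n - 1) + a₁ * k ^ (2 * C.n - 2))| * k ^ 2 ≤ K * k ^ (2 * C.n - 1) ∧
    |wF F k - (b₀ * k ^ (2 * C.n) + b₁ * k ^ (2 * C.n - 1))| * k ^ 2 ≤ K * k ^ (2 * C.n)

/-- a basis of `R (n r k)` adapted to the filtration, with its jumps -/
structure Adp (C : Cone) (r : ℕ) (F : ℕ → ℕ → Submodule ℂ (MvPolynomial (Fin C.m) ℂ)) (k : ℕ)
    {N : ℕ} (s : Fin N → MvPolynomial (Fin C.m) ℂ) (lam : Fin N → ℕ) : Prop where
  li : LinearIndependent ℂ s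
  span : ∀ l, F k l = Submodule.span ℂ (s '' {j | l ≤ lam j})

/-- the function `∑ e^(t λ_j) |s_j|²` -/
noncomputable def PP {m N : ℕ} (s : Fin N → MvPolynomial (Fin m) ℂ) (lam : Fin N → ℕ) (t : ℝ)
    (z : Fin m → ℂ) : ℝ := ∑ j, Real.exp (t * lam j) * ‖ev (s j) z‖ ^ 2

/-- the invariant measure `|Ω^n|²` in the chart -/
noncomputable def Cone.nu (C : Cone) : Measure (Fin C.m → ℂ) :=
  volume.withDensity fun z => ENNReal.ofReal (‖ev C.J z‖ ^ 2)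

/-- `l` is a lower bound of the slope of `- log ν {PP ≤ 1}` at infinity -/
def Slo (C : Cone) (r : ℕ) (F : ℕ → ℕ → Submodule ℂ (MvPolynomial (Fin C.m) ℂ)) (ℓ : ℝ) : Prop :=
  ∀ (N : ℕ) (s : Fin N → MvPolynomial (Fin C.m) ℂ) (lam : Fin N → ℕ), Adp C r F 1 s lam →
    ∀ ε : ℝ, 0 < ε → ∃ K : ℝ, ∀ t : ℝ, 0 ≤ t →
      C.nu {z | PP s lam t z ≤ 1} ≤ ENNReal.ofReal (K * Real.exp (-((ℓ - ε) * t)))

/-- the central fibre is reduced -/
def Rad (C : Cone) (F : ℕ → ℕ → Submodule ℂ (MvPolynomial (Fin C.m) ℂ)) : Prop :=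
  ∀ k l j f, 0 < j → f ∈ F k l → f ^ j ∈ F (j * k) (j * l + 1) → f ∈ F k (l + 1)

/-- CHAPTERS A, T (algebra and trace). -/
def StALG : Prop := ∀ (C : Cone), Good C → ∀ r F, NF C r F →
  ∃ a₀ a₁ b₀ b₁ : ℝ, 0 < a₀ ∧ Ex C r F a₀ a₁ b₀ b₁ ∧
    ∀ ℓ, Slo C r F ℓ → a₀ * (ℓ * a₀ - b₀ / r) ≤ 2 * (a₁ * b₀ - a₀ * b₁) ∧
      (a₀ * (ℓ * a₀ - b₀ / r) = 2 * (a₁ * b₀ - a₀ * b₁) → Rad C F)

/-- CHAPTERS L, W, C, M (analysis): semistability. -/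
def StSLO : Prop := ∀ (C : Cone), Good C → ∀ r F, NF C r F → ∀ a₀ a₁ b₀ b₁ : ℝ,
  Ex C r F a₀ a₁ b₀ b₁ → ∃ ℓ, Slo C r F ℓ ∧ b₀ / r ≤ ℓ * a₀

end Pool.Agent.Helper52.KP
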