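import Pool.Agent.Helper52.KP.StL
import Pool.Agent.Helper52.KP.Itf

/-!
# Project KP (MP_26be5b_ag), chapter W: the weight `u` of the Kaehler-Einstein cone metric, part 1:
regularisation, Monge-Ampere masses, volume

For every statement `StXX` prove `theorem hXX : StXX` in `Pool/Agent/<You>/KP/M_XX.lean`; statements
named in the docstring may be taken as hypotheses.
-/

set_option autoImplicit false

namespace Pool.Agent.Helper52.KP

open MeasureTheory Filter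
open scoped ContDiff ComplexOrder Topology

/-- MODULE NUL.  The zero set of a nonzero polynomial is a null set.
PROOF.  Induction on `m` and Fubini (`MvPolynomial.finSuccEquiv`): for almost every value of the other
variables some coefficient of the polynomial in `z_0` is nonzero, so the slice is finite.  Or the analytic
identity: zero sets of nonzero analytic functions have measure zero, if Mathlib has it. -/
def StNUL : Prop := ∀ (m : ℕ) (P : MvPolynomial (Fin m) ℂ), P ≠ 0 →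
  volume {z : Fin m → ℂ | ev P z = 0} = 0

/-- MODULE ARE (area formula with multiplicity).
PROOF.  Let `S' = S ∩ {det ≠ 0}`.  Every point of `U ∩ {det ≠ 0}` has an open neighbourhood on which `f` is
injective (inverse function theorem); by Lindelöf countably many cover; so `S'` is a countable disjoint
union of measurable `S_i` on which `f` is injective, and
`∫⁻ z in S_i, g (f z) * |det|² = ∫⁻ v in f '' S_i, g v`
(`lintegral_image_eq_lintegral_abs_det_fderiv_mul`; the real determinant of a complex linear map is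
`‖det‖²`: `LinearMap.det_restrictScalars`, `Algebra.norm_complex_apply`).  Sum over `i`
(`lintegral_tsum`): `∫⁻ g v * #{i : v ∈ f '' S_i} = ∫⁻ g v * encard (S' ∩ f⁻¹ v)`.  On `S \ S'` the integrand
vanishes, and `f '' (S \ S')` is a null set (`addHaar_image_eq_zero_of_det_fderiv_eq_zero`), so for almost
every `v` the fibre is contained in `S'`. -/
def StARE : Prop := ∀ (m : ℕ) (U : Set (Fin m → ℂ)), IsOpen U →
  ∀ f : (Fin m → ℂ) → (Fin m → ℂ), DifferentiableOn ℂ f U →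
  ∀ S ⊆ U, MeasurableSet S → ∀ g : (Fin m → ℂ) → ENNReal, Measurable g →
  ∫⁻ z in S, g (f z) * ENNReal.ofReal (‖(fderiv ℂ f z).det‖ ^ 2) =
    ∫⁻ v, g v * ENat.toENNReal {z | z ∈ S ∧ f z = v}.encard

/-- MODULE LGC (logarithmic cutoffs have small energy).
PROOF.  Fubini: fix all coordinates except `z_j`; `p(ζ)` is a polynomial of degree `≤ D = totalDegree P` in
one variable and `∂_j P` is `p'`.  If `p` is constant the integrand vanishes.  Otherwise, by the area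
formula in one variable (every value is taken at most `D` times; split `{p' ≠ 0}` into countably many
pieces on which `p` is injective) `∫_{ε² ≤ |p| ≤ ε} |p'|² / |p|² ≤ D ∫_{ε² ≤ |w| ≤ ε} |w|^{-2} dw
= 2 π D |log ε|`.  Integrate over the other coordinates in a polydisc of radius `R`. -/
def StLGC : Prop := ∀ (m : ℕ) (P : MvPolynomial (Fin m) ℂ) (j : Fin m) (R : ℝ), ∃ B : ℝ,
  ∀ ε : ℝ, 0 < ε → ε < 1 / 2 →
    ∫⁻ z in {z : Fin m → ℂ | ‖z‖ ≤ R ∧ ε ^ 2 ≤ ‖ev P z‖ ∧ ‖ev P z‖ ≤ ε},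
      ENNReal.ofReal (‖ev (MvPolynomial.pderiv j P) z‖ ^ 2 / ‖ev P z‖ ^ 2) ≤
    ENNReal.ofReal (B * |Real.log ε|)

/-- MODULE WPS (bounded plurisubharmonic functions extend weakly across hypersurfaces).
Inputs: `StLGC`, `StIBP`, `StCAL`, `StNUL`.
PROOF.  `V = {P ≠ 0}`.  `θ : ℝ → ℝ` smooth, `θ s = 1` for `s ≤ 1`, `θ s = 0` for `s ≥ 2`, `0 ≤ θ ≤ 1`.
`θ_ε z = θ (log |P z| / log ε)` on `V`, `0` off `V`: smooth on `ℂ^m`, `= 1` where `|P| ≥ ε`, `= 0` where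
`|P| ≤ ε²`.  On `V`: `∂_j θ_ε = θ' * (∂_j P / (2 P)) / log ε` and, `log |P|` being pluriharmonic,
`∂_j ∂̄_k θ_ε = θ'' * (∂_j P / (2P)) * conj (∂_k P / (2P)) / (log ε)²`.  By `StLGC`, with `K = tsupport φ`:
`∫_K |∂̄_k ∂_j θ_ε| ≤ C / |log ε| → 0` and by Cauchy-Schwarz `∫_K |∂_j θ_ε| ≤ C |log ε|^{-1/2} → 0`.
The function `φ θ_ε` is smooth with compact support in `V`; integrating by parts twice
(`StIBP`, with `u` multiplied by a cutoff which is `1` near `K ∩ {|P| ≥ ε²}`):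
`∫_V u * hf (hes (φ θ_ε)) ξ = ∫_V hf (hes u) ξ * φ θ_ε ≥ 0`.  Expand `hes (φ θ_ε)
= θ_ε hes φ + (∂φ ∂̄θ_ε + ∂θ_ε ∂̄φ) + φ hes θ_ε`; `u, φ, dφ` are bounded on `K`, so the last three terms
tend to `0`; the first tends to `∫_V u hf (hes φ) ξ` by dominated convergence. -/
def StWPS : Prop := ∀ (m : ℕ) (P : MvPolynomial (Fin m) ℂ), P ≠ 0 →
  ∀ u : (Fin m → ℂ) → ℝ, ContDiffOn ℝ ∞ u {z | ev P z ≠ 0} →
  (∀ z, ev P z ≠ 0 → Psd (hes u z)) →
  (∀ R : ℝ, ∃ B : ℝ, ∀ z, ‖z‖ ≤ R → ev P z ≠ 0 → |u z| ≤ B) →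
  ∀ φ : (Fin m → ℂ) → ℝ, ContDiff ℝ ∞ φ → HasCompactSupport φ → (∀ z, 0 ≤ φ z) →
  ∀ ξ : Fin m → ℂ, 0 ≤ ∫ z in {z | ev P z ≠ 0}, u z * hf (hes φ z) ξ

/-- MODULE SMV (mean value inequality for smooth subharmonic functions of one variable).
PROOF.  `M r = (1 / 2π) ∫_0^{2π} v (r e^{iθ}) dθ`, differentiable in `r` (differentiation under the
integral).  In polar coordinates `v_rr + v_r / r + v_θθ / r² = Δv`; integrate over `θ` (the `v_θθ` term
vanishes by periodicity): `(r M'(r))' = r * (1/2π) ∫ Δv ≥ 0`; `r M'(r) → 0` as `r → 0`, so `M' ≥ 0` and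
`M 1 ≥ M 0 = v 0`. -/
def StSMV : Prop := ∀ v : ℂ → ℝ, ContDiff ℝ ∞ v →
  (∀ z, 0 ≤ fderiv ℝ (fun w => fderiv ℝ v w 1) z 1 +
    fderiv ℝ (fun w => fderiv ℝ v w Complex.I) z Complex.I) →
  v 0 ≤ (2 * Real.pi)⁻¹ * ∫ θ in (0 : ℝ)..2 * Real.pi, v (Complex.exp (θ * Complex.I))

/-- MODULE TMV (convolution of a smooth plurisubharmonic function increases it).
Inputs: `StSMV`, `StCAL`.
PROOF.  `∫ φ (z - x) v x dx = ∫ φ y v (z - y) dy = ∫ φ y v (z - c y) dy` for `‖c‖ = 1` (the map `y ↦ c y`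
preserves volume and `φ`).  Average over the circle: for fixed `y` the function `ζ ↦ v (z - ζ y)` is smooth on
`ℂ`, its Laplacian at `ζ` is `4 hf (hes v (z - ζ y)) y ≥ 0`, so its circle average is at least `v z`
(`StSMV`).  Fubini. -/
def StTMV : Prop := ∀ (m : ℕ) (v : (Fin m → ℂ) → ℝ), ContDiff ℝ ∞ v → (∀ z, Psd (hes v z)) →
  ∀ φ : (Fin m → ℂ) → ℝ, Continuous φ → HasCompactSupport φ → (∀ z, 0 ≤ φ z) →
  ∫ z, φ z = 1 → (∀ (c : ℂ) z, ‖c‖ = 1 → φ (c • z) = φ z) →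
  ∀ z, v z ≤ ∫ x, φ (z - x) * v x

/-- MODULE REG (regularisation of the potential).  Inputs: `StWPS`, `StTMV`, `StMEX`, `StMO1`, `StNUL`,
`StCAL`.
PROOF.  `v i z = ∫_U φ i (z - x) * u x dx` (`φ` from `StMEX`; `u` extended by `0` off `U`, a null set; `u` is
locally bounded: `0 ≤ u ≤ b * sz`, `sz` continuous).  Smooth by `StMO1`; bounded on bounded sets
uniformly in `i`, nonnegative.  Hessian: `hf (hes (v i) z) ξ = ∫_U u x * hf (hes (φ i) (z - x)) ξ dx ≥ 0`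
by `StWPS` with the test function `x ↦ φ i (z - x)` (second derivatives of `x ↦ φ i (z - x)` are those
of `φ i` at `z - x`).  Invariance under `scl w c`, `‖c‖ = 1`: `φ i`, `U`, `u` and volume are invariant.
`u ≤ v i` on `U`: let `z ∈ U`.  `StTMV` for the smooth plurisubharmonic `v j`:
`v j z ≤ ∫ φ i (z - x) v j x dx`.  As `j → ∞`, `v j z → u z` (continuity of `u` at `z`) and `v j x → u x` for
`x ∈ U`, boundedly, so the right side tends to `v i z`.
Convergence on compact `K ⊆ U`: for `i` large the `1/(i+1)`-neighbourhood of `K` is in a compact subset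
`K'` of `U`, and there derivatives of the convolution are convolutions of the derivatives of `u`
(multiply `u` by a cutoff equal to `1` near `K'`; `StIBP` style), which are uniformly continuous on `K'`. -/
def StREG : Prop := ∀ C : Cone, Good C → ∃ v : ℕ → (Fin C.m → ℂ) → ℝ,
  (∀ i, ContDiff ℝ ∞ (v i)) ∧ (∀ i z, Psd (hes (v i) z)) ∧
  (∀ i, ∀ z ∈ C.U, C.u z ≤ v i z) ∧
  (∀ i (c : ℂ) z, ‖c‖ = 1 → v i (scl C.w c z) = v i z) ∧
  (∀ R : ℝ, ∃ B : ℝ, ∀ i z, ‖z‖ ≤ R → v i z ≤ B) ∧ (∀ i z, 0 ≤ v i z) ∧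
  ∀ K ⊆ C.U, IsCompact K → TendstoUniformlyOn v C.u atTop K ∧
    (∀ j, TendstoUniformlyOn (fun i z => dz j (cf (v i)) z) (fun z => dz j (cf C.u) z) atTop K) ∧
    ∀ j k, TendstoUniformlyOn (fun i z => hes (v i) z j k) (fun z => hes C.u z j k) atTop K

/-- MODULE LIM (limit of the solutions of the `∂̄` problem).  Inputs: `StWKC`, `StLSC`, `StMON`,
`StWEY`.
PROOF.  Put `M_i = nrm ψ_i (G - h_i)`.  (a) For entire `h' ∈ L²(e^{-ψ_i})`: `M_i ≤ nrm ψ_i (G - h')`, because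
`G - h' = (G - h_i) + (h_i - h')` is an orthogonal sum.  With `h' = 0`, `ψ_i ≥ u` on `U`, `Uᶜ` null:
`M_i ≤ nrm u G =: M` and `nrm ψ_i h_i ≤ 4 M`.  (b) `ψ_i` is bounded above on bounded sets uniformly in `i`,
so `h_i` is bounded in `L²(K)` for every compact `K ⊆ ℂ^m`: `StMON` gives a subsequence converging
pointwise to an entire `h`.  (c) On compact `K ⊆ U`: `hes ψ_i → hes u` uniformly and `hes u` is positive
definite and continuous, so for `i` large `hf (hes ψ_i z) ξ ≥ c_K * sq ξ` on `K`, so `v_i`, and clearly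
`γ_i`, are bounded in `L²(K)`.  `StWKC` (apply it to the family `v_i, γ_i, h_i` together): weak limits
`β, γ, h̃` along a further subsequence, and `h̃ = h` almost everywhere (both sequences are holomorphic:
bounded pointwise convergence on compacts by `StSUP`-type bounds, or: `MON` applied, the weak limit is
the pointwise limit because of Mazur/Egorov; simplest: on `K` the weak limit and the pointwise limit of
an `L²`-bounded sequence agree).  (d) Limit of `WT`: for a test function `φ` with support `K ⊆ U` all terms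
converge (`e^{-ψ_i} → e^{-u}` uniformly on `K`).  Limit of `WD`: clear.  (e) Fatou: `∫_U |G - h|² e^{-u} ≤
liminf M_i`.  So `h ∈ L²(U, e^{-u})`.  For every entire `h'` in `L²(U, e^{-u})`: `M_i ≤ nrm ψ_i (G - h')
≤ nrm u (G - h')`.  Hence `nrm u (G - h) ≤ liminf M_i ≤ nrm u (G - h')`, and with `h' = h`:
`limsup M_i ≤ nrm u (G - h)`.  (f) `StLSC` on compact `K ⊆ U` (matrix: identity blocks for `γ`,
`hes ψ_i` for `v`, times `e^{-ψ_i}`; or twice) gives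
`∫_K (∑∑ |γ|² + hf (hes u) β) e^{-u} ≤ limsup M_i ≤ nrm u (G - h)` (for each `ε` the integrals are
eventually at most `limsup M_i + ε`); exhaust `U` by compacts (monotone convergence gives
integrability on `U`). -/
def StLIM : Prop := ∀ (m : ℕ) (U : Set (Fin m → ℂ)), IsOpen U → volume Uᶜ = 0 →
  ∀ (u : (Fin m → ℂ) → ℝ) (ψ : ℕ → (Fin m → ℂ) → ℝ), ContDiffOn ℝ ∞ u U →
  (∀ z ∈ U, Pd (hes u z)) → (∀ i, ContDiff ℝ ∞ (ψ i)) → (∀ i z, Psd (hes (ψ i) z)) →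
  (∀ i, ∀ z ∈ U, u z ≤ ψ i z) → (∀ R : ℝ, ∃ B : ℝ, ∀ i z, ‖z‖ ≤ R → ψ i z ≤ B) →
  (∀ K ⊆ U, IsCompact K → TendstoUniformlyOn ψ u atTop K ∧
    ∀ j k, TendstoUniformlyOn (fun i z => hes (ψ i) z j k) (fun z => hes u z j k) atTop K) →
  ∀ G : (Fin m → ℂ) → ℂ, L2 U u G →
  ∀ (v : ℕ → Fin m → (Fin m → ℂ) → ℂ) (γ : ℕ → Fin m → Fin m → (Fin m → ℂ) → ℂ)
    (h : ℕ → (Fin m → ℂ) → ℂ),
    (∀ i j, L2 Set.univ (ψ i) (v i j)) →
    (∀ i k j, L2 Set.univ (ψ i) (γ i k j) ∧ WD Set.univ k (v i j) (γ i k j)) →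
    (∀ i, Differentiable ℂ (h i) ∧ L2 Set.univ (ψ i) (h i) ∧
      WT Set.univ (ψ i) (v i) (fun z => G z - h i z) ∧
      Integrable (fun z => hf (hes (ψ i) z) (fun j => v i j z) * Real.exp (-ψ i z)) ∧
      ∑ j, ∑ k, nrm Set.univ (ψ i) (γ i k j) +
        ∫ z, hf (hes (ψ i) z) (fun j => v i j z) * Real.exp (-ψ i z) ≤
          nrm Set.univ (ψ i) (fun z => G z - h i z) ∧
      ∀ h' : (Fin m → ℂ) → ℂ, Differentiable ℂ h' → L2 Set.univ (ψ i) h' →
        inn Set.univ (ψ i) (fun z => G z - h i z) h' = 0) →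
  ∃ (β : Fin m → (Fin m → ℂ) → ℂ) (γ' : Fin m → Fin m → (Fin m → ℂ) → ℂ)
    (h' : (Fin m → ℂ) → ℂ) (σ : ℕ → ℕ), StrictMono σ ∧ Differentiable ℂ h' ∧
    (∀ z, Tendsto (fun i => h (σ i) z) atTop (𝓝 (h' z))) ∧ L2 U u h' ∧
    (∀ j, L2loc U (β j)) ∧ (∀ k j, L2loc U (γ' k j) ∧ WD U k (β j) (γ' k j)) ∧
    WT U u β (fun z => G z - h' z) ∧
    IntegrableOn (fun z => (∑ j, ∑ k, ‖γ' k j z‖ ^ 2 + hf (hes u z) (fun j => β j z)) *
      Real.exp (-u z)) U ∧
    ∫ z in U, (∑ j, ∑ k, ‖γ' k j z‖ ^ 2 + hf (hes u z) (fun j => β j z)) * Real.exp (-u z) ≤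
      nrm U u (fun z => G z - h' z) ∧
    ∀ h'' : (Fin m → ℂ) → ℂ, Differentiable ℂ h'' → L2 U u h'' →
      nrm U u (fun z => G z - h' z) ≤ nrm U u (fun z => G z - h'' z)

/-- MODULE RHU (solution of the `∂̄` problem for the weight `u`).  Inputs: `StREG`, `StPRJ`, `StLIM`,
`StNUL`.
PROOF.  `ψ_i z = v i z + sq z / (i + 1)` with `v` from `StREG`: smooth, `hes ψ_i = hes (v i) + 1 / (i + 1)`,
`ψ_i ≥ u` on `U`, invariant under `scl w c`, `‖c‖ = 1`.  `G ∈ L²(ψ_i)`.  `StPRJ` gives `v_i, γ_i, h_i`.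
`h_i (scl w c z) = c ^ (k + jd) * h_i z` for `‖c‖ = 1`: the function `h' z = c^{-(k+jd)} h_i (scl w c z)`
is entire, in `L²`, and `G - h'` is also orthogonal to all entire `L²` functions (change variables), so
`h' - h_i` is orthogonal to itself.  `StLIM`; the limit `h'` has the same homogeneity and
`∫ |h'|² e^{-b sz} ≤ ∫_U |h'|² e^{-u} < ∞` (`u ≤ b sz` on `U`), so `Good.extd` gives `h' = s J`, `s ∈ R k`. -/
def StRHU : Prop := ∀ C : Cone, Good C → ∀ (k : ℕ) (G : (Fin C.m → ℂ) → ℂ), L2 C.U C.u G →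
  (∀ (c : ℂ), ‖c‖ = 1 → ∀ z ∈ C.U, G (scl C.w c z) = c ^ (k + C.jd) * G z) →
  ∃ s ∈ C.R k, ∃ (β : Fin C.m → (Fin C.m → ℂ) → ℂ)
    (γ : Fin C.m → Fin C.m → (Fin C.m → ℂ) → ℂ), L2 C.U C.u (fun z => ev s z * ev C.J z) ∧
    (∀ j, L2loc C.U (β j)) ∧ (∀ k j, L2loc C.U (γ k j) ∧ WD C.U k (β j) (γ k j)) ∧
    WT C.U C.u β (fun z => G z - ev s z * ev C.J z) ∧
    IntegrableOn (fun z => (∑ j, ∑ k, ‖γ k j z‖ ^ 2 + hf (hes C.u z) (fun j => β j z)) *
      Real.exp (-C.u z)) C.U ∧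
    ∫ z in C.U, (∑ j, ∑ k, ‖γ k j z‖ ^ 2 + hf (hes C.u z) (fun j => β j z)) *
      Real.exp (-C.u z) ≤ nrm C.U C.u (fun z => G z - ev s z * ev C.J z) ∧
    ∀ s' ∈ C.R k, L2 C.U C.u (fun z => ev s' z * ev C.J z) →
      nrm C.U C.u (fun z => G z - ev s z * ev C.J z) ≤
        nrm C.U C.u (fun z => G z - ev s' z * ev C.J z)

/-- MODULE PIO (Piola identity).  Input: `StCAL`.
PROOF.  `adjugate A k j = det (A.updateRow j (Pi.single k 1))` (`Matrix.adjugate_apply`).  With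
`A = hes u`, row `l` of `A` is `(∂̄_p ∂_l u)_p`.  The derivative of a determinant is the sum over rows `l`
of the determinants with row `l` differentiated; row `j` is constant.  So
`∑ k, ∂̄_k adjugate A k j = ∑_{l ≠ j} ∑ k, det (row j := e_k, row l := (∂̄_k ∂̄_p ∂_l u)_p)
= ∑_{l ≠ j} ∑ k, ∑ p, (∂̄_k ∂̄_p ∂_l u) det (row j := e_k, row l := e_p)`, and this vanishes: the first
factor is symmetric, the second antisymmetric in `k, p`.  The second identity: the transposed matrix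
(or complex conjugation). -/
def StPIO : Prop := ∀ (m : ℕ) (U : Set (Fin m → ℂ)), IsOpen U → ∀ u : (Fin m → ℂ) → ℝ,
  ContDiffOn ℝ ∞ u U → ∀ z ∈ U, ∀ j : Fin m,
    ∑ k, db k (fun z => (hes u z).adjugate k j) z = 0 ∧
    ∑ k, dz k (fun z => (hes u z).adjugate j k) z = 0

/-- MODULE DIV (integration by parts for the cofactor matrix).  Inputs: `StPIO`, `StIBP`, `StCAL`.
PROOF.  The function `∑ k, db k (F * ∑ j, adjugate k j * dz j v)` (extended by `0` off `tsupport F`) has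
integral `0` (`StIBP` with a cutoff, or the divergence theorem for compactly supported functions).  By
`StPIO` it equals `∑ ∑ adjugate k j * dz j v * db k F + F * ∑ ∑ adjugate k j * db k (dz j v)`, and
`db k (dz j v) = hes v j k`. -/
def StDIV : Prop := ∀ (m : ℕ) (U : Set (Fin m → ℂ)), IsOpen U → ∀ u v F : (Fin m → ℂ) → ℝ,
  ContDiffOn ℝ ∞ u U → ContDiffOn ℝ ∞ v U → ContDiff ℝ ∞ F → HasCompactSupport F →
  tsupport F ⊆ U →
  ∫ z in U, (F z : ℂ) * ∑ j, ∑ k, (hes u z).adjugate k j * hes v z j k =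
    - ∫ z in U, ∑ j, ∑ k, (hes u z).adjugate k j * dz j (cf v) z * db k (cf F) z

/-- MODULE STK (Stokes for Monge-Ampere masses).  Input: `StDIV`.
PROOF.  For `s ∈ [0, 1]` let `a_s = a + s φ`.  `d/ds det (hes a_s) = ∑ ∑ (hes a_s).adjugate k j * hes φ j k`
(Jacobi formula, `hes a_s = hes a + s hes φ`), whose integral over `U` is, by `StDIV` with a cutoff
`F = 1` near `tsupport φ` in the role of `F` and `v = φ`, `- ∫ ∑∑ adjugate * dz φ * db F = 0`.  Integrate over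
`s` and use Fubini (everything is continuous with compact support). -/
def StSTK : Prop := ∀ (m : ℕ) (U : Set (Fin m → ℂ)), IsOpen U → ∀ a φ : (Fin m → ℂ) → ℝ,
  ContDiffOn ℝ ∞ a U → ContDiff ℝ ∞ φ → HasCompactSupport φ → tsupport φ ⊆ U →
  ∫ z in U, ((hes (fun z => a z + φ z) z).det - (hes a z).det) = 0

/-- MODULE RMX (regularized maximum).  Input: `StCAL`.
PROOF.  Let `g : ℝ → ℝ` be smooth, convex, even, `g t = |t| / 2` for `|t| ≥ 1` (mollify `|t| / 2`, or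
integrate a smooth bump twice), so `|g'| ≤ 1/2`.  `μ a b = (a + b) / 2 + g (a - b)`.  Hessian of
`μ (a z) (b z)`: `(1/2 + g') hes a + (1/2 - g') hes b + g'' ∂(a-b) ∂̄(a-b)`, positive semidefinite. -/
def StRMX : Prop := ∃ μ : ℝ → ℝ → ℝ, (∀ a b, b + 1 ≤ a → μ a b = a) ∧
  (∀ a b, a + 1 ≤ b → μ a b = b) ∧
  ∀ (m : ℕ) (U : Set (Fin m → ℂ)), IsOpen U → ∀ a b : (Fin m → ℂ) → ℝ,
    ContDiffOn ℝ ∞ a U → ContDiffOn ℝ ∞ b U → (∀ z ∈ U, Psd (hes a z)) →
    (∀ z ∈ U, Psd (hes b z)) →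
    ContDiffOn ℝ ∞ (fun z => μ (a z) (b z)) U ∧ ∀ z ∈ U, Psd (hes (fun z => μ (a z) (b z)) z)

/-- MODULE DTM (monotonicity of the determinant on positive semidefinite matrices).
PROOF.  `Psd A` is positive semidefiniteness of the transpose (or conjugate) of `A`.  If `A` is positive
definite write `A = S²`, `A + B = S (1 + S⁻¹ B S⁻¹) S`, and `det (1 + N) ≥ 1` for `N` positive
semidefinite (eigenvalues).  In general replace `A` by `A + ε`, `ε → 0`. -/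
def StDTM : Prop := ∀ (m : ℕ) (A B : Matrix (Fin m) (Fin m) ℂ), Psd A → Psd B →
  0 ≤ A.det.re ∧ A.det.im = 0 ∧ A.det.re ≤ (A + B).det.re

/-- MODULE CMP (comparison of Monge-Ampere masses).  Inputs: `StSTK`, `StRMX`, `StDTM`, `StCAL`.
PROOF.  If the right side is infinite nothing is to be proved.  `q z = log ‖p₁ z‖² + log ∑ ‖Q_i z‖²` is
smooth on `U` with positive semidefinite Hessian (`log |holomorphic|²` is pluriharmonic; `log` of a sum
of `|holomorphic|²` is plurisubharmonic, by Cauchy-Schwarz).  `M = 2 d₁ + 2 dq > 0`.  By `Good.bdd`: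
`q ≤ M log sz + c`.  Let `δ > 0`, `P₁ = A + δ q`, `P₂ = (1 + δ M + δ) B`, `c' > 0` large,
`P = μ (P₁) (P₂ - c')` with `μ` of `StRMX`.  The set `{P₁ ≥ P₂ - c' - 1}` is contained in a compact subset
of `U`: from `B ≥ log sz - c₀`, `B ≥ - c₀`, `A ≤ B + c₀`, one gets `P₁ - P₂ ≤ c₁ - δ B + δ (q - M B)
≤ c₂ - δ B` and so `δ B ≤ c₃`, hence `sz` is bounded on the set; and `δ q ≥ P₂ - A - c' - 1 ≥ - c₄`, so
`‖p₁‖² ∑ ‖Q_i‖²` is bounded below there, and both factors are bounded above (`sz` bounded), so both are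
bounded below: `Good.cpt`.  So `P = P₂ - c'` off a compact subset of `U` and `StSTK` gives
`∫_U (det hes P - det hes P₂) = 0`; `det hes P₂ = (1 + δM + δ)^m det hes B` is integrable, so `det hes P` is
and has the same integral.  Where `P₁ ≥ P₂ - c' + 1` (on the interior of this set `P = P₁`)
`det hes P = det hes P₁ ≥ det hes A` (`StDTM`).  So `∫⁻_{P₁ > P₂ - c' + 1} det hes A ≤
(1 + δM + δ)^m ∫⁻ det hes B`.  Let `c' → ∞` (monotone convergence: the sets increase to `U`), then `δ → 0`. -/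
def StCMP : Prop := ∀ C : Cone, Good C → ∀ (A B : (Fin C.m → ℂ) → ℝ) (c₀ : ℝ),
  ContDiffOn ℝ ∞ A C.U → ContDiffOn ℝ ∞ B C.U → (∀ z ∈ C.U, Psd (hes A z)) →
  (∀ z ∈ C.U, Psd (hes B z)) → (∀ z ∈ C.U, |A z - B z| ≤ c₀) →
  (∀ z ∈ C.U, Real.log (C.sz z) - c₀ ≤ B z ∧ - c₀ ≤ B z) →
  ∫⁻ z in C.U, ENNReal.ofReal (hes A z).det.re ≤ ∫⁻ z in C.U, ENNReal.ofReal (hes B z).det.re

/-- MODULE EUL (consequences of homogeneity).  Input: `StCAL`.
PROOF.  (i) differentiate `u (scl w c z) = ‖c‖ u z` with respect to `c` at `c = 1` (`∂_c`, complex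
derivative: `∂_c ‖c‖ = 1/2` at `c = 1`).  (ii) apply `∂̄_k` to (i): `∑ j w_j z_j ∂_j ∂̄_k u = ∂̄_k u / 2`.
(iii) `∑ j w_j z_j ∂_j v = 0` in the same way.  (iv) multiply (ii) by `adjugate k l` and sum over `k`:
`(adjugate * A = det)`.  (v) `hes (f ∘ u) j k = f' hes u j k + f'' ∂_j u ∂̄_k u`; the matrix determinant lemma
`det (x A + y a bᵀ) = x^{m-1} (x det A + y bᵀ adj(A) a)` (polynomial identity in `x`), and
`∑∑ adjugate k j ∂_j u ∂̄_k u = det * ∑ 2 w_j z_j ∂_j u = det * u` by (iv), (i).  Positivity: for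
`f' ≥ 0` and `f' + u f'' ≥ 0` the matrix `f' A + f'' a a*` is positive semidefinite: Cauchy-Schwarz
`|∑ ∂_j u ξ_j|² ≤ u * hf A ξ`. -/
def StEUL : Prop := ∀ C : Cone, Good C → ∀ z ∈ C.U,
  (∑ j, (C.w j : ℂ) * z j * dz j (cf C.u) z = (C.u z : ℂ) / 2) ∧
  (∀ k, ∑ j, hes C.u z j k * ((C.w j : ℂ) * z j) = db k (cf C.u) z / 2) ∧
  (∀ v : (Fin C.m → ℂ) → ℝ, ContDiffOn ℝ ∞ v C.U →
    (∀ x ∈ C.U, ∀ c : ℂ, c ≠ 0 → v (scl C.w c x) = v x) →
    ∑ j, (C.w j : ℂ) * z j * dz j (cf v) z = 0) ∧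
  (∀ l, ∑ k, (hes C.u z).adjugate k l * db k (cf C.u) z =
    2 * (hes C.u z).det * ((C.w l : ℂ) * z l)) ∧
  (∀ ξ, ‖∑ j, dz j (cf C.u) z * ξ j‖ ^ 2 ≤ C.u z * hf (hes C.u z) ξ) ∧
  ∀ f : ℝ → ℝ, ContDiffOn ℝ ∞ f (Set.Ioi 0) →
    (hes (fun x => f (C.u x)) z).det =
      (((deriv f (C.u z)) ^ (C.m - 1) * (deriv f (C.u z) + C.u z * deriv (deriv f) (C.u z)) *
        ‖ev C.J z‖ ^ 2 : ℝ) : ℂ) ∧
    (0 ≤ deriv f (C.u z) → 0 ≤ deriv f (C.u z) + C.u z * deriv (deriv f) (C.u z) →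
      Psd (hes (fun x => f (C.u x)) z))

/-- MODULE SCA (scaling of the measure `ν`).
PROOF.  `z ↦ scl w c z` is linear with determinant `c ^ (∑ w)`, `J (scl w c z) = c ^ jd J z`, so
`ν (scl w c '' S) = |c|^{2 ∑ w + 2 jd} ν S = |c|^m ν S` (`deg`, `hm`).  So `μ = (g ν).map ψ` restricted
to `(0, ∞)` satisfies `μ (0, s) = s^a μ (0, 1)`, `a = (m + e) / D`.  Both sides of the claim are integrals of
`Φ` for measures which agree on all intervals `(0, s)` and are finite there: equal measures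
(`MeasureTheory.Measure.ext_of_generateFrom...`, pi-system of the intervals). -/
def StSCA : Prop := ∀ C : Cone, Good C → ∀ (D e : ℝ), 0 < D → 0 < C.m + e →
  ∀ (ψ : (Fin C.m → ℂ) → ℝ) (g : (Fin C.m → ℂ) → ENNReal), Measurable ψ → Measurable g →
  (∀ z ∈ C.U, 0 < ψ z ∧ ∀ c : ℂ, c ≠ 0 → ψ (scl C.w c z) = ‖c‖ ^ D * ψ z ∧
    g (scl C.w c z) = ENNReal.ofReal (‖c‖ ^ e) * g z) →
  ∫⁻ z in {z | z ∈ C.U ∧ ψ z < 1}, g z ∂C.nu ≠ ⊤ →
  ∀ Φ : ℝ → ENNReal, Measurable Φ →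
    ∫⁻ z in C.U, Φ (ψ z) * g z ∂C.nu =
      (∫⁻ s in Set.Ioi (0 : ℝ), Φ s * ENNReal.ofReal ((C.m + e) / D * s ^ ((C.m + e) / D - 1))) *
        ∫⁻ z in {z | z ∈ C.U ∧ ψ z < 1}, g z ∂C.nu

/-- MODULE ILG (an integral).
PROOF.  Polar coordinates in `ℂ^m` (`= ℝ^{2m}`), or induction on `m`:
`∫_ℂ (a + |w|²)^{-(p+1)} dw = π / (p a^p)` for `a > 0`, `p ≥ 1`, so integrating out one variable at a time
from `(1 + sq y)^{-(m+1)}` gives `π^m / m!`. -/
def StILG : Prop := ∀ m : ℕ, ∫⁻ y : Fin m → ℂ,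
  ENNReal.ofReal ((1 / 2) ^ m * ((1 + sq y) ^ (m + 1))⁻¹) =
    ENNReal.ofReal ((Real.pi / 2) ^ m / m.factorial)

/-- MODULE MLV (mass of `log (1 + |Y|²) / 2`).  Inputs: `StARE`, `StILG`, `StCAL`, `StNUL`.
PROOF.  For `g y = log (1 + sq y) / 2` on `ℂ^m`: `hes g = (1/2) ((1 + sq y)⁻¹ δ_jk - (1 + sq y)⁻² conj(y_j) y_k)`,
positive semidefinite, with determinant `2^{-m} (1 + sq y)^{-(m+1)}`.  For the holomorphic map `Y`:
`hes (g ∘ Y) z = DYᵀ (hes g) conj DY`, so it is positive semidefinite, with determinant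
`‖det DY‖² 2^{-m} (1 + sq (Y z))^{-(m+1)}`.  `StARE` with `S = U` and `Good.Ycard` (a set with
`ncard = rd > 0` is finite, so `encard = rd`), then `StILG`. -/
def StMLV : Prop := ∀ C : Cone, Good C →
  (∀ z, Psd (hes (fun x => Real.log (1 + ∑ i, ‖ev (C.Y i) x‖ ^ 2) / 2) z)) ∧
  ∫⁻ z in C.U, ENNReal.ofReal (hes (fun x => Real.log (1 + ∑ i, ‖ev (C.Y i) x‖ ^ 2) / 2) z).det.re =
    ENNReal.ofReal (C.rd * (Real.pi / 2) ^ C.m / C.m.factorial)

/-- MODULE VOL (the volume).  Inputs: `StCMP`, `StEUL`, `StSCA`, `StMLV`, `StCAL`.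
PROOF.  `A = log (1 + u²) / 2`, `B = log (1 + ∑ ‖Y_i‖²) / 2`; `|A - B|` is bounded on `U` by `ubd`, `bdd`,
`Ybd`, and both are `≥ log sz - c₀` and `≥ 0`.  `f s = log (1 + s²) / 2`: `f' = s / (1 + s²)`,
`f' + s f'' = 2 s / (1 + s²)²`, so by `StEUL` `A` is plurisubharmonic and
`det hes A = 2 u^m (1 + u²)^{-(m+1)} ‖J‖²`.  `StCMP` twice: both masses are equal, to
`rd (π/2)^m / m!` (`StMLV`).  So `∫_U 2 u^m (1+u²)^{-(m+1)} dν` is finite, so `ν {1/2 ≤ u < 1} < ∞`, and by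
scaling `ν {u < 1} = ∑_i ν {2^{-i-1} ≤ u < 2^{-i}} = ∑ 2^{-im} ν {1/2 ≤ u < 1} < ∞`.  `StSCA` (`ψ = u` on `U`,
`D = 1`, `g = 1`, `e = 0`): the mass of `A` is `ν {u < 1} ∫_0^∞ 2 m s^{2m-1} (1+s²)^{-(m+1)} ds`, and the
integral is `1` (primitive `(s² / (1 + s²))^m`). -/
def StVOL : Prop := ∀ C : Cone, Good C →
  C.nu {z | z ∈ C.U ∧ C.u z < 1} = ENNReal.ofReal (C.rd * (Real.pi / 2) ^ C.m / C.m.factorial)

end Pool.Agent.Helper52.KP
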