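import Pool.Agent.Helper52.KP.StG

/-!
# Project KP (MP_26be5b_ag): the boundary of the orbit is small

For every statement `StXX` prove `theorem hXX : StXX` in `Pool/Agent/<You>/KP/M_XX.lean`.
-/

set_option autoImplicit false

namespace Pool.Agent.Helper52.KP

open Pool.Agent.Helper67.NO MeasureTheory Filter
open scoped ContDiff ComplexOrder Topology

universe u

/-- MODULE EVN (the rank of `ad x` is even).
PROOF.  `κ(x, [y, z])` is an alternating form on `g` whose radical is `ker (ad x)`:
`κ(x, [y, z]) = κ([x, y], z)` and `κ` is nondegenerate (`LieAlgebra.IsKilling`).  So `g / ker (ad x)`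
carries a nondegenerate alternating form, and its dimension `rk x` is even: the matrix `M` of such a
form satisfies `Mᵀ = - M`, `det M = (-1)^d det M`, `det M ≠ 0`. -/
def StEVN : Prop := ∀ (g : Type u) [LieRing g] [LieAlgebra ℂ g] [FiniteDimensional ℂ g]
  [LieAlgebra.IsSemisimple ℂ g] (x : g), Even (rk x)

/-- MODULE COV (countable covers by exponential charts).  Inputs: `StNEA`, `StORB`.
PROOF.  For `x ≠ 0` nilpotent of rank `q` and a frame `X : Fin q → g` (`StORB`; `rk x = q`), `StNEA` gives `δ > 0`
such that all nilpotent `y` with `rk y = q`, `size (y - x) < δ` are in the range of `chart x X`.  The set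
of these `x`, in coordinates a subset of `ℂ^N`, is second countable, so countably many of the
neighbourhoods cover (`TopologicalSpace.countable_cover_nhdsWithin` or Lindelöf).  If there is no such
`x` take constant maps.  `x = 0` has rank `0`, treat it by a constant map. -/
def StCOV : Prop := ∀ (g : Type u) [LieRing g] [LieAlgebra ℂ g] [FiniteDimensional ℂ g]
  [LieAlgebra.IsSemisimple ℂ g] (q : ℕ), ∃ c : ℕ → (Fin q → ℂ) → g,
  (∀ i, HolMap Set.univ (c i)) ∧
  ∀ x : g, IsNilpotent (LieAlgebra.ad ℂ g x) → rk x = q → ∃ i w, c i w = x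

/-- MODULE BDY (the boundary).  Inputs: `StCOV`, `StEVN`, `StCLO`, `StORB`.
PROOF.  Let `x` be a limit of points of the orbit (in coordinates), not on the orbit.  It is nilpotent and
`rk x ≤ m = rk x₀` (closed conditions: powers of the matrix of `ad x`, minors).  If `rk x = m` then some
minor of size `m` is nonzero, and `StCLO` says that `x` is on the orbit.  So `rk x ≤ m - 2` (`StEVN`).
`StCOV` for the finitely many ranks `q ≤ m - 2`, maps extended to `ℂ^(m-2)` by ignoring the last
coordinates. -/
def StBDY : Prop := ∀ (g : Type u) [LieRing g] [LieAlgebra ℂ g] [FiniteDimensional ℂ g]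
  [LieAlgebra.IsSemisimple ℂ g] (x₀ : g), x₀ ≠ 0 → IsNilpotent (LieAlgebra.ad ℂ g x₀) →
  2 ≤ rk x₀ ∧ ∃ c : ℕ → (Fin (rk x₀ - 2) → ℂ) → g, (∀ i, HolMap Set.univ (c i)) ∧
  ∀ x : g, co x ∈ closure (co '' {y | Orb x₀ y}) → (Orb x₀ x ↔ 0 < mns (rk x₀) x) ∧
    (¬ Orb x₀ x → ∃ i w, c i w = x)

end Pool.Agent.Helper52.KP
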