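import Pool.Agent.Helper52.KP.Defs

/-!
# Project KP (MP_26be5b_ag), chapter L: L² theory on `ℂ^m`

For every statement `StXX` prove `theorem hXX : StXX` in `Pool/Agent/<You>/KP/M_XX.lean`; statements
named in the docstring may be taken as hypotheses (`theorem hXX (h1 : StYY) : StXX`).
-/

set_option autoImplicit false

namespace Pool.Agent.Helper52.KP

open MeasureTheory Filter
open scoped ContDiff ComplexOrder Topology

/-- MODULE CAL.  Rules of calculus for `dz`, `db`.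
PROOF.  All from `fderiv`: `fderiv_add`, `fderiv_mul`, `star` is a continuous real linear map (use
`Complex.conjCLE`), chain rule for `Complex.exp` (`HasFDerivAt.cexp`).  Formula for `fderiv ℝ f z v`:
`v = ∑ i, (re (v i) • Pi.single i 1 + im (v i) • Pi.single i I)`, and `a = dz + db`, `b = I (dz - db)`
for `a = fderiv (single i 1)`, `b = fderiv (single i I)`.  If all `db i f z = 0` the real derivative
is complex linear, so it is a complex derivative (`DifferentiableAt.of...`, construct the continuous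
linear map `v ↦ ∑ i, dz i f z * v i` and use `HasFDerivAt` over `ℝ` with `restrictScalars`, see
`hasFDerivAt_of_restrictScalars`).  Symmetry of second derivatives:
`ContDiffAt.isSymmSndFDerivAt` (for `ℝ`, order two). -/
def StCAL : Prop := ∀ (m : ℕ) (j k : Fin m) (f f' : (Fin m → ℂ) → ℂ) (z : Fin m → ℂ),
  (DifferentiableAt ℝ f z → DifferentiableAt ℝ f' z →
    dz j (fun z => f z + f' z) z = dz j f z + dz j f' z ∧
    db j (fun z => f z + f' z) z = db j f z + db j f' z ∧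
    dz j (fun z => f z * f' z) z = dz j f z * f' z + f z * dz j f' z ∧
    db j (fun z => f z * f' z) z = db j f z * f' z + f z * db j f' z ∧
    dz j (fun z => star (f z)) z = star (db j f z) ∧
    db j (fun z => star (f z)) z = star (dz j f z) ∧
    dz j (fun z => Complex.exp (f z)) z = Complex.exp (f z) * dz j f z ∧
    db j (fun z => Complex.exp (f z)) z = Complex.exp (f z) * db j f z) ∧
  (DifferentiableAt ℝ f z →
    (∀ v, fderiv ℝ f z v = ∑ i, (dz i f z * v i + db i f z * star (v i))) ∧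
    ((∀ i, db i f z = 0) → DifferentiableAt ℂ f z)) ∧
  (DifferentiableAt ℂ f z → db j f z = 0 ∧ dz j f z = fderiv ℂ f z (Pi.single j 1)) ∧
  (ContDiffAt ℝ 2 f z → db k (dz j f) z = dz j (db k f) z ∧
    dz k (dz j f) z = dz j (dz k f) z ∧ db k (db j f) z = db j (db k f) z) ∧
  (∀ U : Set (Fin m → ℂ), IsOpen U → ContDiffOn ℝ ∞ f U →
    ContDiffOn ℝ ∞ (dz j f) U ∧ ContDiffOn ℝ ∞ (db j f) U)

/-- MODULE IBP.  Integration by parts.
PROOF.  `integral_mul_fderiv_eq_neg_fderiv_mul_of_integrable` (Mathlib, real directional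
derivatives of products on a finite-dimensional space with Haar measure), or
`integral_bilinear_hasFDerivAt...`, for the directions `Pi.single j 1` and `Pi.single j I`; all
integrands are continuous with compact support.  Then combine linearly. -/
def StIBP : Prop := ∀ (m : ℕ) (j : Fin m) (f g : (Fin m → ℂ) → ℂ), ContDiff ℝ 1 f →
  ContDiff ℝ 1 g → HasCompactSupport g →
  (∫ z, dz j f z * g z) = - ∫ z, f z * dz j g z ∧ (∫ z, db j f z * g z) = - ∫ z, f z * db j g z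

/-- MODULE BKN (Bochner-Kodaira identity for test forms).  Inputs: `StCAL`, `StIBP`.
PROOF.  Write `δ_j f = ∂_j f - ψ_j f`, `ψ_j = dz j (cf ψ)`, so `Tad ψ η = - ∑ δ_j η_j`.  For smooth
`f, g` with `g` or `f` test: (1) `∫ δ_j f * star g * e^{-ψ} = - ∫ f * star (db j g) * e^{-ψ}`: it is
`StIBP` for `f * e^{-ψ}` and `star g`, since `dz j (f e^{-ψ}) = (δ_j f) e^{-ψ}` and
`dz j (star g) = star (db j g)`.  (2) commutator: `db j (δ_k f) = δ_k (db j f) - (hes ψ) k j * f`,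
because `db j (dz k (cf ψ)) = dz k (db j (cf ψ)) = hes ψ z k j`.
Hence `∫ δ_j η_j * star (δ_k η_k) e^{-ψ} = - ∫ η_j * star (db j (δ_k η_k)) e^{-ψ}
= - ∫ η_j star (δ_k (db j η_k)) e^{-ψ} + ∫ η_j * star (hes ψ k j * η_k) e^{-ψ}
= ∫ db k η_j * star (db j η_k) e^{-ψ} + ∫ hes ψ j k * η_j * star η_k * e^{-ψ}`
(the conjugate of (1) in the first term, and `star (hes ψ k j) = hes ψ j k`: the Hessian of a real
function is Hermitian by `StCAL`).  Sum over `j, k` and take real parts: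
`nrm (Tad ψ η) = re ∑ ∑ ∫ db k η_j star (db j η_k) e^{-ψ} + ∫ hf (hes ψ) η e^{-ψ}`, and
`(1/2) ∑ ∑ |db j η_k - db k η_j|² = ∑ ∑ |db k η_j|² - re ∑ ∑ db k η_j star (db j η_k)`. -/
def StBKN : Prop := ∀ (m : ℕ) (ψ : (Fin m → ℂ) → ℝ), ContDiff ℝ ∞ ψ →
  ∀ η : Fin m → (Fin m → ℂ) → ℂ, (∀ j, Tst Set.univ (η j)) →
  nrm Set.univ ψ (Tad ψ η) +
      (1 / 2) * ∑ j, ∑ k, nrm Set.univ ψ (fun z => db j (η k) z - db k (η j) z) =
    ∑ j, ∑ k, nrm Set.univ ψ (db k (η j)) +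
      ∫ z, hf (hes ψ z) (fun j => η j z) * Real.exp (-ψ z)

/-- MODULE MEX (existence of mollifiers).
PROOF.  `φ i z = ∏ j, χ_i (z j)` with `χ_i w = χ (‖w‖² (i+1)²)`-type radial bumps in one variable: take a
smooth `θ : ℝ → ℝ`, `θ ≥ 0`, `θ = 1` on `(-∞, 1/4]`, `θ = 0` on `[1, ∞)` (`Real.smoothTransition`),
`χ_i w = c_i θ (‖w‖² (i+1)²)` (`‖w‖² = re² + im²` is smooth), `c_i` the normalizing constant.  The integral
of the product is the product of integrals (`integral_fintype_prod_eq_prod`). -/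
def StMEX : Prop := ∀ m : ℕ, ∃ φ : ℕ → (Fin m → ℂ) → ℝ, Mol φ

/-- MODULE MO1 (derivatives of mollifications).
PROOF.  Convolution of a locally integrable function with a smooth compactly supported kernel:
`HasCompactSupport.contDiff_convolution_left`, `HasCompactSupport.hasFDerivAt_convolution_left`; the
rest is the chain rule for `x ↦ z - x`. -/
def StMO1 : Prop := ∀ (m : ℕ) (φ : ℕ → (Fin m → ℂ) → ℝ), Mol φ →
  ∀ f : (Fin m → ℂ) → ℂ, LocallyIntegrable f volume → ∀ i, ContDiff ℝ ∞ (cv (φ i) f) ∧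
    (HasCompactSupport f → HasCompactSupport (cv (φ i) f)) ∧
    ∀ (j : Fin m) (z : Fin m → ℂ),
      dz j (cv (φ i) f) z = (∫ x, dz j (cf (φ i)) (z - x) * f x) ∧
      db j (cv (φ i) f) z = (∫ x, db j (cf (φ i)) (z - x) * f x) ∧
      (∀ x, dz j (fun y => (φ i (z - y) : ℂ)) x = - dz j (cf (φ i)) (z - x)) ∧
      (∀ x, db j (fun y => (φ i (z - y) : ℂ)) x = - db j (cf (φ i)) (z - x))

/-- MODULE MO2 (convergence in `L²`).
PROOF.  `|φ ⋆ f|² ≤ φ ⋆ |f|²` (Jensen, `∫ φ = 1`), Fubini: `‖φ ⋆ f‖₂ ≤ ‖f‖₂`.  For continuous `f` with compact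
support: uniform convergence, supports in a fixed compact set.  Such functions are dense in `L²`
(`MemLp.exists_hasCompactSupport_eLpNorm_sub_le`). -/
def StMO2 : Prop := ∀ (m : ℕ) (φ : ℕ → (Fin m → ℂ) → ℝ), Mol φ →
  ∀ f : (Fin m → ℂ) → ℂ, MemLp f 2 volume → (∀ i, MemLp (cv (φ i) f) 2 volume) ∧
    Tendsto (fun i => ∫ z, ‖cv (φ i) f z - f z‖ ^ 2) atTop (𝓝 0)

/-- MODULE DEN (density of test forms in the graph norm).  Inputs: `StCAL`, `StIBP`, `StMEX`, `StMO1`,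
`StMO2`.
PROOF.  Step 1 (cutoff).  Let `χ_R(z) = χ(z / R)`, `χ` smooth with compact support, `0 ≤ χ ≤ 1`,
equal to `1` near `0`.  Put `w_j = χ_R v_j`.  Then weakly `T* w = χ_R a - ∑ (∂_j χ_R) v_j =: a_R`
(test with `φ`: `∑ ∫ χ_R v_j star (db j φ) e^{-ψ} = ∑ ∫ v_j star (db j (χ_R φ)) e^{-ψ}
- ∑ ∫ v_j star (db j χ_R) star φ e^{-ψ}`, and `star (db j χ_R) = dz j χ_R`) and
`∂̄_j w_k - ∂̄_k w_j = (db j χ_R) v_k - (db k χ_R) v_j =: c_jk` weakly.  As `|∇χ_R| ≤ C / R`, as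
`R → ∞`: `w_j → v_j`, `a_R → a`, `c_jk → 0` in the norm `nrm`.
Step 2 (mollify) for fixed `R`: `w`, `a_R`, `c_jk` have compact support, and on a compact set the
weight `e^{-ψ}` is bounded above and below, so they are in `L²` without weight.  Weakly (unweighted)
`∑ ∂_j w_j = b := - a_R + ∑ ψ_j w_j` (replace `φ` by `φ e^{ψ}`).  Put `η_j = cv (φ i) w_j`.  By `StMO1` and the
weak equations with the test function `x ↦ φ i (z - x)`: `∑ dz j η_j = cv (φ i) b` and
`db j η_k - db k η_j = cv (φ i) c_jk`.  As `i → ∞` everything converges in `L²` (`StMO2`) with supports in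
a fixed compact set: `Tad ψ η = - cv b + ∑ ψ_j η_j → - b + ∑ ψ_j w_j = a_R`.  Diagonal sequence. -/
def StDEN : Prop := ∀ (m : ℕ) (ψ : (Fin m → ℂ) → ℝ), ContDiff ℝ ∞ ψ →
  ∀ (v : Fin m → (Fin m → ℂ) → ℂ) (a : (Fin m → ℂ) → ℂ), (∀ j, L2 Set.univ ψ (v j)) →
  L2 Set.univ ψ a → WT Set.univ ψ v a → CF v →
  ∃ η : ℕ → Fin m → (Fin m → ℂ) → ℂ, (∀ i j, Tst Set.univ (η i j)) ∧
    (∀ j, Tendsto (fun i => nrm Set.univ ψ (fun z => η i j z - v j z)) atTop (𝓝 0)) ∧
    Tendsto (fun i => nrm Set.univ ψ (fun z => Tad ψ (η i) z - a z)) atTop (𝓝 0) ∧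
    ∀ j k, Tendsto (fun i => nrm Set.univ ψ (fun z => db j (η i k) z - db k (η i j) z))
      atTop (𝓝 0)

/-- MODULE BSI (basic inequality).  Inputs: `StBKN`, `StDEN`, `StCAL`, `StIBP`.
PROOF.  Take `η i` from `StDEN`.  `StBKN` for `η i - η i'` (a test form; everything is linear) gives
`∑ ∑ nrm (db k (η i j - η i' j)) + ∫ hf (hes ψ) (η i - η i') e^{-ψ} ≤ nrm (Tad (η i - η i')) +
(1/2) ∑ ∑ nrm (curl) → 0`, so `db k (η i j)` is Cauchy in `L²(e^{-ψ})`; limit `γ k j` (completeness of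
`Lp`, measure `volume.withDensity (e^{-ψ})`); `WD` passes to the limit (test functions are bounded
with compact support, `e^{-ψ}` is bounded below there).  `StBKN` for `η i`:
`∑ ∑ nrm (db k (η i j)) + ∫ hf (hes ψ) (η i) e^{-ψ} = nrm (Tad (η i)) + o(1) → nrm a`.  For a subsequence
`η i → v` almost everywhere, so by Fatou (the integrand is nonnegative)
`∫ hf (hes ψ) v e^{-ψ} ≤ liminf`. -/
def StBSI : Prop := ∀ (m : ℕ) (ψ : (Fin m → ℂ) → ℝ), ContDiff ℝ ∞ ψ →
  (∀ z, Psd (hes ψ z)) →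
  ∀ (v : Fin m → (Fin m → ℂ) → ℂ) (a : (Fin m → ℂ) → ℂ), (∀ j, L2 Set.univ ψ (v j)) →
  L2 Set.univ ψ a → WT Set.univ ψ v a → CF v →
  ∃ γ : Fin m → Fin m → (Fin m → ℂ) → ℂ,
    (∀ k j, L2 Set.univ ψ (γ k j) ∧ WD Set.univ k (v j) (γ k j)) ∧
    Integrable (fun z => hf (hes ψ z) (fun j => v j z) * Real.exp (-ψ z)) ∧
    ∑ j, ∑ k, nrm Set.univ ψ (γ k j) +
      ∫ z, hf (hes ψ z) (fun j => v j z) * Real.exp (-ψ z) ≤ nrm Set.univ ψ a

/-- MODULE SUP (mean value property on polydiscs).  `Metric.ball z r` in `Fin m → ℂ` (sup norm) is a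
polydisc.
PROOF.  Induction on `m` and Fubini (or: iterate one variable).  One variable: for `h` holomorphic on
the disc, `h z = (1 / 2π) ∫ h (z + s e^{iθ}) dθ` for `s < r` (Mathlib:
`DiffContOnCl.circleAverage...` or the Cauchy integral formula), integrate `s ds` over `(0, r)` in
polar coordinates.  For integrable `h` all integrals make sense; if `‖h‖²` is integrable on the
polydisc then so is `h`.  The inequality is Cauchy-Schwarz (Jensen). -/
def StSUP : Prop := ∀ (m : ℕ) (z : Fin m → ℂ) (r : ℝ), 0 < r → ∀ h : (Fin m → ℂ) → ℂ,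
  DifferentiableOn ℂ h (Metric.ball z r) → IntegrableOn (fun x => ‖h x‖ ^ 2) (Metric.ball z r) →
  (((Real.pi * r ^ 2) ^ m : ℝ) : ℂ) * h z = ∫ x in Metric.ball z r, h x ∧
  (Real.pi * r ^ 2) ^ m * ‖h z‖ ^ 2 ≤ ∫ x in Metric.ball z r, ‖h x‖ ^ 2

/-- MODULE WEY (Weyl lemma for `∂̄`, local).  Inputs: `StSUP`, `StCAL`, `StMEX`, `StMO1`, `StMO2`.
PROOF.  Let `z₀ ∈ U`, `ball z₀ (4 r) ⊆ U`.  `f_i = cv (φ i) (1_{ball z₀ (4 r)} f)` is smooth and on
`ball z₀ (3 r)`, for `i` large, `db k f_i = 0` (the test function `x ↦ φ_i (z - x)` is supported in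
the ball), so `f_i` is holomorphic there (`StCAL`); `f_i → f` in `L²(ball z₀ (3 r))`.  By `StSUP`
applied to `f_i - f_i'` on `ball z r`, `z ∈ ball z₀ r`: uniformly Cauchy on `ball z₀ r`.  The uniform limit is
holomorphic on `ball z₀ r` (`TendstoLocallyUniformlyOn.differentiableOn` is for one variable; in several
variables use: limit is continuous, and separately holomorphic... or simply: the limit `h` satisfies
the mean value property `StSUP`; simplest: local uniform limits of holomorphic functions of several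
variables, prove by the Cauchy estimates that the derivatives are uniformly Cauchy on smaller balls,
`hasFDerivAt_of_tendstoUniformlyOnFilter`), and `f = h` almost everywhere on the ball.
Global: define `h z` as the limit of the averages of `f` over `ball z s`, `s → 0` (or: cover `U` by
countably many such balls; the local functions agree on overlaps because they are continuous and
equal almost everywhere). -/
def StWEY : Prop := ∀ (m : ℕ) (U : Set (Fin m → ℂ)), IsOpen U → ∀ f : (Fin m → ℂ) → ℂ,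
  L2loc U f → (∀ k, WD U k f (fun _ => 0)) →
  ∃ h : (Fin m → ℂ) → ℂ, DifferentiableOn ℂ h U ∧ f =ᵐ[volume.restrict U] h

/-- MODULE PRJ (solution of the `∂̄` problem with estimate).  Inputs: `StBSI`, `StWEY`, `StCAL`,
`StIBP`.
PROOF.  Work in the Hilbert space `H = Lp ℂ 2 μ`, `μ = volume.withDensity (e^{-ψ})`, and `H^m`.
(1) `𝒱 = {(v, a) ∈ H^m × H : CF v, WT v a}` is a closed subspace (each condition is the vanishing of a
continuous linear functional: test functions and `e^{ψ}` times test functions are in `L²`).  By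
`StBSI`, `δ ∑ ‖v_j‖² ≤ ∫ hf (hes ψ) v e^{-ψ} ≤ ‖a‖²` on `𝒱`; hence `𝒜 = {a : ∃ v, (v, a) ∈ 𝒱}` is closed
(if `a_i → a` then `v_i` is Cauchy).
(2) Let `a` be the orthogonal projection of `G` to `𝒜`, `h = G - a`, `h ⟂ 𝒜`.  Let `η` be a test form.
Let `𝒦 = {v ∈ H^m : CF v}`, closed, and `η = η' + η''` with `η' ∈ 𝒦`, `η'' ⟂ 𝒦`.  For a test function `φ`
the form `(db j φ)_j` is in `𝒦` (`StIBP` and symmetry of second derivatives), so
`∑ inn (η''_j) (db j φ) = 0`, that is `WT η'' 0`.  So `WT η' (Tad ψ η)` (`WT η (Tad ψ η)` by `StIBP`), `(η', Tad ψ η) ∈ 𝒱`, and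
`⟪h, Tad ψ η⟫ = 0`.  Take `η_j = star (φ) e^{ψ}` and the other components `0`, `φ` test:
`Tad ψ η = - dz j (star φ) e^{ψ}`, so `0 = ∫ h * star (Tad ψ η) e^{-ψ} = - ∫ h * db j φ`.  Hence `WD h 0`
and `StWEY` gives an entire function equal to `h` almost everywhere (replace).
(3) Orthogonality to holomorphic `h' ∈ L²`: `inn a h' = lim inn a (χ_R h')` and
`inn a (χ_R h') = ∑ inn v_j (db j (χ_R h')) = ∑ inn v_j (h' db j χ_R) → 0` (`|∇χ_R| ≤ C / R`).
(4) `γ` and the inequality from `StBSI` for `(v, a)`. -/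
def StPRJ : Prop := ∀ (m : ℕ) (ψ : (Fin m → ℂ) → ℝ), ContDiff ℝ ∞ ψ → ∀ δ : ℝ, 0 < δ →
  (∀ z, Psd (hes ψ z)) → (∀ z ξ, δ * sq ξ ≤ hf (hes ψ z) ξ) →
  ∀ G : (Fin m → ℂ) → ℂ, L2 Set.univ ψ G →
  ∃ (v : Fin m → (Fin m → ℂ) → ℂ) (γ : Fin m → Fin m → (Fin m → ℂ) → ℂ)
    (h : (Fin m → ℂ) → ℂ),
    (∀ j, L2 Set.univ ψ (v j)) ∧ (∀ k j, L2 Set.univ ψ (γ k j) ∧ WD Set.univ k (v j) (γ k j)) ∧
    Differentiable ℂ h ∧ L2 Set.univ ψ h ∧ WT Set.univ ψ v (fun z => G z - h z) ∧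
    Integrable (fun z => hf (hes ψ z) (fun j => v j z) * Real.exp (-ψ z)) ∧
    ∑ j, ∑ k, nrm Set.univ ψ (γ k j) +
      ∫ z, hf (hes ψ z) (fun j => v j z) * Real.exp (-ψ z) ≤
        nrm Set.univ ψ (fun z => G z - h z) ∧
    ∀ h' : (Fin m → ℂ) → ℂ, Differentiable ℂ h' → L2 Set.univ ψ h' →
      inn Set.univ ψ (fun z => G z - h z) h' = 0

/-- MODULE WKC (weak compactness in `L²_loc`, finitely many sequences at once).
PROOF.  Choose compact sets `K_1 ⊆ K_2 ⊆ ... ⊆ U`, interiors covering `U`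
(`CompactExhaustion` of the subtype, or explicit: closed ball of radius `n` and distance
`≥ 1 / n` to the complement); every compact subset of `U` is in one of them.  On each `K_n` the sequence
is bounded in the separable Hilbert space `L²(K_n)`, so a subsequence converges weakly (Banach-Alaoglu:
`WeakDual` sequential compactness, or elementary: diagonal subsequence such that the inner products with
a countable dense set converge, Riesz representation of the limit functional).  Diagonal sequence over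
`n`; the limits on `K_n` and `K_(n+1)` agree almost everywhere on `K_n`; glue to `w`
(`w = w_n` on `K_n` minus `K_(n-1)`). -/
def StWKC : Prop := ∀ (m p : ℕ) (U : Set (Fin m → ℂ)), IsOpen U →
  ∀ v : ℕ → Fin p → (Fin m → ℂ) → ℂ,
  (∀ i q, AEStronglyMeasurable (v i q) (volume.restrict U)) →
  (∀ K ⊆ U, IsCompact K → ∃ B : ℝ, ∀ᶠ i in atTop, ∀ q,
    IntegrableOn (fun z => ‖v i q z‖ ^ 2) K ∧ ∫ z in K, ‖v i q z‖ ^ 2 ≤ B) →
  ∃ (σ : ℕ → ℕ) (w : Fin p → (Fin m → ℂ) → ℂ), StrictMono σ ∧ (∀ q, L2loc U (w q)) ∧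
    ∀ K ⊆ U, IsCompact K → ∀ φ : (Fin m → ℂ) → ℂ, MemLp φ 2 (volume.restrict K) →
      ∀ q, Tendsto (fun i => ∫ z in K, v (σ i) q z * φ z) atTop (𝓝 (∫ z in K, w q z * φ z))

/-- MODULE LSC (lower semicontinuity of quadratic forms under weak convergence).
PROOF.  With `A_i(x, y) = ∑ A i z j k x_j star y_k`: `0 ≤ ∫_K hf (A i) (v_i - w) =
∫_K hf (A i) (v_i) - 2 re ∫_K A_i(v_i, w) + ∫_K hf (A i) (w)` (the matrices are Hermitian).  Here
`∫_K A_i(v_i, w) → ∫_K B(w, w)`: replace `A i` by `B` (error at most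
`sup_K |A i - B| * ‖v_i‖₂ ‖w‖₂ → 0`), then weak convergence with the `L²` function
`z ↦ B z j k * star (w_k z)`.  Likewise `∫_K hf (A i) w → ∫_K hf B w`.  So
`liminf ∫_K hf (A i) v_i ≥ ∫_K hf B w`. -/
def StLSC : Prop := ∀ (m p : ℕ) (K : Set (Fin m → ℂ)), IsCompact K →
  ∀ (v : ℕ → Fin p → (Fin m → ℂ) → ℂ) (w : Fin p → (Fin m → ℂ) → ℂ)
    (A : ℕ → (Fin m → ℂ) → Matrix (Fin p) (Fin p) ℂ) (B : (Fin m → ℂ) → Matrix (Fin p) (Fin p) ℂ),
  (∀ i, ∀ z ∈ K, Psd (A i z)) → (∀ z ∈ K, Psd (B z)) →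
  (∀ i j k, ContinuousOn (fun z => A i z j k) K) → (∀ j k, ContinuousOn (fun z => B z j k) K) →
  (∀ j k, TendstoUniformlyOn (fun i z => A i z j k) (fun z => B z j k) atTop K) →
  (∀ i q, MemLp (v i q) 2 (volume.restrict K)) → (∀ q, MemLp (w q) 2 (volume.restrict K)) →
  (∃ b : ℝ, ∀ i q, ∫ z in K, ‖v i q z‖ ^ 2 ≤ b) →
  (∀ φ : (Fin m → ℂ) → ℂ, MemLp φ 2 (volume.restrict K) → ∀ q,
    Tendsto (fun i => ∫ z in K, v i q z * φ z) atTop (𝓝 (∫ z in K, w q z * φ z))) →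
  ∀ c : ℝ, (∀ᶠ i in atTop, ∫ z in K, hf (A i z) (fun q => v i q z) ≤ c) →
    ∫ z in K, hf (B z) (fun q => w q z) ≤ c

/-- MODULE MON (a Montel theorem).  Inputs: `StWKC`, `StWEY`, `StSUP`.
PROOF.  `StWKC` with `U = univ`, `p = 1`: subsequence converging weakly in `L²_loc` to `w`.  `WD` passes to
the limit, so `w = h'` almost everywhere with `h'` entire (`StWEY`).  Pointwise: by `StSUP`
`h_i z` and `h' z` are the integrals over `ball z 1` (inside the compact closed ball) divided by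
`π ^ m`, a weakly continuous functional (`φ` = indicator of the ball). -/
def StMON : Prop := ∀ (m : ℕ) (h : ℕ → (Fin m → ℂ) → ℂ), (∀ i, Differentiable ℂ (h i)) →
  (∀ K : Set (Fin m → ℂ), IsCompact K → ∃ B : ℝ, ∀ᶠ i in atTop, ∫ z in K, ‖h i z‖ ^ 2 ≤ B) →
  ∃ (σ : ℕ → ℕ) (h' : (Fin m → ℂ) → ℂ), StrictMono σ ∧ Differentiable ℂ h' ∧
    ∀ z, Tendsto (fun i => h (σ i) z) atTop (𝓝 (h' z))

/-- MODULE VRD (variance inequality, strictly plurisubharmonic weight).  Inputs: `StPRJ`, `StCAL`.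
PROOF.  `v, h` from `StPRJ`, `a = G - h`.  With cutoffs `χ_R` (smooth, compact support, `= 1` on the ball
of radius `R`, `|db j χ_R| ≤ C / R`, `0 ≤ χ_R ≤ 1`), `χ_R G` is a test function after mollification of
nothing: `G` is smooth, so `χ_R G` is a test function and `WT` gives
`inn a (χ_R G) = ∑ inn v_j (χ_R db j G) + ∑ inn v_j (G db j χ_R)`.  The last sum tends to `0` (`v_j, G ∈ L²`).
The first: `|∑ v_j star (db j G)| ≤ κ^{1/2} (hf (hes ψ) v)^{1/2}`: it is the hypothesis for `ξ = v` (take the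
complex conjugate), so it is at most `(∫ κ e^{-ψ})^{1/2} (∫ hf (hes ψ) v e^{-ψ})^{1/2} ≤
(∫ κ e^{-ψ})^{1/2} (nrm a)^{1/2}`.  The left side tends to `inn a G = nrm a` (as `inn a h = 0`).  So
`nrm a ≤ (∫ κ e^{-ψ})^{1/2} (nrm a)^{1/2}`. -/
def StVRD : Prop := ∀ (m : ℕ) (ψ : (Fin m → ℂ) → ℝ), ContDiff ℝ ∞ ψ → ∀ δ : ℝ, 0 < δ →
  (∀ z, Psd (hes ψ z)) → (∀ z ξ, δ * sq ξ ≤ hf (hes ψ z) ξ) →
  ∀ G : (Fin m → ℂ) → ℂ, ContDiff ℝ ∞ G → L2 Set.univ ψ G →
  ∀ κ : (Fin m → ℂ) → ℝ, (∀ z, 0 ≤ κ z) →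
  (∀ z ξ, ‖∑ j, db j G z * star (ξ j)‖ ^ 2 ≤ κ z * hf (hes ψ z) ξ) →
  Integrable (fun z => κ z * Real.exp (-ψ z)) →
  ∃ h : (Fin m → ℂ) → ℂ, Differentiable ℂ h ∧ L2 Set.univ ψ h ∧
    nrm Set.univ ψ (fun z => G z - h z) ≤ ∫ z, κ z * Real.exp (-ψ z)

/-- MODULE VAR (variance inequality, plurisubharmonic weight).  Inputs: `StVRD`, `StMON`, `StCAL`.
PROOF.  Apply `StVRD` to `ψ_i = ψ + δ_i sq z`, `δ_i = 1 / (i + 1)`: `hes ψ_i = hes ψ + δ_i 1`, the
hypotheses hold with the same `κ` (`κ ≥ 0`: take `ξ` arbitrary; if `m = 0` or `hf (hes ψ z) = 0`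
replace `κ` by `max κ 0`, or note that the left side is `0`), so
`∫ |G - h_i|² e^{-ψ_i} ≤ ∫ κ e^{-ψ_i}`, and `∫ κ^+ e^{-ψ_i} ≤ ∫ κ^+ e^{-ψ}`; if `κ z < 0` at some point then
`hf (hes ψ z) ξ = 0` for all `ξ` and one may replace `κ z` by `0` (do it at the beginning when
`κ ≥ 0` fails: the conclusion with `max κ 0` is weaker, so we ASSUME `0 ≤ κ` in the statement).  So
`h_i` is bounded in `L²(K)` for each compact `K`; `StMON`: a subsequence converges pointwise to an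
entire `h`; by Fatou `∫ |G - h|² e^{-ψ} ≤ ∫ κ e^{-ψ}`; `h ∈ L²` as `G` and `G - h` are. -/
def StVAR : Prop := ∀ (m : ℕ) (ψ : (Fin m → ℂ) → ℝ), ContDiff ℝ ∞ ψ →
  (∀ z, Psd (hes ψ z)) →
  ∀ G : (Fin m → ℂ) → ℂ, ContDiff ℝ ∞ G → L2 Set.univ ψ G →
  ∀ κ : (Fin m → ℂ) → ℝ, (∀ z, 0 ≤ κ z) →
  (∀ z ξ, ‖∑ j, db j G z * star (ξ j)‖ ^ 2 ≤ κ z * hf (hes ψ z) ξ) →
  Integrable (fun z => κ z * Real.exp (-ψ z)) →
  ∃ h : (Fin m → ℂ) → ℂ, Differentiable ℂ h ∧ L2 Set.univ ψ h ∧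
    nrm Set.univ ψ (fun z => G z - h z) ≤ ∫ z, κ z * Real.exp (-ψ z)

/-- MODULE AVG (averaging over the circle).  `U` is `univ` or an open set with null complement; we
take a measurable set `U` invariant under the circle.
PROOF.  `h' z = (1 / 2π) ∫_0^{2π} e^{-iaθ} h (scl w (e^{iθ}) z) dθ`.  It is entire (differentiation
under the integral: `h` is `C^1`, or `h` is a locally uniform limit of Riemann sums), and
homogeneous for the circle (translation invariance, `scl w (cc') z = scl w c (scl w c' z)`).  As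
`G z = e^{-iaθ} G (scl w (e^{iθ}) z)`, Jensen gives
`|G z - h' z|² ≤ (1 / 2π) ∫ |G - h|² (scl w (e^{iθ}) z) dθ`; multiply by `e^{-ψ z}`, integrate, Fubini; the
map `scl w (e^{iθ})` preserves volume (diagonal unitary: the determinant has absolute value one), `U` and `ψ`. -/
def StAVG : Prop := ∀ (m : ℕ) (w : Fin m → ℕ) (U : Set (Fin m → ℂ)), MeasurableSet U →
  (∀ (c : ℂ) z, ‖c‖ = 1 → (scl w c z ∈ U ↔ z ∈ U)) →
  ∀ (ψ : (Fin m → ℂ) → ℝ) (G h : (Fin m → ℂ) → ℂ) (a : ℕ), ContinuousOn ψ U →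
  (∀ (c : ℂ), ‖c‖ = 1 → ∀ z ∈ U, ψ (scl w c z) = ψ z ∧ G (scl w c z) = c ^ a * G z) →
  AEStronglyMeasurable G (volume.restrict U) → Differentiable ℂ h →
  L2 U ψ (fun z => G z - h z) →
  ∃ h' : (Fin m → ℂ) → ℂ, Differentiable ℂ h' ∧
    (∀ (c : ℂ) z, ‖c‖ = 1 → h' (scl w c z) = c ^ a * h' z) ∧
    L2 U ψ (fun z => G z - h' z) ∧
    nrm U ψ (fun z => G z - h' z) ≤ nrm U ψ (fun z => G z - h z)

end Pool.Agent.Helper52.KP
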