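import Pool.Agent.Helper52.KP.StN
import Pool.Agent.Helper98.KP.M_CAL
import Pool.Agent.Helper16.KP.M_IBP
import Pool.Agent.Helper27.KP.M_BKN
import Pool.Agent.Helper9.KP.M_MEX
import Pool.Agent.Helper13.KP.M_MO1
import Pool.Agent.Helper72.KP.M_MO2
import Pool.Agent.Helper97.KP.M_DEN
import Pool.Agent.Helper22.KP.M_BSI
import Pool.Agent.Helper95.KP.M_SUP
import Pool.Agent.Helper8.KP.M_WEY
import Pool.Agent.Helper78.KP.M_PRJ
import Pool.Agent.Helper38.KP.M_WKC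
import Pool.Agent.Helper94.KP.M_LSC
import Pool.Agent.Helper2.KP.M_MON
import Pool.Agent.Helper36.KP.M_VRD
import Pool.Agent.Helper10.KP.M_VAR
import Pool.Agent.Helper33.KP.M_AVG
import Pool.Agent.Helper16.KP.M_NUL
import Pool.Agent.Helper8.KP.M_ARE
import Pool.Agent.Helper42.KP.M_LGC
import Pool.Agent.Helper80.KP.M_WPS
import Pool.Agent.Helper95.KP.M_SMV
import Pool.Agent.Helper9.KP.M_TMV
import Pool.Agent.Helper76.KP.M_REG
import Pool.Agent.Helper36.KP.M_LIM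
import Pool.Agent.Helper13.KP.M_RHU
import Pool.Agent.Helper39.KP.M_PIO
import Pool.Agent.Helper31.KP.M_DIV
import Pool.Agent.Helper19.KP.M_STK
import Pool.Agent.Helper99.KP.M_RMX
import Pool.Agent.Helper31.KP.M_DTM
import Pool.Agent.Helper81.KP.M_CMP
import Pool.Agent.Helper22.KP.M_EUL
import Pool.Agent.Helper29.KP.M_SCA
import Pool.Agent.Helper64.KP.M_ILG
import Pool.Agent.Helper10.KP.M_MLV
import Pool.Agent.Helper31.KP.M_VOL
import Pool.Agent.Helper75.KP.M_CSD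
import Pool.Agent.Helper92.KP.M_MOM
import Pool.Agent.Helper76.KP.M_CU1
import Pool.Agent.Helper40.KP.M_CUT
import Pool.Agent.Helper6.KP.M_PAI
import Pool.Agent.Helper81.KP.M_HOR
import Pool.Agent.Helper57.KP.M_GAU
import Pool.Agent.Helper19.KP.M_PLR
import Pool.Agent.Helper19.KP.M_RAD
import Pool.Agent.Helper73.KP.M_LAP
import Pool.Agent.Helper63.KP.M_PEA
import Pool.Agent.Helper13.KP.M_BER
import Pool.Agent.Helper15.KP.M_BLB
import Pool.Agent.Helper2.KP.M_EX2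
import Pool.Agent.Helper32.KP.M_DIF
import Pool.Agent.Helper2.KP.M_VRP
import Pool.Agent.Helper26.KP.M_CVX
import Pool.Agent.Helper7.KP.M_ADP
import Pool.Agent.Helper61.KP.M_DER
import Pool.Agent.Helper37.KP.M_LEV
import Pool.Agent.Helper10.KP.M_UPB
import Pool.Agent.Helper29.KP.M_SLP
import Pool.Agent.Helper58.KP.M_IPP

/-!
# Project KP (MP_26be5b_ag): assembly of the analytic chapters
-/

set_option autoImplicit false

namespace Pool.Agent.Helper52.KP

theorem mCAL : StCAL := Pool.Agent.Helper98.KP.hCAL 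

theorem mIBP : StIBP := Pool.Agent.Helper16.KP.hIBP 

theorem mBKN : StBKN := Pool.Agent.Helper27.KP.hBKN mCAL mIBP

theorem mMEX : StMEX := Pool.Agent.Helper9.KP.hMEX 

theorem mMO1 : StMO1 := Pool.Agent.Helper13.KP.hMO1 

theorem mMO2 : StMO2 := Pool.Agent.Helper72.KP.hMO2 

theorem mDEN : StDEN := Pool.Agent.Helper97.KP.hDEN mCAL mMEX mMO1 mMO2

theorem mBSI : StBSI := Pool.Agent.Helper22.KP.hBSI mBKN mDEN mCAL mIBP

theorem mSUP : StSUP := Pool.Agent.Helper95.KP.hSUP 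

theorem mWEY : StWEY := Pool.Agent.Helper8.KP.hWEY mSUP mCAL mMEX mMO1 mMO2

theorem mPRJ : StPRJ := Pool.Agent.Helper78.KP.hPRJ mBSI mWEY mCAL mIBP

theorem mWKC : StWKC := Pool.Agent.Helper38.KP.hWKC 

theorem mLSC : StLSC := Pool.Agent.Helper94.KP.hLSC 

theorem mMON : StMON := Pool.Agent.Helper2.KP.hMON mWKC mWEY mSUP

theorem mVRD : StVRD := Pool.Agent.Helper36.KP.hVRD mPRJ mCAL

theorem mVAR : StVAR := Pool.Agent.Helper10.KP.hVAR mVRD mMON mCAL

theorem mAVG : StAVG := Pool.Agent.Helper33.KP.hAVG 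

theorem mNUL : StNUL := Pool.Agent.Helper16.KP.hNUL 

theorem mARE : StARE := Pool.Agent.Helper8.KP.hARE 

theorem mLGC : StLGC := Pool.Agent.Helper42.KP.hLGC 

theorem mWPS : StWPS := Pool.Agent.Helper80.KP.hWPS mLGC

theorem mSMV : StSMV := Pool.Agent.Helper95.KP.hSMV 

theorem mTMV : StTMV := Pool.Agent.Helper9.KP.hTMV mSMV mCAL

theorem mREG : StREG := Pool.Agent.Helper76.KP.hREG mWPS mTMV mMEX mNUL mCAL

theorem mLIM : StLIM := Pool.Agent.Helper36.KP.hLIM mWKC mLSC mMON mSUP mCAL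

theorem mRHU : StRHU := Pool.Agent.Helper13.KP.hRHU mREG mPRJ mLIM mNUL

theorem mPIO : StPIO := Pool.Agent.Helper39.KP.hPIO mCAL

theorem mDIV : StDIV := Pool.Agent.Helper31.KP.DIV.hDIV mPIO mIBP mCAL

theorem mSTK : StSTK := Pool.Agent.Helper19.KP.hSTK mDIV

theorem mRMX : StRMX := Pool.Agent.Helper99.KP.hRMX mCAL

theorem mDTM : StDTM := Pool.Agent.Helper31.KP.hDTM 

theorem mCMP : StCMP := Pool.Agent.Helper81.KP.hCMP mSTK mRMX mDTM mCAL

theorem mEUL : StEUL := Pool.Agent.Helper22.KP.hEUL mCAL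

theorem mSCA : StSCA := Pool.Agent.Helper29.KP.hSCA 

theorem mILG : StILG := Pool.Agent.Helper64.KP.hILG 

theorem mMLV : StMLV := Pool.Agent.Helper10.KP.hMLV mARE mILG mCAL

theorem mVOL : StVOL := Pool.Agent.Helper31.KP.hVOL mCMP mEUL mSCA mMLV

theorem mCSD : StCSD := Pool.Agent.Helper75.KP.hCSD mEUL

theorem mMOM : StMOM := Pool.Agent.Helper92.KP.hMOM mSCA mVOL

theorem mCU1 : StCU1 := Pool.Agent.Helper76.KP.hCU1 mDIV mEUL mCSD mMOM mCAL

theorem mCUT : StCUT := Pool.Agent.Helper40.KP.CUT.hCUT mCAL mCSD mMOM mCU1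

theorem mPAI : StPAI := Pool.Agent.Helper6.KP.hPAI mCUT mMOM mCAL

theorem mHOR : StHOR := Pool.Agent.Helper81.KP.hHOR mRHU mPAI mMOM mCAL

theorem mGAU : StGAU := Pool.Agent.Helper57.KP.hGAU 

theorem mPLR : StPLR := Pool.Agent.Helper19.KP.hPLR 

theorem mRAD : StRAD := Pool.Agent.Helper19.KP.hRAD mPLR

theorem mLAP : StLAP := Pool.Agent.Helper73.KP.hLAP mGAU

theorem mPEA : StPEA := Pool.Agent.Helper63.KP.hPEA mLAP mHOR mSCA mVOL mMOM mSUP mCAL

theorem mBER : StBER := Pool.Agent.Helper13.KP.hBER mPEA mSCA mVOL mMOM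

theorem mBLB : StBLB := Pool.Agent.Helper15.KP.hBLB mMOM

theorem mEX2 : StEX2 := Pool.Agent.Helper2.KP.hEX2 

theorem mDIF : StDIF := Pool.Agent.Helper32.KP.hDIF mMOM

theorem mVRP : StVRP := Pool.Agent.Helper2.KP.hVRP mVAR mAVG mEX2 mDIF mNUL mCAL

theorem mCVX : StCVX := Pool.Agent.Helper26.KP.hCVX mDIF mVRP

theorem mADP : StADP := Pool.Agent.Helper7.KP.hADP mMOM

theorem mDER : StDER := Pool.Agent.Helper61.KP.hDER mBER mBLB mRAD mSCA mVOL mDIF

theorem mLEV : StLEV := Pool.Agent.Helper37.KP.hLEV mDIF mSCA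

theorem mUPB : StUPB := Pool.Agent.Helper10.KP.hUPB mDIF

theorem mSLP : StSLP := Pool.Agent.Helper29.KP.hSLP mCVX mADP mDER mLEV mUPB mDIF mNUL

theorem mIPP : StIPP := Pool.Agent.Helper58.KP.hIPP mMOM

end Pool.Agent.Helper52.KP
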