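import Pool.Agent.Helper52.KP.StF

/-!
# Project KP (MP_26be5b_ag): assembly of `StCONE`
-/

set_option autoImplicit false

namespace Pool.Agent.Helper52.KP

open Pool.Agent.Helper67.NO MeasureTheory Filter
open scoped ContDiff ComplexOrder Topology

universe u

theorem asmCONE (hCHX : StCHX.{u}) (hHDX : StHDX.{u}) (h1 : StFF1.{u}) (h2 : StFF2.{u})
    (h3 : StFF3.{u}) (h4 : StFF4.{u}) (h5 : StFF5.{u}) (h6 : StFF6.{u}) : StCONE.{u} := by
  intro g _ _ _ _ x₀ hx hn ρ hρ
  obtain ⟨C⟩ := hCHX g x₀ hx hn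
  obtain ⟨y, rd, hD⟩ := hHDX g x₀ hx hn C
  obtain ⟨K, hK⟩ : ∃ K : Cone, K = mkCone C ρ y rd := ⟨_, rfl⟩
  obtain ⟨a1, a2, a3, a4, a5⟩ := h1 g x₀ hx hn C ρ y rd K hK
  obtain ⟨b1, b2, b3, b4⟩ := h2 g x₀ hx hn C ρ y rd hD K hK
  obtain ⟨c1, c2, c3, c4, c5, c6, c7, c8, c9, c10, c11⟩ := h3 g x₀ hx hn C ρ y rd hD K hK
  obtain ⟨d1, d2, d3, d4⟩ := h4 g x₀ hx hn ρ hρ C y rd hD K hK
  have e1 := h5 g x₀ hx hn ρ hρ C y rd hD K hK
  obtain ⟨f1, f2, f3, f4⟩ := h6 g x₀ hx hn ρ hρ C y rd K hK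
  refine ⟨K, ?_, by rw [hK]; rfl, b4⟩
  have hgood : Good K :=
    { hm := by rw [hK]; exact C.hm
      hn := by rw [hK]; exact C.hn
      w01 := by subst hK; exact C.w01
      deg := by subst hK; exact C.deg
      Δ0 := by subst hK; exact C.Δ0
      J0 := by subst hK; exact C.J0
      Jhom := by subst hK; exact C.Jhom
      sclU := a1
      one := a2
      mul := a3
      hom := a4
      fd := b1
      cst := b2
      XR := c1
      Xpos := c2
      bdd := c3
      extd := d2
      jac := e1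
      usm := f1
      uhes := f2
      ubd := f3
      uhom := f4
      d1 := by rw [hK]; exact C.d1
      p1R := c4
      p10 := c5
      crd := c6
      dq0 := by
        rw [hK]
        show 0 < C.m
        have := C.hm; have := C.hn; omega
      QR := c7
      Q0 := c8
      cpt := d4
      YR := c9
      Ybd := c10
      rd0 := by rw [hK]; exact hD.rd0
      Ycard := c11
      dim := b3
      extl := d1
      grd := d3 }
  exact hgood

end Pool.Agent.Helper52.KP
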