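import Pool.Agent.Helper52.KP.FDefs

/-!
# Project KP (MP_26be5b_ag): definitions (not used in the final statement)

Complex analysis on `Fin m → ℂ` with Lebesgue measure `volume`, and the structure `Cone` with its
properties `Good` (everything that the analysis and the algebra use about the orbit).
-/

set_option autoImplicit false

namespace Pool.Agent.Helper52.KP

open MeasureTheory
open scoped ContDiff ComplexOrder Topology

section Calculus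

variable {m : ℕ}

/-- derivative with respect to `z_j` of a complex valued function -/
noncomputable def dz (j : Fin m) (f : (Fin m → ℂ) → ℂ) (z : Fin m → ℂ) : ℂ :=
  (fderiv ℝ f z (Pi.single j 1) - Complex.I * fderiv ℝ f z (Pi.single j Complex.I)) / 2

/-- derivative with respect to the conjugate of `z_j` -/
noncomputable def db (j : Fin m) (f : (Fin m → ℂ) → ℂ) (z : Fin m → ℂ) : ℂ :=
  (fderiv ℝ f z (Pi.single j 1) + Complex.I * fderiv ℝ f z (Pi.single j Complex.I)) / 2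

/-- a real function as a complex function -/
def cf (ψ : (Fin m → ℂ) → ℝ) : (Fin m → ℂ) → ℂ := fun z => (ψ z : ℂ)

/-- the complex Hessian (Levi form) `∂²ψ / ∂z_j ∂z̄_k` -/
noncomputable def hes (ψ : (Fin m → ℂ) → ℝ) (z : Fin m → ℂ) : Matrix (Fin m) (Fin m) ℂ :=
  Matrix.of fun j k => dz j (db k (cf ψ)) z

/-- the Hermitian form of a matrix: `∑ A j k ξ_j conj ξ_k` (real part) -/
noncomputable def hf (A : Matrix (Fin m) (Fin m) ℂ) (ξ : Fin m → ℂ) : ℝ :=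
  (∑ j, ∑ k, A j k * ξ j * star (ξ k)).re

/-- squared Euclidean norm -/
noncomputable def sq (ξ : Fin m → ℂ) : ℝ := ∑ j, ‖ξ j‖ ^ 2

/-- `A` is Hermitian and positive semidefinite, in the convention of `hf` -/
def Psd (A : Matrix (Fin m) (Fin m) ℂ) : Prop := A.IsHermitian ∧ ∀ ξ, 0 ≤ hf A ξ

/-- `A` is Hermitian and positive definite, in the convention of `hf` -/
def Pd (A : Matrix (Fin m) (Fin m) ℂ) : Prop := A.IsHermitian ∧ ∀ ξ, ξ ≠ 0 → 0 < hf A ξ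

/-- test functions with support in `U` -/
def Tst (U : Set (Fin m → ℂ)) (φ : (Fin m → ℂ) → ℂ) : Prop :=
  ContDiff ℝ ∞ φ ∧ HasCompactSupport φ ∧ tsupport φ ⊆ U

/-- `T* φ = - ∑ (∂_j φ_j - ψ_j φ_j)`, the adjoint of `∂̄` for the weight `e^{-ψ}` -/
noncomputable def Tad (ψ : (Fin m → ℂ) → ℝ) (φ : Fin m → (Fin m → ℂ) → ℂ) (z : Fin m → ℂ) : ℂ :=
  - ∑ j, (dz j (φ j) z - dz j (cf ψ) z * φ j z)

/-- square integrable on `U` for the weight `e^{-ψ}` -/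
def L2 (U : Set (Fin m → ℂ)) (ψ : (Fin m → ℂ) → ℝ) (f : (Fin m → ℂ) → ℂ) : Prop :=
  AEStronglyMeasurable f (volume.restrict U) ∧
    IntegrableOn (fun z => ‖f z‖ ^ 2 * Real.exp (-ψ z)) U

/-- squared norm on `U` for the weight `e^{-ψ}` -/
noncomputable def nrm (U : Set (Fin m → ℂ)) (ψ : (Fin m → ℂ) → ℝ) (f : (Fin m → ℂ) → ℂ) : ℝ :=
  ∫ z in U, ‖f z‖ ^ 2 * Real.exp (-ψ z)

/-- inner product on `U` for the weight `e^{-ψ}`, linear in the first function -/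
noncomputable def inn (U : Set (Fin m → ℂ)) (ψ : (Fin m → ℂ) → ℝ) (f g : (Fin m → ℂ) → ℂ) : ℂ :=
  ∫ z in U, f z * star (g z) * (Real.exp (-ψ z) : ℂ)

/-- locally square integrable on the open set `U` -/
def L2loc (U : Set (Fin m → ℂ)) (f : (Fin m → ℂ) → ℂ) : Prop :=
  AEStronglyMeasurable f (volume.restrict U) ∧
    ∀ K ⊆ U, IsCompact K → IntegrableOn (fun z => ‖f z‖ ^ 2) K

/-- weakly on `U`: `T* v = a` for the weight `e^{-ψ}` -/
def WT (U : Set (Fin m → ℂ)) (ψ : (Fin m → ℂ) → ℝ) (v : Fin m → (Fin m → ℂ) → ℂ)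
    (a : (Fin m → ℂ) → ℂ) : Prop :=
  ∀ φ, Tst U φ → inn U ψ a φ = ∑ j, inn U ψ (v j) (db j φ)

/-- weakly on `U`: `∂̄_k u = w` -/
def WD (U : Set (Fin m → ℂ)) (k : Fin m) (u w : (Fin m → ℂ) → ℂ) : Prop :=
  ∀ φ, Tst U φ → ∫ z in U, u z * db k φ z = - ∫ z in U, w z * φ z

/-- weakly `∂̄ v = 0` for a form `v` on `ℂ^m` -/
def CF (v : Fin m → (Fin m → ℂ) → ℂ) : Prop :=
  ∀ φ, Tst Set.univ φ → ∀ j k, ∫ z, v k z * db j φ z = ∫ z, v j z * db k φ z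

/-- mollifiers, invariant under the torus -/
structure Mol (φ : ℕ → (Fin m → ℂ) → ℝ) : Prop where
  smooth : ∀ i, ContDiff ℝ ∞ (φ i)
  nonneg : ∀ i z, 0 ≤ φ i z
  supp : ∀ (i : ℕ) (z : Fin m → ℂ), 1 / ((i : ℝ) + 1) < ‖z‖ → φ i z = 0
  one : ∀ i, ∫ z, φ i z = 1
  inv : ∀ i z (c : Fin m → ℂ), (∀ j, ‖c j‖ = 1) → φ i (fun j => c j * z j) = φ i z

/-- convolution with a mollifier -/
noncomputable def cv (φ : (Fin m → ℂ) → ℝ) (f : (Fin m → ℂ) → ℂ) (z : Fin m → ℂ) : ℂ :=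
  ∫ x, (φ (z - x) : ℂ) * f x

/-- the action of `c` on the chart: `z_j ↦ c^(w_j) z_j` -/
def scl (w : Fin m → ℕ) (c : ℂ) (z : Fin m → ℂ) : Fin m → ℂ := fun j => c ^ w j * z j

/-- Jacobian determinant of `m` polynomials in `m` variables -/
noncomputable def jac (f : Fin m → MvPolynomial (Fin m) ℂ) : MvPolynomial (Fin m) ℂ :=
  (Matrix.of fun i j => MvPolynomial.pderiv j (f i)).det

end Calculus

/-- The orbit in a chart: data. -/
structure Cone where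
  /-- dimension of the orbit -/
  m : ℕ
  /-- half of the dimension -/
  n : ℕ
  /-- weights of the coordinates -/
  w : Fin m → ℕ
  /-- degree of `J` -/
  jd : ℕ
  /-- degree of `p₁` -/
  d₁ : ℕ
  /-- degree of the polynomials `Q i` -/
  dq : ℕ
  /-- degree of the projection `Y` -/
  rd : ℕ
  /-- number of polynomials `X` -/
  nx : ℕ
  /-- number of polynomials `Q` -/
  nq : ℕ
  /-- `{Δ ≠ 0}` is the domain of the chart -/
  Δ : MvPolynomial (Fin m) ℂ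
  /-- the top power of the symplectic form is `J dz` -/
  J : MvPolynomial (Fin m) ℂ
  /-- the image of the chart is `{p₁ ≠ 0}` -/
  p₁ : MvPolynomial (Fin m) ℂ
  /-- the linear functions on `g` in the chart -/
  X : Fin nx → MvPolynomial (Fin m) ℂ
  /-- functions which vanish at the boundary of the orbit -/
  Q : Fin nq → MvPolynomial (Fin m) ℂ
  /-- a finite projection -/
  Y : Fin m → MvPolynomial (Fin m) ℂ
  /-- the homogeneous regular functions on the orbit in the chart -/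
  R : ℕ → Submodule ℂ (MvPolynomial (Fin m) ℂ)
  /-- the potential of the Kaehler-Einstein cone metric -/
  u : (Fin m → ℂ) → ℝ

/-- the value of a polynomial -/
noncomputable abbrev ev {m : ℕ} (P : MvPolynomial (Fin m) ℂ) (z : Fin m → ℂ) : ℂ :=
  MvPolynomial.eval z P

/-- the domain of the chart -/
def Cone.U (C : Cone) : Set (Fin C.m → ℂ) := {z | ev C.Δ z ≠ 0}

/-- the norm on the orbit -/
noncomputable def Cone.sz (C : Cone) (z : Fin C.m → ℂ) : ℝ := ∑ i, ‖ev (C.X i) z‖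

/-- The facts about the orbit which are used. -/
structure Good (C : Cone) : Prop where
  hm : C.m = 2 * C.n
  hn : 0 < C.n
  w01 : ∀ j, C.w j = 0 ∨ C.w j = 1
  deg : C.jd + ∑ j, C.w j = C.n
  Δ0 : C.Δ ≠ 0
  J0 : ∀ z ∈ C.U, ev C.J z ≠ 0
  Jhom : ∀ (c : ℂ) z, ev C.J (scl C.w c z) = c ^ C.jd * ev C.J z
  sclU : ∀ (c : ℂ), c ≠ 0 → ∀ z ∈ C.U, scl C.w c z ∈ C.U
  one : 1 ∈ C.R 0
  mul : ∀ k k' f f', f ∈ C.R k → f' ∈ C.R k' → f * f' ∈ C.R (k + k')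
  hom : ∀ k, ∀ f ∈ C.R k, ∀ (c : ℂ) z, ev f (scl C.w c z) = c ^ k * ev f z
  fd : ∀ k, FiniteDimensional ℂ (C.R k)
  /-- functions of degree zero are constant -/
  cst : ∀ f ∈ C.R 0, ∃ c : ℂ, f = MvPolynomial.C c
  XR : ∀ i, C.X i ∈ C.R 1
  Xpos : ∀ z ∈ C.U, 0 < C.sz z
  bdd : ∀ k, ∀ f ∈ C.R k, ∃ B : ℝ, ∀ z, ‖ev f z‖ ≤ B * C.sz z ^ k
  /-- `h / J` extends to the orbit if `h` is entire, square integrable and homogeneous for `|c| = 1` -/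
  extd : ∀ (k : ℕ) (h : (Fin C.m → ℂ) → ℂ), Differentiable ℂ h →
    (∀ (c : ℂ) z, ‖c‖ = 1 → h (scl C.w c z) = c ^ (k + C.jd) * h z) →
    (∃ b : ℝ, Integrable fun z => ‖h z‖ ^ 2 * Real.exp (-(b * C.sz z))) →
    ∃ f ∈ C.R k, ∀ z, h z = ev f z * ev C.J z
  /-- Jacobians of functions on the orbit with respect to the top power of the symplectic form -/
  jac : ∀ (k : Fin C.m → ℕ) (f : Fin C.m → MvPolynomial (Fin C.m) ℂ), (∀ i, f i ∈ C.R (k i)) →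
    (∃ s ∈ C.R (∑ i, k i - C.n), jac f = s * C.J) ∧ (∑ i, k i < C.n → jac f = 0)
  /-- the potential is smooth -/
  usm : ContDiffOn ℝ ∞ C.u C.U
  /-- its complex Hessian is positive definite and has determinant `|J|²` -/
  uhes : ∀ z ∈ C.U, Pd (hes C.u z) ∧ (hes C.u z).det = ((‖ev C.J z‖ ^ 2 : ℝ) : ℂ)
  /-- bounds -/
  ubd : ∃ a b : ℝ, 0 < a ∧ ∀ z ∈ C.U, a * C.sz z ≤ C.u z ∧ C.u z ≤ b * C.sz z
  /-- homogeneity -/
  uhom : ∀ z ∈ C.U, ∀ c : ℂ, c ≠ 0 → C.u (scl C.w c z) = ‖c‖ * C.u z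
  d1 : 0 < C.d₁
  p1R : C.p₁ ∈ C.R C.d₁
  p10 : ∀ z ∈ C.U, ev C.p₁ z ≠ 0
  /-- the coordinates are quotients of functions on the orbit by powers of `p₁` -/
  crd : ∀ j, ∃ a : ℕ, MvPolynomial.X j * C.p₁ ^ a ∈ C.R (a * C.d₁ + C.w j)
  dq0 : 0 < C.dq
  QR : ∀ i, C.Q i ∈ C.R C.dq
  Q0 : ∀ z ∈ C.U, ∃ i, ev (C.Q i) z ≠ 0
  /-- compactness -/
  cpt : ∀ r δ : ℝ, 0 < δ → IsCompact
    {z | z ∈ C.U ∧ C.sz z ≤ r ∧ δ ≤ ‖ev C.p₁ z‖ ∧ δ ≤ ∑ i, ‖ev (C.Q i) z‖}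
  YR : ∀ i, C.Y i ∈ C.R 1
  Ybd : ∃ a : ℝ, 0 < a ∧ ∀ z, a * C.sz z ≤ ∑ i, ‖ev (C.Y i) z‖
  rd0 : 0 < C.rd
  Ycard : ∀ᵐ v : Fin C.m → ℂ, {z | z ∈ C.U ∧ ∀ i, ev (C.Y i) z = v i}.ncard = C.rd
  dim : Filter.Tendsto (fun k : ℕ => (Module.finrank ℂ (C.R k) : ℝ) / (k : ℝ) ^ (C.m - 1))
    Filter.atTop (𝓝 ((C.rd : ℝ) / (C.m - 1).factorial))
  /-- local form of `extd`: holomorphic on the chart, square integrable near the compact subsets of
  the orbit -/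
  extl : ∀ (k : ℕ) (h : (Fin C.m → ℂ) → ℂ), DifferentiableOn ℂ h C.U →
    (∀ (c : ℂ), ‖c‖ = 1 → ∀ z ∈ C.U, h (scl C.w c z) = c ^ (k + C.jd) * h z) →
    (∀ r δ : ℝ, 0 < δ → IntegrableOn (fun z => ‖h z‖ ^ 2)
      {z | z ∈ C.U ∧ C.sz z ≤ r ∧ δ ≤ ∑ i, ‖ev (C.Q i) z‖}) →
    ∃ f ∈ C.R k, ∀ z ∈ C.U, h z = ev f z * ev C.J z
  /-- bounds for the derivatives of functions on the orbit on compact subsets of the orbit -/
  grd : ∀ k, ∀ f ∈ C.R k, ∀ r δ : ℝ, 0 < δ → ∃ B : ℝ, ∀ z ∈ C.U, C.sz z ≤ r →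
    δ ≤ ∑ i, ‖ev (C.Q i) z‖ → ∀ ξ : Fin C.m → ℂ,
    ‖∑ j, ev (MvPolynomial.pderiv j f) z * ξ j‖ ^ 2 ≤ B * hf (hes C.u z) ξ

end Pool.Agent.Helper52.KP
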