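import Pool.Agent.Helper52.KP.Itf

/-!
# Project KP (MP_26be5b_ag): definitions for chapters G and H (the orbit)
-/

set_option autoImplicit false

namespace Pool.Agent.Helper52.KP

open Pool.Agent.Helper67.NO MeasureTheory
open scoped ContDiff ComplexOrder

universe u

variable {g : Type u} [LieRing g] [LieAlgebra ℂ g] [FiniteDimensional ℂ g]

/-- extension by zero of a function on the orbit -/
noncomputable def ext {x₀ : g} (f : OO x₀ → ℂ) (x : g) : ℂ :=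
  open Classical in if h : Orb x₀ x then f ⟨x, h⟩ else 0

/-- holomorphic functions on the orbit, homogeneous of degree `m` -/
def Hol (x₀ : g) (m : ℕ) : Submodule ℂ (OO x₀ → ℂ) where
  carrier := {f | (∀ (x : OO x₀) (k : ℕ) (X : Fin k → g),
      Differentiable ℂ (fun w : Fin k → ℂ => f ⟨chart x.1 X w, Orb.step _ _ x.2⟩)) ∧
    ∀ (x y : OO x₀) (c : ℂ), c ≠ 0 → y.1 = c • x.1 → f y = c ^ m * f x}
  add_mem' := by
    rintro f f' ⟨h1, h2⟩ ⟨h1', h2'⟩
    refine ⟨fun x k X => (h1 x k X).add (h1' x k X), fun x y c hc hy => ?_⟩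
    simp only [Pi.add_apply, h2 x y c hc hy, h2' x y c hc hy]; ring
  zero_mem' := ⟨fun x k X => differentiable_const 0, fun x y c _ _ => by simp⟩
  smul_mem' := by
    rintro a f ⟨h1, h2⟩
    refine ⟨fun x k X => (h1 x k X).const_smul a, fun x y c hc hy => ?_⟩
    simp only [Pi.smul_apply, smul_eq_mul, h2 x y c hc hy]; ring

/-- coordinates in the basis of `g` -/
noncomputable def co (x : g) : Fin (Module.finrank ℂ g) → ℂ :=
  fun i => (Module.finBasis ℂ g).repr x i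

/-- a map to `g` is holomorphic on `V` -/
def HolMap {k : ℕ} (V : Set (Fin k → ℂ)) (Ψ : (Fin k → ℂ) → g) : Prop :=
  DifferentiableOn ℂ (fun z => co (Ψ z)) V

/-- rank of `ad x` -/
noncomputable def rk (x : g) : ℕ :=
  Module.finrank ℂ (LinearMap.range (LieAlgebra.ad ℂ g x : g →ₗ[ℂ] g))

/-- `[X_i, x]` is a basis of `[g, x]` -/
structure Frm (x : g) {k : ℕ} (X : Fin k → g) : Prop where
  li : LinearIndependent ℂ (fun i => ⁅X i, x⁆)
  span : Submodule.span ℂ (Set.range fun i => ⁅X i, x⁆) =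
    LinearMap.range (LieAlgebra.ad ℂ g x : g →ₗ[ℂ] g)

/-- The chart of the orbit `O` of `x₀` and its properties.  `Φ : ℂ^m → g` is a polynomial map,
homogeneous for the action `scl`, injective on `U = {Δ ≠ 0}`, which is mapped to `O`; the image of
`U` is `{p₁ ≠ 0}`. -/
structure Ch (x₀ : g) where
  /-- dimension of the orbit -/
  m : ℕ
  /-- weights of the coordinates (`0` or `1`) -/
  w : Fin m → ℕ
  /-- the chart -/
  Φ : (Fin m → ℂ) → g
  /-- the polynomial `Δ` -/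
  Δ : MvPolynomial (Fin m) ℂ
  /-- the Pfaffian -/
  J : MvPolynomial (Fin m) ℂ
  /-- degree of `J` -/
  jd : ℕ
  /-- degree of `p₁` -/
  d₁ : ℕ
  /-- the function whose zero set is the complement of the image of the chart -/
  p₁ : OO x₀ → ℂ
  hm : m = 2 * hdim x₀
  hrk : m = rk x₀
  hn : 0 < hdim x₀
  w01 : ∀ j, w j = 0 ∨ w j = 1
  deg : jd + ∑ j, w j = hdim x₀
  poly : ∀ i, ∃ P : MvPolynomial (Fin m) ℂ, ∀ z, co (Φ z) i = MvPolynomial.eval z P
  hom : ∀ (c : ℂ) z, Φ (scl w c z) = c • Φ z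
  Jhom : ∀ (c : ℂ) z, MvPolynomial.eval (scl w c z) J = c ^ jd * MvPolynomial.eval z J
  Δ0 : Δ ≠ 0
  orb : ∀ z, MvPolynomial.eval z Δ ≠ 0 → Orb x₀ (Φ z)
  sclU : ∀ (c : ℂ) z, c ≠ 0 → MvPolynomial.eval z Δ ≠ 0 → MvPolynomial.eval (scl w c z) Δ ≠ 0
  J0 : ∀ z, MvPolynomial.eval z Δ ≠ 0 → MvPolynomial.eval z J ≠ 0
  inj : ∀ z z', MvPolynomial.eval z Δ ≠ 0 → MvPolynomial.eval z' Δ ≠ 0 → Φ z = Φ z' → z = z'
  /-- the Kirillov-Kostant-Souriau form in the chart has determinant `J²` up to a unit -/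
  kks : ∀ z, MvPolynomial.eval z Δ ≠ 0 → ∀ Z : Fin m → g,
    (∀ i, co ⁅Z i, Φ z⁆ = fderiv ℂ (fun z => co (Φ z)) z (Pi.single i 1)) →
    ‖(Matrix.of fun i j : Fin m => killingForm ℂ g (Φ z) ⁅Z i, Z j⁆).det‖ =
      ‖MvPolynomial.eval z J‖ ^ 2
  /-- the derivatives of `Φ` span the tangent space -/
  imm : ∀ z, MvPolynomial.eval z Δ ≠ 0 → LinearIndependent ℂ
    (fun i : Fin m => fderiv ℂ (fun z => co (Φ z)) z (Pi.single i 1))
  d1 : 0 < d₁
  p1mem : p₁ ∈ Hol x₀ d₁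
  p1 : ∀ x : OO x₀, p₁ x ≠ 0 ↔ ∃ z, MvPolynomial.eval z Δ ≠ 0 ∧ Φ z = x.1
  /-- the coordinates are quotients of holomorphic functions on the orbit by powers of `p₁` -/
  crd : ∀ j, ∃ a : ℕ, ∃ f ∈ Hol x₀ (a * d₁ + w j), ∀ z, MvPolynomial.eval z Δ ≠ 0 →
    ext f (Φ z) = z j * ext p₁ (Φ z) ^ a

end Pool.Agent.Helper52.KP
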