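import Mathlib
import Pool.Agent.Helper67.NO.FDefs

/-!
# Project KP (MP_26be5b_ag): definitions of the final statement

`g` is a finite-dimensional complex Lie algebra, `x₀` a nilpotent element, `O` its adjoint orbit.
-/

set_option autoImplicit false

namespace Pool.Agent.Helper52.KP

open Pool.Agent.Helper67.NO
open scoped LaurentPolynomial

universe u

variable {g : Type u} [LieRing g] [LieAlgebra ℂ g] [FiniteDimensional ℂ g]

/-- the adjoint orbit `O` of `x₀`, as a type -/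
def OO (x₀ : g) : Type u := {x : g // Orb x₀ x}

/-- the value of a polynomial in the coordinates (in a basis of `g`) at `x : g` -/
noncomputable def pev (p : MvPolynomial (Fin (Module.finrank ℂ g)) ℂ) (x : g) : ℂ :=
  MvPolynomial.eval (fun i => (Module.finBasis ℂ g).repr x i) p

/-- half the (complex) dimension of the orbit -/
noncomputable def hdim (x₀ : g) : ℕ :=
  Module.finrank ℂ (LinearMap.range (LieAlgebra.ad ℂ g x₀ : g →ₗ[ℂ] g)) / 2

/-- the regular functions on the quasi-affine variety `O` (locally quotients of polynomials) which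
are homogeneous of degree `m` -/
def Reg (x₀ : g) (m : ℕ) : Submodule ℂ (OO x₀ → ℂ) where
  carrier := {f | (∀ x : OO x₀, ∃ p q : MvPolynomial (Fin (Module.finrank ℂ g)) ℂ,
      pev q x.1 ≠ 0 ∧ ∀ y : OO x₀, pev q y.1 * f y = pev p y.1) ∧
    ∀ (x y : OO x₀) (c : ℂ), c ≠ 0 → y.1 = c • x.1 → f y = c ^ m * f x}
  add_mem' := by
    rintro f f' ⟨h1, h2⟩ ⟨h1', h2'⟩
    refine ⟨fun x => ?_, fun x y c hc hy => ?_⟩
    · obtain ⟨p, q, hq, h⟩ := h1 x
      obtain ⟨p', q', hq', h'⟩ := h1' x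
      refine ⟨q' * p + q * p', q * q', ?_, fun y => ?_⟩
      · simp only [pev, map_mul] at hq hq' ⊢
        exact mul_ne_zero hq hq'
      · have e1 := h y
        have e2 := h' y
        simp only [pev, map_mul, map_add, Pi.add_apply] at e1 e2 ⊢
        rw [← e1, ← e2]; ring
    · simp only [Pi.add_apply, h2 x y c hc hy, h2' x y c hc hy]; ring
  zero_mem' := ⟨fun x => ⟨0, 1, by simp [pev], fun y => by simp [pev]⟩, fun x y c _ _ => by simp⟩
  smul_mem' := by
    rintro a f ⟨h1, h2⟩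
    refine ⟨fun x => ?_, fun x y c hc hy => ?_⟩
    · obtain ⟨p, q, hq, h⟩ := h1 x
      refine ⟨MvPolynomial.C a * p, q, hq, fun y => ?_⟩
      have e1 := h y
      simp only [pev, map_mul, MvPolynomial.eval_C, Pi.smul_apply, smul_eq_mul] at e1 ⊢
      rw [← e1]; ring
    · simp only [Pi.smul_apply, smul_eq_mul, h2 x y c hc hy]; ring

/-- The Rees algebra of a filtration `F k l` (`k`: degree, `l`: filtration index): the algebra of
Laurent polynomials in the variable `T` generated by all `f * T ^ (- l)`, `f ∈ F k l`. -/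
noncomputable def rees {x₀ : g} (F : ℕ → ℤ → Submodule ℂ (OO x₀ → ℂ)) :
    Subalgebra ℂ ((OO x₀ → ℂ)[T;T⁻¹]) :=
  Algebra.adjoin ℂ {b | ∃ (k : ℕ) (l : ℤ) (f : OO x₀ → ℂ), f ∈ F k l ∧
    b = LaurentPolynomial.C f * LaurentPolynomial.T (-l)}

/-- A normal test configuration of exponent `r` for `(X, - K_X)`, `X = Proj (⊕ Reg x₀ m)`: here
`- K_X = n L` with `n = hdim x₀`, `H⁰(X, m L) = Reg x₀ m`, and the test configuration is `Proj` of
the Rees algebra of the filtration `F` of the section ring of `- r K_X`. -/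
structure TestConf (x₀ : g) (r : ℕ) (F : ℕ → ℤ → Submodule ℂ (OO x₀ → ℂ)) : Prop where
  /-- `F k l` consists of sections of `- k r K_X` -/
  le : ∀ k l, F k l ≤ Reg x₀ (hdim x₀ * r * k)
  /-- decreasing -/
  anti : ∀ k l, F k (l + 1) ≤ F k l
  /-- multiplicative -/
  mul : ∀ k l k' l' f f', f ∈ F k l → f' ∈ F k' l' → f * f' ∈ F (k + k') (l + l')
  /-- exhaustive -/
  exh : ∀ k, ∃ l, F k l = Reg x₀ (hdim x₀ * r * k)
  /-- separated -/
  sep : ∀ k, ∃ l, F k l = ⊥
  /-- in degree `0` the Rees algebra is the polynomial ring in `T` -/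
  zero : (∀ l : ℤ, l ≤ 0 → F 0 l = Reg x₀ 0) ∧ ∀ l : ℤ, 0 < l → F 0 l = ⊥
  /-- the Rees algebra is a finitely generated algebra -/
  fg : (rees F).FG
  /-- the Rees algebra is a normal domain -/
  normal : IsDomain (rees F) ∧ IsIntegrallyClosed (rees F)

/-- the total weight of the `ℂ*`-action on the degree `k` part of the central fibre -/
noncomputable def wt {x₀ : g} (F : ℕ → ℤ → Submodule ℂ (OO x₀ → ℂ)) (k : ℕ) : ℝ :=
  ∑ᶠ l : ℤ, (l : ℝ) * ((Module.finrank ℂ (F k l) : ℝ) - (Module.finrank ℂ (F k (l + 1)) : ℝ))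

/-- the asymptotic expansions of the dimension and of the total weight, `N = dim X = 2 n - 1`,
along the multiples of `m` -/
def Expansion {x₀ : g} (r : ℕ) (F : ℕ → ℤ → Submodule ℂ (OO x₀ → ℂ)) (m : ℕ)
    (a₀ a₁ b₀ b₁ : ℝ) : Prop :=
  ∃ C : ℝ, ∀ k : ℕ, 0 < k → m ∣ k →
    |(Module.finrank ℂ (Reg x₀ (hdim x₀ * r * k)) : ℝ) -
      (a₀ * k ^ (2 * hdim x₀ - 1) + a₁ * k ^ (2 * hdim x₀ - 2))| * k ^ 2 ≤
        C * k ^ (2 * hdim x₀ - 1) ∧
    |wt F k - (b₀ * k ^ (2 * hdim x₀) + b₁ * k ^ (2 * hdim x₀ - 1))| * k ^ 2 ≤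
        C * k ^ (2 * hdim x₀)

/-- Product configurations: after a Veronese (which does not change the `Proj`) the filtration is the
weight filtration of a one-parameter group of automorphisms, that is, of an algebra grading. -/
def IsProduct {x₀ : g} (r : ℕ) (F : ℕ → ℤ → Submodule ℂ (OO x₀ → ℂ)) : Prop :=
  ∃ m : ℕ, 0 < m ∧ ∃ G : ℕ → ℤ → Submodule ℂ (OO x₀ → ℂ),
    (∀ k, iSupIndep (G k)) ∧ (∀ k, ⨆ j, G k j = Reg x₀ (hdim x₀ * r * (m * k))) ∧
    (∀ k j k' j' f f', f ∈ G k j → f' ∈ G k' j' → f * f' ∈ G (k + k') (j + j')) ∧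
    ∀ k l, F (m * k) l = ⨆ (j : ℤ) (_ : l ≤ j), G k j

/-- K-polystability of `(X, - K_X)`: the Donaldson-Futaki invariant (a positive multiple of
`a₁ b₀ - a₀ b₁`) of every normal test configuration is nonnegative, and it is zero only for product
configurations. -/
def KPolystable (x₀ : g) : Prop :=
  ∀ (r : ℕ) (F : ℕ → ℤ → Submodule ℂ (OO x₀ → ℂ)), 0 < r → TestConf x₀ r F →
    (∃ (m : ℕ) (a₀ a₁ b₀ b₁ : ℝ), 0 < m ∧ 0 < a₀ ∧ Expansion r F m a₀ a₁ b₀ b₁) ∧
    ∀ (m : ℕ) (a₀ a₁ b₀ b₁ : ℝ), 0 < m → Expansion r F m a₀ a₁ b₀ b₁ →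
      0 ≤ a₁ * b₀ - a₀ * b₁ ∧ (a₁ * b₀ - a₀ * b₁ = 0 → IsProduct r F)

end Pool.Agent.Helper52.KP
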