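import Pool.Agent.Helper52.KP.MainG
import Pool.Agent.Helper20.KP.HFin
import Pool.Agent.Helper65.KPZ.Nice
import Pool.Agent.Helper67.KPG.Asm
import Pool.Agent.Helper68.KP.All
import Pool.Agent.Helper85.KP.Fin

/-!
# Project KP (MP_26be5b_ag): final assembly, from the remaining statement `StALG`
-/

set_option autoImplicit false

namespace Pool.Agent.Helper52.KP

open Pool.Agent.Helper67.NO

universe u

theorem fin1 (hALG : StALG)
    (g : Type u) [LieRing g] [LieAlgebra ℂ g] [FiniteDimensional ℂ g]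
    [LieAlgebra.IsSemisimple ℂ g] (x₀ : g) (hx : x₀ ≠ 0)
    (hn : IsNilpotent (LieAlgebra.ad ℂ g x₀)) : KPolystable x₀ := by
  obtain ⟨ρ, hρ⟩ := mDFI g x₀ hx hn
  exact Pool.Agent.Helper65.KPZ.fin_of hALG mSLP
    (Pool.Agent.Helper68.KP.equ Pool.Agent.Helper85.KP.eIPP (Pool.Agent.Helper85.KP.eONE hALG))
    (mCONE Pool.Agent.Helper67.KPG.aCHX (Pool.Agent.Helper20.KP.hHDX mJM)) g x₀ hx hn ρ hρ

end Pool.Agent.Helper52.KP
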