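import Pool.Agent.Helper52.KP.Final
import Pool.Agent.Helper5.KPA.Asm
import Pool.Agent.Helper31.KPA.M_TIG

/-!
# PROJECT KP: the unconditional statement
-/

set_option autoImplicit false

namespace Pool.Agent.Helper52.KP

open Pool.Agent.Helper5.KPA

/-- The module TIG. -/
theorem mTIG : StTIG := Helper31.KPA.hTIG mTEV mTAD mTSC mABD mAGR

/-- The analytic and algebraic core: chapters A, T, V, R, C together. -/
theorem mALG : StALG := asmALG mTIG

end Pool.Agent.Helper52.KP
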