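import Pool.Agent.Helper52.KP.Main
import Pool.Agent.Helper52.KP.AsmC
import Pool.Agent.Helper52.KP.StB
import Pool.Agent.Helper67.KPG.JM
import Pool.Agent.Helper16.KP.M_DEC
import Pool.Agent.Helper14.KP.M_ORB
import Pool.Agent.Helper51.KP.M_SLI
import Pool.Agent.Helper42.KP.M_PRD
import Pool.Agent.Helper22.KP.M_NEA
import Pool.Agent.Helper84.KP.M_LFT
import Pool.Agent.Helper26.KP.M_HLC
import Pool.Agent.Helper31.KP.M_RHO
import Pool.Agent.Helper31.KP.M_TAN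
import Pool.Agent.Helper57.KP.M_CNX
import Pool.Agent.Helper34.KP.M_RS1
import Pool.Agent.Helper11.KP.M_EXT
import Pool.Agent.Helper95.KP.M_TRN
import Pool.Agent.Helper8.KP.M_CLO
import Pool.Agent.Helper6.KP.M_CPC
import Pool.Agent.Helper97.KP.M_EXL
import Pool.Agent.Helper10.KP.M_GRC
import Pool.Agent.Helper72.KP.M_JCO
import Pool.Agent.Helper31.KP.M_NUD
import Pool.Agent.Helper25.KP.M_POG
import Pool.Agent.Helper8.KP.M_HPO
import Pool.Agent.Helper81.KP.M_FF1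
import Pool.Agent.Helper75.KP.M_FF2
import Pool.Agent.Helper83.KP.M_FF3
import Pool.Agent.Helper36.KP.M_FF4
import Pool.Agent.Helper64.KP.M_JCN
import Pool.Agent.Helper22.KP.M_FF5
import Pool.Agent.Helper82.KP.M_FF6
import Pool.Agent.Helper21.KP.M_EVN
import Pool.Agent.Helper53.KP.M_COV
import Pool.Agent.Helper8.KP.M_BDY

/-!
# Project KP (MP_26be5b_ag): assembly of the chapters on the orbit
-/

set_option autoImplicit false

namespace Pool.Agent.Helper52.KP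

universe u

theorem mJM : StJM.{u} := Pool.Agent.Helper67.KPG.hJM 

theorem mDEC : StDEC.{u} := Pool.Agent.Helper16.KP.hDEC 

theorem mORB : StORB.{u} := Pool.Agent.Helper14.KP.hORB 

theorem mSLI : StSLI.{u} := Pool.Agent.Helper51.KP.hSLI mJM mDEC

theorem mPRD : StPRD.{u} := Pool.Agent.Helper42.KP.hPRD mORB mDEC

theorem mNEA : StNEA.{u} := Pool.Agent.Helper22.KP.hNEA mJM mORB mSLI mPRD

theorem mLFT : StLFT.{u} := Pool.Agent.Helper84.KP.hLFT mNEA mORB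

theorem mHLC : StHLC.{u} := Pool.Agent.Helper26.KP.hHLC mLFT mORB

theorem mRHO : StRHO.{u} := Pool.Agent.Helper31.KP.hRHO mLFT mORB

theorem mTAN : StTAN.{u} := Pool.Agent.Helper31.KP.hTAN mLFT mORB

theorem mCNX : StCNX.{u} := Pool.Agent.Helper57.KP.hCNX mORB mNEA

theorem mRS1 : StRS1 := Pool.Agent.Helper34.KP.hRS1 

theorem mEXT : StEXT := Pool.Agent.Helper11.KP.hEXT mRS1

theorem mTRN : StTRN.{u} := Pool.Agent.Helper95.KP.hTRN mNEA mORB mCNX mHLC mTAN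

theorem mCLO : StCLO.{u} := Pool.Agent.Helper8.KP.hCLO mNEA mORB

theorem mCPC : StCPC.{u} := Pool.Agent.Helper6.KP.hCPC mCLO mTRN mORB

theorem mEXL : StEXL.{u} := Pool.Agent.Helper97.KP.hEXL mEXT mTRN mLFT mORB mCLO

theorem mGRC : StGRC.{u} := Pool.Agent.Helper10.KP.hGRC mCLO mRHO mHLC mORB mNEA

theorem mJCO : StJCO.{u} := Pool.Agent.Helper72.KP.hJCO mEXL mTRN mCLO mHLC mORB

theorem mNUD : StNUD.{u} := Pool.Agent.Helper31.KP.hNUD mTRN mNEA mORB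

theorem mPOG : StPOG := Pool.Agent.Helper25.KP.hPOG 

theorem mHPO : StHPO.{u} := Pool.Agent.Helper8.KP.hHPO mHLC mEXT mPOG

theorem mFF1 : StFF1.{u} := Pool.Agent.Helper81.KP.hFF1 

theorem mFF2 : StFF2.{u} := Pool.Agent.Helper75.KP.hFF2 mHPO mFF1 mCNX

theorem mFF3 : StFF3.{u} := Pool.Agent.Helper83.KP.hFF3 mHPO mORB mCLO mFF1 mNUD

theorem mFF4 : StFF4.{u} := Pool.Agent.Helper36.KP.hFF4 mEXL mGRC mCPC mHPO mNUL

theorem mJCN : StJCN.{u} := Pool.Agent.Helper64.KP.hJCN mTRN mCLO mHLC mORB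

theorem mFF5 : StFF5.{u} := Pool.Agent.Helper22.KP.hFF5 mJCN mFF1 mFF2 mFF3 mFF4

theorem mFF6 : StFF6.{u} := Pool.Agent.Helper82.KP.hFF6 mRHO mTAN

theorem mEVN : StEVN.{u} := Pool.Agent.Helper21.KP.hEVN 

theorem mCOV : StCOV.{u} := Pool.Agent.Helper53.KP.hCOV mNEA mORB

theorem mBDY : StBDY.{u} := Pool.Agent.Helper8.KP.hBDY mCOV mEVN mCLO mORB

theorem mCONE (xCHX : StCHX.{u}) (xHDX : StHDX.{u}) : StCONE.{u} := asmCONE xCHX xHDX mFF1 mFF2 mFF3 mFF4 mFF5 mFF6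

end Pool.Agent.Helper52.KP
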