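import Pool.Agent.Helper52.KP.DefsG

/-!
# Project KP (MP_26be5b_ag), chapter G, analytic part: the orbit as a complex manifold

For every statement `StXX` prove `theorem hXX : StXX` in `Pool/Agent/<You>/KP/M_XX.lean`; statements
named in the docstring may be taken as hypotheses.  In a statement about all `g : Type u` keep the
universe variable: `theorem hXX : StXX.{u}`.
Useful: `Pool.Agent.Helper67.NO.Main` (project NO) proves `StDAD`, `StDOR`, `StCPT`, ... about `expAd`.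
-/

set_option autoImplicit false

namespace Pool.Agent.Helper52.KP

open Pool.Agent.Helper67.NO MeasureTheory Filter
open scoped ContDiff ComplexOrder Topology

universe u

/-- Jacobson-Morozov (module of helper67). -/
def StJM : Prop := ∀ (g : Type u) [LieRing g] [LieAlgebra ℂ g] [FiniteDimensional ℂ g]
  [LieAlgebra.IsSemisimple ℂ g] (x : g), x ≠ 0 → IsNilpotent (LieAlgebra.ad ℂ g x) →
  ∃ h f : g, IsSl2Triple h x f

/-- MODULE DEC (linear algebra of `sl2`-modules).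
PROOF.  (1) `F` is nilpotent: it maps the generalized eigenspace of `H` for `μ` to that for `μ - 2`.
(2) For `u ∈ ker F`: `F^k E^k u = c_k H (H+1) ... (H+k-1) u`, `c_k = ± k!` (induction; `H` preserves `ker F`);
as `E^k = 0` for large `k`, `H` is diagonalizable on `ker F` with eigenvalues in `{0, -1, ..., -(k-1)}`.
In particular `F v = 0`, `H v = 2 v` imply `v = 0`.
(3) `range E ∩ ker F = 0`: it is stable under `H` (`H E w = E (H + 2) w`), so it suffices to treat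
`v = E w`, `F v = 0`, `H v = - j v`, `j ≥ 0`.  Replace `w` by its component in the generalized eigenspace of `H`
for `- j - 2` (the other components are mapped to other generalized eigenspaces, so to `0`).  Let
`C = ℂ[H] w`.  `F E c = 0` for `c ∈ C` (`F E` commutes with `H`).  By induction
`E F^{k+1} c = F^k p_k(H) c`, `p_k(H) = ∑_{i ≤ k} (H - 2 i)`, for `c ∈ C` (`E F = F E + H`,
`H F^k = F^k (H - 2k)`), and `p_k(H)` is invertible on `C` (its only eigenvalue is negative).  So by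
induction `F^k` is injective on `C`: if `F^{k+1} c = 0` then `F^k p_k(H) c = 0`, so `c = 0`.  As `F` is
nilpotent `C = 0`.
(4) So `dim range E + dim ker F ≤ dim V`, i.e. `dim ker F ≤ dim ker E`; by symmetry (`E ↔ F`, `H ↔ -H`)
equality, and `range E ⊕ ker F = V`. -/
def StDEC : Prop := ∀ (V : Type u) [AddCommGroup V] [Module ℂ V] [FiniteDimensional ℂ V]
  (E F H : V →ₗ[ℂ] V), (∀ v, H (E v) - E (H v) = (2 : ℂ) • E v) →
  (∀ v, H (F v) - F (H v) = -((2 : ℂ) • F v)) → (∀ v, E (F v) - F (E v) = H v) →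
  IsNilpotent E →
  IsNilpotent F ∧ IsCompl (LinearMap.range E) (LinearMap.ker F) ∧
    (∀ v, F v = 0 → H v = (2 : ℂ) • v → v = 0)

/-- MODULE ORB (the orbit).  Use `StDAD`, `StDOR` etc. of project NO (`Pool.Agent.Helper67.NO.Main`).
PROOF.  `expAd x` is an automorphism of the Lie algebra with inverse `expAd (-x)` (`StDAD` (3), (4):
`adM (expAd x y) = exp (adM x) adM y exp (- adM x)`, `adM` injective), so `ad (expAd x y) =
expAd x ∘ ad y ∘ expAd (-x)`: nilpotency and rank are preserved.  Symmetry and transitivity of `Orb` by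
induction.  `κ (expAd x y) (expAd x z) = κ y z`.  Derivative of `w ↦ chart x X w` at `0`:
`v ↦ ⁅∑ v j • X j, x⁆`; all coordinates of `chart x X w` are holomorphic in `w`, even jointly in `w`, `x`
and `X`; chart of `0` is `x`.  Last part: `StHPR`/`StDOR` of project NO (an `h` with `[h, y] = y`, then
`expAd (s h) y = e^s y`). -/
def StORB : Prop := ∀ (g : Type u) [LieRing g] [LieAlgebra ℂ g] [FiniteDimensional ℂ g]
  [LieAlgebra.IsSemisimple ℂ g],
  (∀ x y z : g, expAd x ⁅y, z⁆ = ⁅expAd x y, expAd x z⁆ ∧ expAd (-x) (expAd x y) = y ∧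
    killingForm ℂ g (expAd x y) (expAd x z) = killingForm ℂ g y z ∧ rk (expAd x y) = rk y ∧
    (IsNilpotent (LieAlgebra.ad ℂ g y) → IsNilpotent (LieAlgebra.ad ℂ g (expAd x y)))) ∧
  (∀ x y z : g, Orb x y → Orb y z → Orb x z) ∧ (∀ x y : g, Orb x y → Orb y x ∧ rk y = rk x ∧
    (IsNilpotent (LieAlgebra.ad ℂ g x) → IsNilpotent (LieAlgebra.ad ℂ g y))) ∧
  (∀ (k : ℕ) (x : g) (X : Fin k → g), HolMap Set.univ (chart x X) ∧ chart x X 0 = x ∧
    ∀ v, fderiv ℂ (fun w => co (chart x X w)) 0 v = co ⁅∑ j, v j • X j, x⁆) ∧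
  (∀ k : ℕ, ∀ X : Fin k → g, Differentiable ℂ (fun p : (Fin k → ℂ) × (Fin (Module.finrank ℂ g) → ℂ) =>
    co (expAd (∑ j, p.1 j • X j) ((Module.finBasis ℂ g).equivFun.symm p.2)))) ∧
  (∀ x : g, ∃ X : Fin (rk x) → g, Frm x X) ∧
  (∀ x y : g, x ≠ 0 → IsNilpotent (LieAlgebra.ad ℂ g x) → Orb x y → (∃ h : g, ⁅h, y⁆ = y) ∧
    ∀ c : ℂ, c ≠ 0 → Orb x (c • y))

/-- MODULE SLI (a nilpotent point of the slice of the right rank).  Inputs: `StJM`, `StDEC`.
PROOF.  `E, F, H` = `ad x, ad f, ad h`.  Let `X` be a frame at `x`: the `[X_i, x]` together with a basis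
of `ker (ad f)` are a basis of `g` (`StDEC`); for `s` small this remains true for the `[X_i, y]`,
`y = x + s` (determinant, continuity), so if `rk y = rk x` then `range (ad y) = span [X_i, y]` and
`range (ad y) ∩ ker (ad f) = 0`.  Now `v = 2 y - [h, y] = 2 s - [h, s]` is in `ker (ad f)`
(`[f, [h, s]] = 2 [f, s] + [h, [f, s]] = 0`), and in `range (ad y)`: `y ≠ 0` (its rank is `rk x > 0`),
`StJM` for `y` gives `[h', y] = 2 y`.  So `v = 0`, `[h, s] = 2 s`, `s = 0` by `StDEC`. -/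
def StSLI : Prop := ∀ (g : Type u) [LieRing g] [LieAlgebra ℂ g] [FiniteDimensional ℂ g]
  [LieAlgebra.IsSemisimple ℂ g] (x h f : g), IsSl2Triple h x f →
  IsNilpotent (LieAlgebra.ad ℂ g x) → ∃ ε : ℝ, 0 < ε ∧ ∀ s : g, ⁅f, s⁆ = 0 → size s < ε →
    IsNilpotent (LieAlgebra.ad ℂ g (x + s)) → rk (x + s) = rk x → s = 0

/-- MODULE PRD (local product structure).  Inputs: `StORB`, `StDEC`.
PROOF.  The map `T (w, s) = expAd (∑ w j • X j) (x + s)` on `ℂ^k × ker (ad f)` is holomorphic (`StORB`),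
its derivative at `(0, 0)` is `(w, s) ↦ [∑ w j X j, x] + s`, bijective by `StDEC` and `Frm`.  The complex inverse
function theorem (`HasStrictFDerivAt.to_localInverse`, `ContDiffAt.to_localInverse`) in coordinates
(identify `ker (ad f)` with `ℂ^l` by a basis).  Choose `δ`, then `ε`, with everything inside the
source and target. -/
def StPRD : Prop := ∀ (g : Type u) [LieRing g] [LieAlgebra ℂ g] [FiniteDimensional ℂ g]
  [LieAlgebra.IsSemisimple ℂ g] (x h f : g), IsSl2Triple h x f →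
  IsNilpotent (LieAlgebra.ad ℂ g x) → ∀ (k : ℕ) (X : Fin k → g), Frm x X → ∀ η : ℝ, 0 < η →
  ∃ (W : g → Fin k → ℂ) (S : g → g) (δ ε : ℝ), 0 < δ ∧ 0 < ε ∧
    DifferentiableOn ℂ (fun v => W ((Module.finBasis ℂ g).equivFun.symm v))
      {v | ∑ i, ‖v i - co x i‖ < δ} ∧
    (∀ y, size (y - x) < δ → y = expAd (∑ j, W y j • X j) (x + S y) ∧ ⁅f, S y⁆ = 0 ∧
      size (S y) < η ∧ ‖W y‖ < η) ∧
    (∀ (w : Fin k → ℂ) (s : g), ‖w‖ < ε → size s < ε → ⁅f, s⁆ = 0 →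
      size (expAd (∑ j, w j • X j) (x + s) - x) < δ ∧
      W (expAd (∑ j, w j • X j) (x + s)) = w ∧ S (expAd (∑ j, w j • X j) (x + s)) = s)

/-- MODULE NEA (nilpotent points of the right rank near `x` are on the orbit).
Inputs: `StJM`, `StORB`, `StSLI`, `StPRD`.
PROOF.  `StJM` gives `h, f`; `StPRD` with `η` the `ε` of `StSLI`.  For `y` near `x` nilpotent with `rk y = rk x`:
`x + S y = expAd (-∑ W X) y` is nilpotent of the same rank (`StORB`), so `S y = 0` (`StSLI`). -/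
def StNEA : Prop := ∀ (g : Type u) [LieRing g] [LieAlgebra ℂ g] [FiniteDimensional ℂ g]
  [LieAlgebra.IsSemisimple ℂ g] (x : g), x ≠ 0 → IsNilpotent (LieAlgebra.ad ℂ g x) →
  ∀ (k : ℕ) (X : Fin k → g), Frm x X →
  ∃ (W : g → Fin k → ℂ) (δ ε : ℝ), 0 < δ ∧ 0 < ε ∧
    DifferentiableOn ℂ (fun v => W ((Module.finBasis ℂ g).equivFun.symm v))
      {v | ∑ i, ‖v i - co x i‖ < δ} ∧
    (∀ y, size (y - x) < δ → IsNilpotent (LieAlgebra.ad ℂ g y) → rk y = rk x →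
      y = chart x X (W y)) ∧
    (∀ w : Fin k → ℂ, ‖w‖ < ε → size (chart x X w - x) < δ ∧ W (chart x X w) = w)

/-- MODULE LFT (holomorphic maps to the orbit lift to exponential charts).  Inputs: `StNEA`, `StORB`.
PROOF.  `x = Ψ z₀`, `ξ z = W (Ψ z)` with `W` of `StNEA`, on the open set of the `z ∈ V` with
`size (Ψ z - x) < δ`: `Ψ z` is in the orbit, so nilpotent of rank `rk x` (`StORB`). -/
def StLFT : Prop := ∀ (g : Type u) [LieRing g] [LieAlgebra ℂ g] [FiniteDimensional ℂ g]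
  [LieAlgebra.IsSemisimple ℂ g] (x₀ : g), x₀ ≠ 0 → IsNilpotent (LieAlgebra.ad ℂ g x₀) →
  ∀ (p : ℕ) (V : Set (Fin p → ℂ)), IsOpen V → ∀ Ψ : (Fin p → ℂ) → g, HolMap V Ψ →
  (∀ z ∈ V, Orb x₀ (Ψ z)) → ∀ z₀ ∈ V, ∀ (k : ℕ) (X : Fin k → g), Frm (Ψ z₀) X →
  ∃ (V' : Set (Fin p → ℂ)) (ξ : (Fin p → ℂ) → (Fin k → ℂ)), IsOpen V' ∧ z₀ ∈ V' ∧ V' ⊆ V ∧
    DifferentiableOn ℂ ξ V' ∧ ξ z₀ = 0 ∧ ∀ z ∈ V', Ψ z = chart (Ψ z₀) X (ξ z)

/-- MODULE HLC (functions in `Hol` are holomorphic along holomorphic maps).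
Inputs: `StLFT`, `StORB`.
PROOF.  Near `z₀`: `ext f (Ψ z) = f (chart (Ψ z₀) X (ξ z))`, composition of holomorphic maps. -/
def StHLC : Prop := ∀ (g : Type u) [LieRing g] [LieAlgebra ℂ g] [FiniteDimensional ℂ g]
  [LieAlgebra.IsSemisimple ℂ g] (x₀ : g), x₀ ≠ 0 → IsNilpotent (LieAlgebra.ad ℂ g x₀) →
  ∀ (p : ℕ) (V : Set (Fin p → ℂ)), IsOpen V → ∀ Ψ : (Fin p → ℂ) → g, HolMap V Ψ →
  (∀ z ∈ V, Orb x₀ (Ψ z)) → ∀ (k : ℕ), ∀ f ∈ Hol x₀ k,
    DifferentiableOn ℂ (fun z => ext f (Ψ z)) V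

/-- MODULE RHO (the potential along holomorphic maps).  Inputs: `StLFT`, `StORB`.
PROOF.  Near `z₀`: `ρ (Ψ z) = ρ (chart x X (ξ z))`, `x = Ψ z₀`, `ξ z₀ = 0`: smooth.  The complex Hessian at
`z₀` is `Aᵀ M conj(A)`, `A = ξ'(z₀)`, `M = chess (ρ ∘ chart x X)` (chain rule for a real function composed
with a holomorphic map; `chess f` at `0` is `hes f 0`), `M` positive semidefinite (`psh`): so `Psd`.  Third
part: `p = k = rk x`: `[Z i, x] = ∂_i Ψ = [∑_j A j i X_j, x]` (`StORB`), and `κ (x, [Z, Z'])` depends only on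
`[Z, x], [Z', x]` (invariance), so the matrix `κ (x, [Z i, Z j])` is `Aᵀ K A`, `K` the matrix for `X`, and
`det hes = |det A|² det M = |det A|² |det K| = |det (Aᵀ K A)|` (`flat`).  If this is nonzero the positive
semidefinite Hessian is positive definite. -/
def StRHO : Prop := ∀ (g : Type u) [LieRing g] [LieAlgebra ℂ g] [FiniteDimensional ℂ g]
  [LieAlgebra.IsSemisimple ℂ g] (x₀ : g), x₀ ≠ 0 → IsNilpotent (LieAlgebra.ad ℂ g x₀) →
  ∀ ρ : g → ℝ, RicciFlatCone x₀ ρ →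
  ∀ (p : ℕ) (V : Set (Fin p → ℂ)), IsOpen V → ∀ Ψ : (Fin p → ℂ) → g, HolMap V Ψ →
  (∀ z ∈ V, Orb x₀ (Ψ z)) →
  ContDiffOn ℝ ∞ (fun z => ρ (Ψ z)) V ∧ (∀ z ∈ V, Psd (hes (fun z => ρ (Ψ z)) z)) ∧
  (p = rk x₀ → ∀ z ∈ V, ∀ Z : Fin p → g,
    (∀ i, co ⁅Z i, Ψ z⁆ = fderiv ℂ (fun z => co (Ψ z)) z (Pi.single i 1)) →
    (hes (fun z => ρ (Ψ z)) z).det =
      ((‖(Matrix.of fun i j : Fin p => killingForm ℂ g (Ψ z) ⁅Z i, Z j⁆).det‖ : ℝ) : ℂ) ∧
    ((Matrix.of fun i j : Fin p => killingForm ℂ g (Ψ z) ⁅Z i, Z j⁆).det ≠ 0 →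
      Pd (hes (fun z => ρ (Ψ z)) z)))

/-- MODULE TAN (derivatives of holomorphic maps to the orbit are tangent to it).
Inputs: `StLFT`, `StORB`.
PROOF.  `Ψ = chart x X ∘ ξ` near `z₀`; derivative of the chart at `0`. -/
def StTAN : Prop := ∀ (g : Type u) [LieRing g] [LieAlgebra ℂ g] [FiniteDimensional ℂ g]
  [LieAlgebra.IsSemisimple ℂ g] (x₀ : g), x₀ ≠ 0 → IsNilpotent (LieAlgebra.ad ℂ g x₀) →
  ∀ (p : ℕ) (V : Set (Fin p → ℂ)), IsOpen V → ∀ Ψ : (Fin p → ℂ) → g, HolMap V Ψ →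
  (∀ z ∈ V, Orb x₀ (Ψ z)) → ∀ z ∈ V, ∃ Z : Fin p → g,
    ∀ i, co ⁅Z i, Ψ z⁆ = fderiv ℂ (fun z => co (Ψ z)) z (Pi.single i 1)

/-- MODULE CNX (identity principle on the orbit).  Inputs: `StHLC`, `StORB`.
PROOF.  Let `f ∈ Hol x₀ k` vanish on a neighbourhood (in an exponential chart with a frame, so in every
exponential chart near `0`, `StLFT`) of `x`.  The set `A` of such points `x` of the orbit is the whole
orbit or empty: if `x ∈ A` and `y = expAd Z x`, consider `Ψ (t, w) = expAd (t Z) (chart x X w)`, `X` a frame,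
`F = f ∘ Ψ`; more simply: for a frame `X` at `x` and `w` small, `f (expAd (t Z) (chart x X w))` is entire in
`(t, w)`; it vanishes near `(0, 0)`: for `t, w` small the point is near `x`, so by `StNEA` it is in the set
where `f` vanishes.  So it vanishes for all `t`, `w`; at `t = 1` this is a neighbourhood of `y`. -/
def StCNX : Prop := ∀ (g : Type u) [LieRing g] [LieAlgebra ℂ g] [FiniteDimensional ℂ g]
  [LieAlgebra.IsSemisimple ℂ g] (x₀ : g), x₀ ≠ 0 → IsNilpotent (LieAlgebra.ad ℂ g x₀) →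
  ∀ k, ∀ f ∈ Hol x₀ k, f ≠ 0 → ∀ x : OO x₀, ∀ (p : ℕ) (X : Fin p → g), Frm x.1 X →
    ∀ V : Set (Fin p → ℂ), IsOpen V → V.Nonempty → ∃ w ∈ V, ext f (chart x.1 X w) ≠ 0

/-- MODULE RS1 (removable singularities in one variable for square integrable functions).
PROOF.  Laurent series: `a_n = (1/2πi) ∮_{|z|=s} f z^{-n-1} dz` for `0 < s < r`; by Cauchy-Schwarz
`|a_n|² s^{2n} ≤ (1/2π) ∫ |f(s e^{iθ})|² dθ`, integrate `s ds`: `|a_n|² ∫_0^r s^{2n+1} ds < ∞`, so `a_n = 0` for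
`n ≤ -1`.  Simplest in Mathlib: `z f(z)` (or `z² f(z)`) is bounded near `0` by the mean value inequality
(`|f(z)|² ≤ (4 / π |z|²) ∫ |f|²`, so `|z f(z)| → 0` as the integrals over small discs tend to `0`), and
`Complex.differentiableOn_update_limUnder_of_isLittleO`: removable if `f z = o(1/z)`. -/
def StRS1 : Prop := ∀ (r : ℝ) (f : ℂ → ℂ), 0 < r →
  DifferentiableOn ℂ f (Metric.ball 0 r \ {0}) →
  IntegrableOn (fun z => ‖f z‖ ^ 2) (Metric.ball 0 r) →
  ∃ f' : ℂ → ℂ, DifferentiableOn ℂ f' (Metric.ball 0 r) ∧ ∀ z ∈ Metric.ball (0 : ℂ) r, z ≠ 0 →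
    f' z = f z

/-- MODULE EXT (removable singularities in several variables).  Input: `StRS1`.
PROOF.  After a linear change of coordinates (`v = w₀ + ζ b + ...`) we may assume that `ζ ↦ P (w₀ + ζ b)` is
not identically zero near `0`, `b` a basis vector.  Choose `ε` with `P ≠ 0` on the circle `|ζ| = ε` through
`w₀`, so also for nearby values of the other coordinates `w'`.  For these
`F (w', ζ) = (1 / 2πi) ∮_{|η| = ε} f (w', η) / (η - ζ) dη` is holomorphic in `(w', ζ)`.  For almost every `w'`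
the slice `f (w', ·)` is square integrable on the disc (Fubini) and holomorphic off finitely many
points, so it extends (`StRS1`) and `F = f` there by Cauchy's formula.  So `F = f` almost everywhere,
hence on `{P ≠ 0}` by continuity.  Local extensions agree on overlaps (`{P ≠ 0}` is dense), glue. -/
def StEXT : Prop := ∀ (m : ℕ) (B : Set (Fin m → ℂ)), IsOpen B → ∀ P f : (Fin m → ℂ) → ℂ,
  DifferentiableOn ℂ P B → (∀ V ⊆ B, IsOpen V → V.Nonempty → ∃ w ∈ V, P w ≠ 0) →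
  DifferentiableOn ℂ f {w | w ∈ B ∧ P w ≠ 0} →
  (∀ w₀ ∈ B, ∃ V, IsOpen V ∧ w₀ ∈ V ∧ IntegrableOn (fun w => ‖f w‖ ^ 2) {w | w ∈ V ∧ w ∈ B ∧ P w ≠ 0}) →
  ∃ F : (Fin m → ℂ) → ℂ, DifferentiableOn ℂ F B ∧ ∀ w ∈ B, P w ≠ 0 → F w = f w

/-- MODULE TRN (transition between an exponential chart and the chart `Φ`).
Inputs: `StNEA`, `StORB`, `StCNX`, `StHLC`, `StTAN`, `StLFT`.
PROOF.  `StNEA` at `x`: for `‖w‖ < ε`, `E w = chart x X w` is injective.  `P w = p₁ (E w)` is holomorphic, not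
identically zero on any nonempty open set (`StCNX`, `p₁ ≠ 0`).  If `P w ≠ 0` then `E w = Φ z` for a unique
`z ∈ U` (`Ch.p1`, `Ch.inj`), `τ w = z`.  `τ` is holomorphic: near a point `z₁ = τ w₁`, `Φ = chart (Φ z₁) X' ∘ ξ`
(`StLFT`) with `ξ` holomorphic, `ξ' (z₁)` invertible (`Ch.imm`), so a local biholomorphism, and
`E w = chart (E w₁) X' (ξ₁ w)` with `ξ₁` holomorphic; for `w` near `w₁` the point `z' = ξ⁻¹ (ξ₁ w)` has
`Φ z' = E w`, so `τ w = z'`.  Jacobian: let `Z i` be as in `Ch.kks` at `z = τ w` (`StTAN`); the vector fields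
`∑_j (τ')_{j i} Z j` are such for `E` at `w`, so `‖J (τ w)‖² ‖det τ'‖² = ‖det κ(E w, [Z'_i, Z'_j])‖` where
`co [Z'_i, E w] = ∂_i E`; this is continuous and positive on `‖w‖ < ε` (nondegenerate KKS form: if
`κ (y, [Z, Z']) = 0` for all `Z'` then `[Z, y] = 0`; `E` is an immersion for small `w`), so bounded between
positive constants after shrinking `ε`.  Last part: by `StNEA`. -/
def StTRN : Prop := ∀ (g : Type u) [LieRing g] [LieAlgebra ℂ g] [FiniteDimensional ℂ g]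
  [LieAlgebra.IsSemisimple ℂ g] (x₀ : g), x₀ ≠ 0 → IsNilpotent (LieAlgebra.ad ℂ g x₀) →
  ∀ (C : Ch x₀) (x : OO x₀) (X : Fin C.m → g), Frm x.1 X →
  ∃ (ε δ a b : ℝ) (τ : (Fin C.m → ℂ) → (Fin C.m → ℂ)), 0 < ε ∧ 0 < δ ∧ 0 < a ∧
    (∀ w w' : Fin C.m → ℂ, ‖w‖ < ε → ‖w'‖ < ε → chart x.1 X w = chart x.1 X w' → w = w') ∧
    DifferentiableOn ℂ τ {w | ‖w‖ < ε ∧ ext C.p₁ (chart x.1 X w) ≠ 0} ∧
    (∀ w, ‖w‖ < ε → ext C.p₁ (chart x.1 X w) ≠ 0 → MvPolynomial.eval (τ w) C.Δ ≠ 0 ∧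
      C.Φ (τ w) = chart x.1 X w ∧
      a ≤ ‖MvPolynomial.eval (τ w) C.J‖ ^ 2 * ‖(fderiv ℂ τ w).det‖ ^ 2 ∧
      ‖MvPolynomial.eval (τ w) C.J‖ ^ 2 * ‖(fderiv ℂ τ w).det‖ ^ 2 ≤ b) ∧
    (∀ V : Set (Fin C.m → ℂ), IsOpen V → V.Nonempty → (∀ w ∈ V, ‖w‖ < ε) →
      ∃ w ∈ V, ext C.p₁ (chart x.1 X w) ≠ 0) ∧
    (∀ z, MvPolynomial.eval z C.Δ ≠ 0 → size (C.Φ z - x.1) < δ → ∃ w, ‖w‖ < ε ∧
      chart x.1 X w = C.Φ z ∧ τ w = z)

/-- the minors of size `m` of the matrix of `ad x` -/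
noncomputable def mnr {g : Type u} [LieRing g] [LieAlgebra ℂ g] [FiniteDimensional ℂ g] {m : ℕ}
    (a b : Fin m → Fin (Module.finrank ℂ g)) (x : g) : ℂ :=
  ((LinearMap.toMatrix (Module.finBasis ℂ g) (Module.finBasis ℂ g)
    (LieAlgebra.ad ℂ g x : g →ₗ[ℂ] g)).submatrix a b).det

/-- sum of the absolute values of the minors -/
noncomputable def mns {g : Type u} [LieRing g] [LieAlgebra ℂ g] [FiniteDimensional ℂ g] (m : ℕ)
    (x : g) : ℝ := ∑ a : Fin m → Fin (Module.finrank ℂ g), ∑ b, ‖mnr a b x‖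

/-- MODULE CLO (points of the closure of full rank are on the orbit).  Inputs: `StNEA`, `StORB`.
PROOF.  `m = rk x₀`.  On the orbit the rank of `ad x` is `m`, so some minor is nonzero; if
`mns m x > 0` then the rank of `ad x` is at least `m`.  Let `x_i` be on the orbit, `x_i → x` (in coordinates)
with `mns m x > 0`.  `x` is nilpotent (`(ad x)^N = 0` is a closed condition), `rk x ≤ m` (minors of size
`m + 1` vanish), so `rk x = m > 0`, `x ≠ 0`.  By `StNEA` at `x` (frame `X`, `StORB`): for large `i`,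
`x_i = chart x X (W x_i)`, so `Orb x x_i`, `Orb x₀ x`; and `W x_i → W x = 0` by continuity. -/
def StCLO : Prop := ∀ (g : Type u) [LieRing g] [LieAlgebra ℂ g] [FiniteDimensional ℂ g]
  [LieAlgebra.IsSemisimple ℂ g] (x₀ : g), x₀ ≠ 0 → IsNilpotent (LieAlgebra.ad ℂ g x₀) →
  (∀ y, Orb x₀ y → 0 < mns (rk x₀) y) ∧
  ∀ (x : g) (y : ℕ → g), (∀ i, Orb x₀ (y i)) → 0 < mns (rk x₀) x →
    Tendsto (fun i => co (y i)) atTop (𝓝 (co x)) →
    Orb x₀ x ∧ ∀ (k : ℕ) (X : Fin k → g), Frm x X → ∃ w : ℕ → Fin k → ℂ,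
      Tendsto w atTop (𝓝 0) ∧ ∀ᶠ i in atTop, y i = chart x X (w i)

/-- MODULE CPC (compactness).  Inputs: `StCLO`, `StTRN`, `StORB`.
PROOF.  Sequential compactness.  Let `z_i` be in the set, `x_i = Φ z_i`: bounded, so (subsequence)
`x_i → x`, `mns m x ≥ δ` by continuity.  `StCLO`: `x` is on the orbit and `x_i = chart x X (w_i)`, `w_i → 0`.
`ext p₁ (x_i) → ext p₁ (x)` (holomorphic in the chart), so `‖p₁ x‖ ≥ δ`, `x = Φ z`, `z ∈ U` (`Ch.p1`).
`StTRN` at `x`: `τ` is continuous near `0` and `τ w_i = z_i` (`Φ (τ w_i) = x_i = Φ z_i`, `Ch.inj`), `τ 0 = z`.  So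
`z_i → z`, and `z` is in the set (all conditions are closed at `z`). -/
def StCPC : Prop := ∀ (g : Type u) [LieRing g] [LieAlgebra ℂ g] [FiniteDimensional ℂ g]
  [LieAlgebra.IsSemisimple ℂ g] (x₀ : g), x₀ ≠ 0 → IsNilpotent (LieAlgebra.ad ℂ g x₀) →
  ∀ (C : Ch x₀) (r δ : ℝ), 0 < δ → IsCompact {z | MvPolynomial.eval z C.Δ ≠ 0 ∧
    size (C.Φ z) ≤ r ∧ δ ≤ ‖ext C.p₁ (C.Φ z)‖ ∧ δ ≤ mns C.m (C.Φ z)}

/-- MODULE EXL (extension of square integrable holomorphic functions to the orbit).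
Inputs: `StEXT`, `StTRN`, `StHLC`, `StLFT`, `StCNX`, `StORB`, `StCLO`.
PROOF.  `f₁ (Φ z) = h z / J z` on `O₁ = {p₁ ≠ 0}`.  For `x` in the orbit and a frame `X` (`StORB`), data of
`StTRN`, `B_x` the ball `‖w‖ < ε`: `f₁ ∘ E_x = (h / J) ∘ τ` is holomorphic on `B_x ∩ {P ≠ 0}`, and on a smaller
ball `∫ |f₁ (E_x w)|² dw ≤ a⁻¹ ∫ |h (τ w)|² |det τ'|² dw = a⁻¹ ∫ |h|² dλ` over the image of `τ` (injective
change of variables), which is contained in a set `{size (Φ z) ≤ r, δ' ≤ mns m (Φ z)}` (continuity of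
`size`, `mns` at `x`, `mns m x > 0`).  `StEXT` gives the holomorphic extension `F_x` to `B_x` (smaller).
Define `f x = F_x 0`.  For `y = E_x w`, `w ∈ B_x`, `f y = F_x w`: near `y` both `F_x` and `F_y` are, through the
holomorphic transition `ξ` of `StLFT`, extensions of `f₁`, which is defined on a dense set (`StCNX`).  So `f`
is holomorphic in all exponential charts (with arbitrary `X`: lift by `StLFT`).  Homogeneity:
`f (c y) = c^k f y` for `y ∈ O₁`, `‖c‖ = 1` by the hypothesis (`J` has degree `jd`); by continuity for all `y`;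
for general `c = e^s`: `f (e^s y)` and `e^{ks} f y` are entire in `s ∈ ℂ` (`e^s y = chart y (h') s` for `h'` with
`[h', y] = y`, `StDOR` of project NO) and agree for imaginary `s`. -/
def StEXL : Prop := ∀ (g : Type u) [LieRing g] [LieAlgebra ℂ g] [FiniteDimensional ℂ g]
  [LieAlgebra.IsSemisimple ℂ g] (x₀ : g), x₀ ≠ 0 → IsNilpotent (LieAlgebra.ad ℂ g x₀) →
  ∀ (C : Ch x₀) (k : ℕ) (h : (Fin C.m → ℂ) → ℂ),
  DifferentiableOn ℂ h {z | MvPolynomial.eval z C.Δ ≠ 0} →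
  (∀ (c : ℂ), ‖c‖ = 1 → ∀ z, MvPolynomial.eval z C.Δ ≠ 0 →
    h (scl C.w c z) = c ^ (k + C.jd) * h z) →
  (∀ r δ : ℝ, 0 < δ → IntegrableOn (fun z => ‖h z‖ ^ 2)
    {z | MvPolynomial.eval z C.Δ ≠ 0 ∧ size (C.Φ z) ≤ r ∧ δ ≤ mns C.m (C.Φ z)}) →
  ∃ f ∈ Hol x₀ k, ∀ z, MvPolynomial.eval z C.Δ ≠ 0 →
    h z = ext f (C.Φ z) * MvPolynomial.eval z C.J

/-- MODULE GRC (bounds for derivatives on compact sets).  Inputs: `StCLO`, `StTRN`, `StRHO`, `StHLC`,
`StLFT`, `StORB`, `StTAN`.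
PROOF.  Suppose not: `z_i` in the set and `ξ_i ≠ 0` violate the inequality with `B = i`.  `x_i = Φ z_i`, bounded,
subsequence `x_i → x`, `x` on the orbit, `x_i = E w_i`, `w_i → 0` (`StCLO`), `E = chart x X`, `X` a frame.
Near `0`: `|∑ ∂_j (f ∘ E) ζ_j|² ≤ C |ζ|²` and `hf (hes (ρ ∘ E) w) ζ ≥ c |ζ|²` (`hes (ρ ∘ E) 0` is positive
definite: `StRHO` third part and nondegeneracy of the KKS form; continuity).  Near `z_i`, `Φ = E ∘ ξ` with
`ξ = W ∘ Φ` holomorphic (`StNEA`), so both sides at `(z_i, ξ_i)` are the corresponding quantities for `E` at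
`(w_i, ξ'(z_i) ξ_i)`: contradiction for large `i`. -/
def StGRC : Prop := ∀ (g : Type u) [LieRing g] [LieAlgebra ℂ g] [FiniteDimensional ℂ g]
  [LieAlgebra.IsSemisimple ℂ g] (x₀ : g), x₀ ≠ 0 → IsNilpotent (LieAlgebra.ad ℂ g x₀) →
  ∀ ρ : g → ℝ, RicciFlatCone x₀ ρ → ∀ (C : Ch x₀) (k : ℕ), ∀ f ∈ Hol x₀ k,
  ∀ r δ : ℝ, 0 < δ → ∃ B : ℝ, ∀ z, MvPolynomial.eval z C.Δ ≠ 0 → size (C.Φ z) ≤ r →
    δ ≤ mns C.m (C.Φ z) → ∀ ξ : Fin C.m → ℂ,
    ‖∑ j, dz j (fun z => ext f (C.Φ z)) z * ξ j‖ ^ 2 ≤ B * hf (hes (fun z => ρ (C.Φ z)) z) ξ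

/-- MODULE JCO (Jacobians).  Inputs: `StEXL`, `StTRN`, `StCLO`, `StHLC`, `StLFT`, `StORB`.
PROOF.  `h z = det (∂_j (f_i ∘ Φ))` on `U`, holomorphic, `h (scl w c z) = c^{∑ k_i - ∑ w} h z` (chain rule), and
`∑ w = n - jd`.  If `∑ k_i ≥ n` this is the homogeneity for `k = ∑ k_i - n`.  Local square integrability:
the set `K = {x : size x ≤ r, mns m x ≥ δ}` in the orbit is compact (`StCLO`), covered by finitely many
neighbourhoods `E_x (ball)` of `StTRN`; on each, `∫ |h|² dλ(z) = ∫ |h (τ w)|² |det τ'|² dw =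
∫ |det (∂ (f_i ∘ E_x))|² dw < ∞`.  `StEXL` gives `s`. -/
def StJCO : Prop := ∀ (g : Type u) [LieRing g] [LieAlgebra ℂ g] [FiniteDimensional ℂ g]
  [LieAlgebra.IsSemisimple ℂ g] (x₀ : g), x₀ ≠ 0 → IsNilpotent (LieAlgebra.ad ℂ g x₀) →
  ∀ (C : Ch x₀) (k : Fin C.m → ℕ) (f : Fin C.m → OO x₀ → ℂ), (∀ i, f i ∈ Hol x₀ (k i)) →
  hdim x₀ ≤ ∑ i, k i → ∃ s ∈ Hol x₀ (∑ i, k i - hdim x₀), ∀ z, MvPolynomial.eval z C.Δ ≠ 0 →
    (Matrix.of fun i j : Fin C.m => dz j (fun z => ext (f i) (C.Φ z)) z).det =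
      ext s (C.Φ z) * MvPolynomial.eval z C.J

/-- MODULE NUD (the complement of the chart is negligible for projections).
Inputs: `StTRN`, `StNEA`, `StORB`, `StHLC`.
PROOF.  `D = {x ∈ O : p₁ x = 0}`.  For each `x` in the orbit, in the exponential chart `E_x` (frame) `D` is
the zero set of the holomorphic function `P`, not identically zero on any open subset, so a null set
(the zero set of a nonzero analytic function has measure zero; locally by one-variable slices and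
Fubini), and `y ∘ E_x : ℂ^m → ℂ^m` is smooth, so it maps null sets to null sets
(`MeasureTheory.addHaar_image_eq_zero_of_differentiableOn_of_addHaar_eq_zero`).  The orbit, with the
topology of the coordinates, is second countable, and `E_x (ball)` contains a neighbourhood of `x` in the
orbit (`StNEA`): countably many cover (Lindelöf). -/
def StNUD : Prop := ∀ (g : Type u) [LieRing g] [LieAlgebra ℂ g] [FiniteDimensional ℂ g]
  [LieAlgebra.IsSemisimple ℂ g] (x₀ : g), x₀ ≠ 0 → IsNilpotent (LieAlgebra.ad ℂ g x₀) →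
  ∀ (C : Ch x₀) (y : Fin C.m → (g →ₗ[ℂ] ℂ)),
  volume {v : Fin C.m → ℂ | ∃ x : OO x₀, C.p₁ x = 0 ∧ ∀ i, y i x.1 = v i} = 0

end Pool.Agent.Helper52.KP
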