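import Pool.Agent.Helper52.KP.StW

/-!
# Project KP (MP_26be5b_ag), chapters W (part 2), M, C: cutoffs, Hoermander for `u`, peak sections,
Bergman functions, convexity, slopes

For every statement `StXX` prove `theorem hXX : StXX` in `Pool/Agent/<You>/KP/M_XX.lean`; statements
named in the docstring may be taken as hypotheses.
-/

set_option autoImplicit false

namespace Pool.Agent.Helper52.KP

open MeasureTheory Filter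
open scoped ContDiff ComplexOrder Topology

/-- `‖J‖²` times the squared norm of the `(0,1)`-covector `b` for the metric `hes u` -/
noncomputable def Cone.en (C : Cone) (b : Fin C.m → ℂ) (z : Fin C.m → ℂ) : ℝ :=
  (∑ k, ∑ j, (hes C.u z).adjugate k j * b k * star (b j)).re

/-- an exhaustion function of `U` modulo scaling, homogeneous of degree `0` -/
noncomputable def Cone.vv (C : Cone) (z : Fin C.m → ℂ) : ℝ :=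
  (2 * C.d₁ + 2 * C.dq : ℝ) * Real.log (C.u z) - Real.log (‖ev C.p₁ z‖ ^ 2) -
    Real.log (∑ i, ‖ev (C.Q i) z‖ ^ 2)

/-- MODULE CSD (dual Cauchy-Schwarz inequality).  Input: `StEUL`.
PROOF.  `H = hes u z` positive definite with determinant `‖J‖² > 0`, `adjugate = ‖J‖² H⁻¹`.  Put
`η k = ∑ l, H⁻¹ l k * b l`, so `∑ k, H k j * η k = b j` and `∑ j, b j * star (ξ j) = ∑∑ H k j η k star (ξ j)`:
Cauchy-Schwarz for the Hermitian form gives `≤ (hf H η)^{1/2} (hf H ξ)^{1/2}` and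
`hf H η = re ∑∑ H⁻¹ k l b k star (b l)`.  The last statement: `StEUL` (iv), (i). -/
def StCSD : Prop := ∀ C : Cone, Good C → ∀ z ∈ C.U, ∀ b : Fin C.m → ℂ, 0 ≤ C.en b z ∧
  (∀ ξ : Fin C.m → ℂ, ‖∑ j, b j * star (ξ j)‖ ^ 2 * ‖ev C.J z‖ ^ 2 ≤
    C.en b z * hf (hes C.u z) ξ) ∧
  (∀ b' : Fin C.m → ℂ, C.en (fun j => b j + b' j) z ≤ 2 * C.en b z + 2 * C.en b' z) ∧
  (∀ c : ℂ, C.en (fun j => c * b j) z = ‖c‖ ^ 2 * C.en b z) ∧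
  C.en (fun j => db j (cf C.u) z) z = C.u z * ‖ev C.J z‖ ^ 2

/-- MODULE MOM (moments).  Inputs: `StSCA`, `StVOL`.
PROOF.  `sz ≤ u / a` on `U`, and `∫_U u^q e^{-u} dν = m Γ(q + m) ν {u < 1} < ∞` by `StSCA` with `ψ = u`
(set `ψ = 1` off `U`), `D = 1`, `g = 1`, `e = 0`.  For `q = -1` (allowed as `m ≥ 2`) the same.  `‖s‖ ≤ B sz^k`
(`Good.bdd`); measurability: `u` is continuous on the open set `U`. -/
def StMOM : Prop := ∀ C : Cone, Good C →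
  (∀ q : ℕ, IntegrableOn (fun z => C.u z ^ q * Real.exp (-C.u z) * ‖ev C.J z‖ ^ 2) C.U ∧
    ∫ z in C.U, C.u z ^ q * Real.exp (-C.u z) * ‖ev C.J z‖ ^ 2 =
      C.m * (q + C.m - 1).factorial * (C.rd * (Real.pi / 2) ^ C.m / C.m.factorial)) ∧
  IntegrableOn (fun z => (C.u z)⁻¹ * Real.exp (-C.u z) * ‖ev C.J z‖ ^ 2) C.U ∧
  (∀ q : ℕ, IntegrableOn (fun z => C.sz z ^ q * Real.exp (-C.u z) * ‖ev C.J z‖ ^ 2) C.U) ∧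
  ∀ k, ∀ s ∈ C.R k, L2 C.U C.u (fun z => ev s z * ev C.J z)

/-- MODULE CU1 (energy of the exhaustion function).  Inputs: `StDIV`, `StEUL`, `StCSD`, `StMOM`,
`StCAL`.
PROOF.  `v = vv`, smooth on `U`, `v (scl w c z) = v z`, bounded below: `‖p₁‖² ∑ ‖Q_i‖² ≤ B u^{2d₁+2dq}`,
say `v ≥ - c₀`.  `M = 2 d₁ + 2 dq`.  `Θ : ℝ → ℝ` smooth, nonincreasing, `Θ s = 0` for `s ≥ 2`, `Θ' s = -1` for
`s ≤ 1`, so `0 ≤ Θ (v / i) ≤ 3 + c₀` for `i ≥ 1`.  `θ` smooth, `θ = 1` on `(-∞, 1]`, `0` on `[2, ∞)`,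
`g_b (s) = (1 + s^a) e^{-s} θ (s / b) θ (1 / (b s))` for `b ≥ 1`.  `F = Θ (v / i) g_b (u)` has compact
support in `U`: on its support `u ∈ [1/(2b), 2b]` and `v ≤ 2 i`, so `‖p₁‖² ∑ ‖Q‖²` is bounded below,
`sz` above (`Good.cpt`).  `StDIV` (real part) with this `F` and `v`:
`∫_U F tr(adj hes v) = - ∫ ∑∑ adj k j ∂_j v ∂̄_k F
= (1/i) ∫ (-Θ') (v/i) g_b(u) en(∂̄v) - ∫ Θ g_b'(u) ∑∑ adj k j ∂_j v ∂̄_k u`,
and the last integrand is `2 ‖J‖² ∑ w_j z_j ∂_j v = 0` (`StEUL` (iv), (iii)).  Next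
`tr (adj hes v) ≤ M (m - 1) ‖J‖² / u`: `hes (log u) = hes u / u - ∂u ∂̄u / u²`, `tr (adj hes u) = m ‖J‖²`,
`∑∑ adj k j ∂_j u ∂̄_k u = u ‖J‖²`; `log ‖p₁‖²` has zero Hessian and `log ∑ ‖Q_i‖²` a positive semidefinite
one, whose trace against the positive matrix `adj` is `≥ 0`.  So
`∫_{v ≤ i} g_b(u) en(∂̄v) ≤ i (3 + c₀) M (m-1) ∫ g_b(u) u^{-1} dν ≤ B i` uniformly in `b` (`StMOM`); `b → ∞`. -/
def StCU1 : Prop := ∀ C : Cone, Good C → (∃ c₀ : ℝ, ∀ z ∈ C.U, -c₀ ≤ C.vv z) ∧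
  ContDiffOn ℝ ∞ C.vv C.U ∧ (∀ z ∈ C.U, ∀ c : ℂ, c ≠ 0 → C.vv (scl C.w c z) = C.vv z) ∧
  ∀ a : ℕ, ∃ B : ℝ, ∀ i : ℕ, 1 ≤ i →
    ∫⁻ z in {z | z ∈ C.U ∧ C.vv z ≤ i}, ENNReal.ofReal (C.en (fun j => db j (cf C.vv) z) z *
      ((1 + C.u z ^ a) * Real.exp (-C.u z))) ≤ ENNReal.ofReal (B * i)

/-- MODULE CUT (cutoff functions).  Inputs: `StCU1`, `StCSD`, `StMOM`, `StSCA`, `StVOL`, `StCAL`.
PROOF.  `χ_i = θ (vv / i) θ (u / i) θ (1 / (i u))` on `U`, `0` off `U`, `θ` smooth, `0 ≤ θ ≤ 1`, `θ s = 1` for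
`s ≤ 1`, `0` for `s ≥ 2`; compact support in `U` by `Good.cpt`.  `|∂̄χ_i|` is at most the sum of
`C/i |∂̄ vv| 1_{i ≤ vv ≤ 2i}`, `C/i |∂̄u| 1_{i ≤ u ≤ 2i}`, `C/(i u²) |∂̄u| 1_{1/(2i) ≤ u ≤ 1/i}`.  With
`en(∂̄u) = u ‖J‖²` put `κ_i = C (i^{-2} en(∂̄vv)/‖J‖² 1_{vv ≤ 2i} + i^{-2} u 1_{i ≤ u ≤ 2i} +
i^{-2} u^{-3} 1_{1/(2i) ≤ u ≤ 1/i})` (`StCSD`).  Integrals: the first `≤ C i^{-2} * 2i B → 0` (`StCU1`), the
second tends to `0` by the exponential, the third is `≤ C i ν {u ≤ 1/i} ≤ C i^{1-m} → 0`, `m ≥ 2`.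
`sz ≤ u / a` compares `1 + sz^a` with `1 + u^a`. -/
def StCUT : Prop := ∀ C : Cone, Good C → ∃ (χ κ : ℕ → (Fin C.m → ℂ) → ℝ),
  (∀ i, ContDiff ℝ ∞ (χ i) ∧ HasCompactSupport (χ i) ∧ tsupport (χ i) ⊆ C.U ∧
    ∀ z, 0 ≤ χ i z ∧ χ i z ≤ 1) ∧
  (∀ z ∈ C.U, ∀ᶠ i in atTop, χ i z = 1) ∧
  (∀ (i : ℕ) (c : ℂ) z, ‖c‖ = 1 → χ i (scl C.w c z) = χ i z) ∧
  (∀ i, ∀ z ∈ C.U, 0 ≤ κ i z ∧ ∀ ξ,
    ‖∑ j, db j (cf (χ i)) z * star (ξ j)‖ ^ 2 ≤ κ i z * hf (hes C.u z) ξ) ∧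
  ∀ a : ℕ, (∀ i, IntegrableOn (fun z => κ i z * (1 + C.sz z ^ a) * Real.exp (-C.u z) *
      ‖ev C.J z‖ ^ 2) C.U) ∧
    Tendsto (fun i => ∫ z in C.U, κ i z * (1 + C.sz z ^ a) * Real.exp (-C.u z) *
      ‖ev C.J z‖ ^ 2) atTop (𝓝 0)

/-- MODULE PAI (pairing).  Inputs: `StCUT`, `StMOM`, `StCAL`.
PROOF.  `χ_i G` (extended by `0`) is a test function in `U`.  `WT` gives
`inn a (χ_i G) = ∫ χ_i ∑ β_j star (db j G) e^{-u} + ∫ star G ∑ β_j star (db j χ_i) e^{-u}`.  As `i → ∞` the left side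
tends to `inn a G` (`a, G ∈ L²`, `StMOM`).  The last term is at most
`(∫ hf β e^{-u})^{1/2} (∫ κ_i |G|² e^{-u})^{1/2} → 0`; the first is at most
`(∫ hf β e^{-u})^{1/2} (∫ κ e^{-u})^{1/2}` (the inequality for `κ` with `ξ = β`, conjugated). -/
def StPAI : Prop := ∀ C : Cone, Good C → ∀ (β : Fin C.m → (Fin C.m → ℂ) → ℂ)
  (a G : (Fin C.m → ℂ) → ℂ) (κ : (Fin C.m → ℂ) → ℝ),
  (∀ j, L2loc C.U (β j)) → L2 C.U C.u a → WT C.U C.u β a →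
  IntegrableOn (fun z => hf (hes C.u z) (fun j => β j z) * Real.exp (-C.u z)) C.U →
  ContDiffOn ℝ ∞ G C.U →
  (∃ (B : ℝ) (q : ℕ), ∀ z ∈ C.U, ‖G z‖ ^ 2 ≤ B * (1 + C.sz z ^ q) * ‖ev C.J z‖ ^ 2) →
  (∀ z ∈ C.U, 0 ≤ κ z ∧ ∀ ξ, ‖∑ j, db j G z * star (ξ j)‖ ^ 2 ≤ κ z * hf (hes C.u z) ξ) →
  IntegrableOn (fun z => κ z * Real.exp (-C.u z)) C.U →
  ‖inn C.U C.u a G‖ ^ 2 ≤ (∫ z in C.U, κ z * Real.exp (-C.u z)) *
    ∫ z in C.U, hf (hes C.u z) (fun j => β j z) * Real.exp (-C.u z)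

/-- MODULE HOR (Hoermander estimate for `u`).  Inputs: `StRHU`, `StPAI`, `StMOM`, `StCAL`.
PROOF.  `StRHU` gives `s, β, γ`.  Put `a = G - s J`; `StPAI` for `a` and the function `G - s J` (same `κ`, as
`s J` is holomorphic; bound by `Good.bdd`): `(nrm a)² ≤ (∫ κ e^{-u}) (∫ hf β e^{-u}) ≤ (∫ κ e^{-u}) nrm a`. -/
def StHOR : Prop := ∀ C : Cone, Good C → ∀ (k : ℕ) (G : (Fin C.m → ℂ) → ℂ)
  (κ : (Fin C.m → ℂ) → ℝ), ContDiffOn ℝ ∞ G C.U →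
  (∀ (c : ℂ), ‖c‖ = 1 → ∀ z ∈ C.U, G (scl C.w c z) = c ^ (k + C.jd) * G z) →
  (∃ (B : ℝ) (q : ℕ), ∀ z ∈ C.U, ‖G z‖ ^ 2 ≤ B * (1 + C.sz z ^ q) * ‖ev C.J z‖ ^ 2) →
  (∀ z ∈ C.U, 0 ≤ κ z ∧ ∀ ξ, ‖∑ j, db j G z * star (ξ j)‖ ^ 2 ≤ κ z * hf (hes C.u z) ξ) →
  IntegrableOn (fun z => κ z * Real.exp (-C.u z)) C.U →
  ∃ s ∈ C.R k, L2 C.U C.u (fun z => G z - ev s z * ev C.J z) ∧
    nrm C.U C.u (fun z => G z - ev s z * ev C.J z) ≤ ∫ z in C.U, κ z * Real.exp (-C.u z)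

/-- MODULE GAU (Gaussian integral for a Hermitian form).
PROOF.  Diagonalize by a unitary change of variables (volume preserving), then the product of
`∫_ℂ exp (- a |w|²) = π / a`.  Or substitute `ξ = S⁻¹ η` with `A` the square of a Hermitian matrix `S`
(transposed as needed), real determinant `|det S|^{-2}`. -/
def StGAU : Prop := ∀ (p : ℕ) (A : Matrix (Fin p) (Fin p) ℂ), Pd A →
  Integrable (fun ξ : Fin p → ℂ => Real.exp (-hf A ξ)) ∧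
  ∫ ξ : Fin p → ℂ, Real.exp (-hf A ξ) = Real.pi ^ p / A.det.re

/-- MODULE PLR (polar coordinates).  Input: none.
PROOF.  `∫⁻_U H dν = s^m ∫⁻_U H (scl w s z) dν(z)` for `s > 0` (linear change of variables with determinant
`s^{∑ w}`, `J (scl w s z) = s^{jd} J z`, `2 (jd + ∑ w) = m`).  For `z ∈ U`:
`∫_0^∞ 1_{1 ≤ s u(z) < e} ds / s = 1`.  So `∫⁻_U H dν = ∫_0^∞ (ds / s) ∫⁻_U H(z) 1_{1 ≤ u(scl s z) < e} dν(z)
= ∫_0^∞ (ds/s) s^{-m} ∫⁻_U H (scl (1/s) z) 1_{1 ≤ u z < e} dν(z)` and substitute `τ = 1 / s`. -/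
def StPLR : Prop := ∀ C : Cone, Good C → ∀ H : (Fin C.m → ℂ) → ENNReal, Measurable H →
  ∫⁻ z in C.U, H z ∂C.nu =
    ∫⁻ z in {z | z ∈ C.U ∧ 1 ≤ C.u z ∧ C.u z < Real.exp 1},
      (∫⁻ τ in Set.Ioi (0 : ℝ), H (scl C.w (τ : ℂ) z) * ENNReal.ofReal (τ ^ (C.m - 1))) ∂C.nu

/-- MODULE RAD (comparison of sublevel sets).  Input: `StPLR`.
PROOF.  `StPLR` for both sides (functions multiplied by indicators): the inner integrals are both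
`g z * ψ z ^ (-m/D) / m` (`∫_0^∞ 1_{τ^D ψ < 1} τ^{m-1} dτ = ψ^{-m/D} / m`). -/
def StRAD : Prop := ∀ C : Cone, Good C → ∀ D : ℝ, 0 < D →
  ∀ (ψ : (Fin C.m → ℂ) → ℝ) (g : (Fin C.m → ℂ) → ENNReal), Measurable ψ → Measurable g →
  (∀ z ∈ C.U, 0 < ψ z ∧ ∀ c : ℂ, c ≠ 0 → ψ (scl C.w c z) = ‖c‖ ^ D * ψ z ∧
    g (scl C.w c z) = g z) →
  ∫⁻ z in {z | z ∈ C.U ∧ ψ z < 1}, g z ∂C.nu =
    ∫⁻ z in {z | z ∈ C.U ∧ C.u z < 1},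
      g z * ENNReal.ofReal ((ψ z / C.u z ^ D) ^ (-(C.m / D : ℝ))) ∂C.nu

/-- MODULE LAP (local model near a point).  Inputs: `StGAU`, `StPLR`, `StEUL`, `StCSD`, `StCAL`.
PROOF.  There is `l` with `w l = 1`, `z₀ l ≠ 0` (otherwise `scl w c z₀ = z₀` for all `c`, so
`sz z₀ = ‖c‖ sz z₀`).  For `z l ≠ 0` let `y z = scl w (z₀ l / z l) z` (so `y_l = z₀ l`), `η = y - z₀`
(`η_l = 0`); `y (scl w c z) = y z`, and `u z = |z l / z₀ l| u (y z)`.  Let `ℓ = log u`.  Second order Taylor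
at `z₀` along the slice: `ℓ (z₀ + η) = re q(η) + ∑_{j,k ≠ l} ℓ_{j k̄} η_j conj η_k + o(|η|²)` with
`q(η) = ℓ(z₀) + 2 ∑ ℓ_j η_j + ∑∑ ℓ_{jk} η_j η_k` holomorphic.  `F z = (z l / z₀ l) exp (q (η z))`: holomorphic,
homogeneous of degree one, `log (|F| / u) (z) = re q(η) - ℓ(z₀ + η) = - L(η) + o(|η|²)`,
`L(η) = ∑ ℓ_{j k̄} η_j conj η_k`, positive definite: `hes u = u (hes ℓ + ∂ℓ ∂̄ℓ)` positive definite, and in the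
holomorphic coordinates `(t, η)`, `z = scl w (e^t) (z₀ + η)`, `u = e^{re t} u(z₀ + η)`, so
`hes u = u (a a* + 0 ⊕ (ℓ_{j k̄}))`, `a = (1/2, ∂ℓ)`, `det = u^m (1/4) det (ℓ_{j k̄})`.  The coordinate change has
Jacobian `z₀ l` at `(0,0)`, so `det (ℓ_{j k̄}) = 4 |J(z₀)|² |z₀ l|² u(z₀)^{-m}`.  For small `ρ > 0` let
`W = {z l ≠ 0, |η| < ρ}`, `W' = {z l ≠ 0, |η| < ρ/2}`, `χ = θ(4 |η|² / ρ²)`-type cutoff, the slices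
`{z₀ + η : |η| ≤ ρ}` compact in `U`; `|F| ≤ u` on `W` and `|F| ≤ c u` on `W \ W'`.  Bound for `∂̄χ`: `χ` is
homogeneous of degree `0`, `hf (hes u)` has degree one (`hes u (scl c z)` pulled back is `|c| hes u z`), so by
compactness of `{z ∈ closure of the support, |z l| = |z₀ l|}` it is enough to have it there.
Integral: in the coordinates `z = scl w (z_l / z₀ l) (z₀ + η)`, for `S ⊆ W` conical and `g` of degree `0`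
`∫_{S, u<1} g dν = ∫_η g(z₀+η) |J(z₀+η)|² |z₀ l|² (2π/m) u(z₀+η)^{-m} dη` (`dλ(z) = |c|^{2(∑w - 1)} |z₀ l|² dλ(c) dλ(η)`,
`c = z_l / z₀ l`, `|J z|² = |c|^{2 jd} |J(z₀+η)|²`, `∫_{|c| < 1/u} |c|^{m-2} dλ(c) = 2π u^{-m} / m`).  So for small `ρ`,
`∫_{W, u<1} (|F|/u)^{2j} dν ≤ (1 + ε') (2π/m) |J(z₀)|² |z₀ l|² u(z₀)^{-m} ∫ exp (-2 j (1-ε') L(η)) dη
= (1+ε') (2π/m) |J|²|z₀ l|² u^{-m} (π / (2 j (1-ε')))^{m-1} / det (ℓ_{j k̄}) = (1+ε') (1-ε')^{1-m} (π/2)^m / (m j^{m-1})`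
(`StGAU` in dimension `m - 1`; check: `(2π/m)(1/4)(π/2)^{m-1} = (π/2)^m / m`). -/
def StLAP : Prop := ∀ C : Cone, Good C → ∀ z₀ ∈ C.U, ∀ ε : ℝ, 0 < ε →
  ∃ (W W' : Set (Fin C.m → ℂ)) (χ : (Fin C.m → ℂ) → ℝ) (F : (Fin C.m → ℂ) → ℂ) (B c : ℝ),
    IsOpen W ∧ IsOpen W' ∧ z₀ ∈ W' ∧ W' ⊆ W ∧ W ⊆ C.U ∧
    (∀ z ∈ W, ∀ a : ℂ, a ≠ 0 → scl C.w a z ∈ W) ∧ (∀ z ∈ W', ∀ a : ℂ, a ≠ 0 → scl C.w a z ∈ W') ∧
    ContDiffOn ℝ ∞ χ C.U ∧ (∀ z ∈ C.U, 0 ≤ χ z ∧ χ z ≤ 1) ∧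
    (∀ z ∈ C.U, ∀ a : ℂ, a ≠ 0 → χ (scl C.w a z) = χ z) ∧ (∀ z ∈ W', χ z = 1) ∧
    (∀ z ∈ C.U, z ∉ W → ∀ᶠ x in 𝓝 z, χ x = 0) ∧
    DifferentiableOn ℂ F W ∧ (∀ z ∈ W, ∀ a : ℂ, a ≠ 0 → F (scl C.w a z) = a * F z) ∧
    ‖F z₀‖ = C.u z₀ ∧ (∀ z ∈ W, ‖F z‖ ≤ C.u z) ∧ 0 < c ∧ c < 1 ∧
    (∀ z ∈ W, z ∉ W' → ‖F z‖ ≤ c * C.u z) ∧ 0 < B ∧
    (∀ z ∈ C.U, ∀ ξ, ‖∑ j, db j (cf χ) z * star (ξ j)‖ ^ 2 * C.u z ≤ B * hf (hes C.u z) ξ) ∧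
    ∀ᶠ j : ℕ in atTop, ∫⁻ z in {z | z ∈ W ∧ C.u z < 1},
      ENNReal.ofReal ((‖F z‖ / C.u z) ^ (2 * j)) ∂C.nu ≤
        ENNReal.ofReal ((1 + ε) * (Real.pi / 2) ^ C.m / (C.m * (j : ℝ) ^ (C.m - 1)))

/-- MODULE PEA (peak sections).  Inputs: `StLAP`, `StHOR`, `StSCA`, `StVOL`, `StMOM`, `StSUP`, `StCAL`.
PROOF.  Data of `StLAP` (with `ε/3`).  `G = χ F^j J` on `W`, `0` elsewhere: smooth on `U`, of degree `j + jd`,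
`db k G = F^j J db k χ`, supported in `W \ W'`, so `κ = |F|^{2j} |J|² B / u` there, `0` elsewhere, and
`∫ κ e^{-u} ≤ B c^{2j} ∫ u^{2j-1} e^{-u} dν = B c^{2j} m (2j+m-2)! ν₁` (`StMOM`), `ν₁ = ν{u<1}`.  `StHOR`: `s ∈ R j`
with `nrm (G - s J)` at most this.  `nrm G ≤ ∫_W (|F|/u)^{2j} u^{2j} e^{-u} dν = m (2j+m-1)! ∫_{W,u<1} (|F|/u)^{2j} dν
≤ (2j+m-1)! (1+ε/3) (π/2)^m j^{1-m}` (`StSCA`).  Triangle inequality: `nrm (s J) ≤ (1+ε/2)` times this for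
large `j` (`c^{2j}` is exponentially small).  Value at `z₀`: `e = F^j - s` is holomorphic on `W'`, of degree `j`,
and `∫_{W'} |e|² e^{-u} dν ≤ nrm (G - s J)`; by `StSCA` (`g = |e|² u^{-2j}` on `W'`)
`∫_{W', u < 1} |e|² u^{-2j} dν ≤ nrm (G - sJ) / (m (2j+m-1)!) ≤ C c^{2j}`, and so on `{u < 2 u(z₀)}` with another
constant.  Let `δ > 0` with `(1+δ) c < 1` and a polydisc around `z₀` in `W' ∩ {u < (1+δ) u(z₀)}`,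
where `|J|²` is bounded below: `StSUP` gives `|e(z₀)|² ≤ C ((1+δ) u(z₀))^{2j} c^{2j}`, which is
`≤ (small) u(z₀)^{2j}`, while `|F(z₀)^j| = u(z₀)^j`. -/
def StPEA : Prop := ∀ C : Cone, Good C → ∀ z₀ ∈ C.U, ∀ ε : ℝ, 0 < ε →
  ∀ᶠ j : ℕ in atTop, ∃ s ∈ C.R j, ev s z₀ ≠ 0 ∧
    nrm C.U C.u (fun z => ev s z * ev C.J z) * (j : ℝ) ^ (C.m - 1) ≤
      (1 + ε) * (Real.pi / 2) ^ C.m * (2 * j + C.m - 1).factorial *
        (‖ev s z₀‖ ^ 2 / C.u z₀ ^ (2 * j))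

/-- `s` is an orthonormal basis of `R D` for the inner product `∫_U f conj(g) |J|² e^{-u}` -/
structure ONB (C : Cone) (D : ℕ) {N : ℕ} (s : Fin N → MvPolynomial (Fin C.m) ℂ) : Prop where
  span : Submodule.span ℂ (Set.range s) = C.R D
  on : ∀ i j, inn C.U C.u (fun z => ev (s i) z * ev C.J z) (fun z => ev (s j) z * ev C.J z) =
    if i = j then 1 else 0

/-- normalized Bergman function: `(2D+m-1)! D^{1-m} (π/2)^m ∑ ‖s_j‖² / u^{2D}` -/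
noncomputable def Cone.berg (C : Cone) (D : ℕ) {N : ℕ} (s : Fin N → MvPolynomial (Fin C.m) ℂ)
    (z : Fin C.m → ℂ) : ℝ :=
  (2 * D + C.m - 1).factorial * (Real.pi / 2) ^ C.m / (D : ℝ) ^ (C.m - 1) *
    ((∑ j, ‖ev (s j) z‖ ^ 2) / C.u z ^ (2 * D))

/-- MODULE BER (convergence of Bergman functions in `L¹`).  Inputs: `StPEA`, `StSCA`, `StVOL`,
`StMOM`.
PROOF.  The function `∑ ‖s_j‖²` does not depend on the orthonormal basis and is the supremum of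
`‖s z‖² / nrm (s J)` over `s ∈ R D` (expand, Cauchy-Schwarz; Bessel).  Argue by contradiction with sequences
`D_i → ∞` and bases.  `StPEA`: `liminf berg_D (z) ≥ 1` for every `z ∈ U`.  By `StSCA` (`g = ∑ ‖s_j‖² u^{-2D}`, degree
`0`, `ψ = u`): `N = ∑ nrm (s_j J) = m (2D+m-1)! ∫_{u<1} g dν`, so
`∫_{u<1} berg_D dν = N (π/2)^m / (m D^{m-1}) → (rd / (m-1)!) (π/2)^m / m = ν {u<1}` (`Good.dim`; `N = dim R D`
because orthonormal vectors are independent; `StVOL`).  `∫ (1 - berg)^+ → 0` (dominated convergence) and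
`∫ |berg - 1| = ∫ (berg - 1) + 2 ∫ (1 - berg)^+ → 0`. -/
def StBER : Prop := ∀ C : Cone, Good C → ∀ ε : ℝ, 0 < ε → ∀ᶠ D : ℕ in atTop,
  ∀ (N : ℕ) (s : Fin N → MvPolynomial (Fin C.m) ℂ), ONB C D s →
    ∫⁻ z in {z | z ∈ C.U ∧ C.u z < 1}, ENNReal.ofReal |C.berg D s z - 1| ∂C.nu ≤
      ENNReal.ofReal ε

/-- MODULE BLB (lower bound of Bergman functions).  Input: `StMOM`.
PROOF.  `∑ ‖s_j z‖² ≥ ‖s z‖² / nrm (s J)` for every `s ∈ R D`, `s ≠ 0`.  Take `s = X_i ^ D` (`X_i ∈ R 1`) with `i`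
such that `‖X_i z‖ ≥ sz z / nx`: `nrm (s J) ≤ ∫ sz^{2D} e^{-u} dν ≤ a^{-2D} ∫ u^{2D} e^{-u} dν
= a^{-2D} m (2D+m-1)! ν₁` and `u ≤ b sz`; so `(2D+m-1)! ∑ ‖s_j‖² / u^{2D} ≥ (a / (b nx))^{2D} / (m ν₁)`. -/
def StBLB : Prop := ∀ C : Cone, Good C → ∃ c : ℝ, 0 < c ∧ ∀ (D N : ℕ), 0 < D →
  ∀ s : Fin N → MvPolynomial (Fin C.m) ℂ, ONB C D s → ∀ z ∈ C.U, c ^ D ≤ C.berg D s z

/-- MODULE EX2 (extension, general weights).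
PROOF.  `c ↦ h (scl w c z) - c^{k+jd} h z` is entire and vanishes on the circle, so everywhere: `h` is
homogeneous for all `c`.  Scaling `z = scl w c z'` (`dλ` is multiplied by `|c|^{2∑w}`): for `T > 0`
`∫_{sz < T} |h|² dλ = T^{2k+m} ∫_{sz < 1} |h|² dλ` (`2(k+jd) + 2∑w = 2k+m`), and
`∫_{sz<1} |h|² ≤ e^{|B|} ∫ |h|² e^{-B sz^D} < ∞`.  So `∫ |h|² e^{-sz} ≤ ∑_T e^{-T} (T+1)^{2k+m} ∫_{sz<1} |h|² < ∞`.
`Good.extd`. -/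
def StEX2 : Prop := ∀ C : Cone, Good C → ∀ (k D : ℕ) (B : ℝ) (h : (Fin C.m → ℂ) → ℂ),
  Differentiable ℂ h → (∀ (c : ℂ) z, ‖c‖ = 1 → h (scl C.w c z) = c ^ (k + C.jd) * h z) →
  Integrable (fun z => ‖h z‖ ^ 2 * Real.exp (-(B * C.sz z ^ D))) →
  ∃ f ∈ C.R k, ∀ z, h z = ev f z * ev C.J z

/-- the `n`-th derivative in `t` of `PP` -/
noncomputable def PPn {m N : ℕ} (n : ℕ) (s : Fin N → MvPolynomial (Fin m) ℂ) (lam : Fin N → ℕ)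
    (t : ℝ) (z : Fin m → ℂ) : ℝ := ∑ j, (lam j : ℝ) ^ n * Real.exp (t * lam j) * ‖ev (s j) z‖ ^ 2

/-- the integral of `e^{-PP}` -/
noncomputable def Cone.ZZ (C : Cone) {N : ℕ} (s : Fin N → MvPolynomial (Fin C.m) ℂ)
    (lam : Fin N → ℕ) (t : ℝ) : ℝ :=
  ∫ z in C.U, Real.exp (-PP s lam t z) * ‖ev C.J z‖ ^ 2

/-- MODULE DIF (derivatives of `ZZ`).  Inputs: `StMOM`, `StSCA`.
PROOF.  `∑ ‖s_j‖² ≥ c sz^{2D}` with `c > 0`: each `X_i^D` is a combination of the `s_j`.  So for `t ∈ ℝ`,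
`PP ≥ c_t sz^{2D}`, `c_t = c e^{-|t| max lam}`, locally bounded below in `t`, and `PPn ≤ C_t sz^{2D}`.  All
integrals `∫ sz^q e^{-c sz^{2D}} dν` are finite (`ν {sz < T} ≤ C T^m`, by scaling).  Differentiate under
the integral twice (`hasDerivAt_integral_of_dominated_loc_of_deriv_le`). -/
def StDIF : Prop := ∀ C : Cone, Good C → ∀ (D N : ℕ), 0 < D →
  ∀ (s : Fin N → MvPolynomial (Fin C.m) ℂ) (lam : Fin N → ℕ),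
  Submodule.span ℂ (Set.range s) = C.R D → ∀ t : ℝ,
  0 < C.ZZ s lam t ∧
  (∀ q : ℕ, IntegrableOn (fun z => (1 + C.sz z ^ q) * Real.exp (-PP s lam t z) *
    ‖ev C.J z‖ ^ 2) C.U) ∧
  HasDerivAt (fun t => C.ZZ s lam t)
    (-∫ z in C.U, PPn 1 s lam t z * Real.exp (-PP s lam t z) * ‖ev C.J z‖ ^ 2) t ∧
  HasDerivAt (fun t => ∫ z in C.U, PPn 1 s lam t z * Real.exp (-PP s lam t z) * ‖ev C.J z‖ ^ 2)
    (∫ z in C.U, (PPn 2 s lam t z - PPn 1 s lam t z ^ 2) * Real.exp (-PP s lam t z) *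
      ‖ev C.J z‖ ^ 2) t

/-- MODULE VRP (variance inequality for `PP`).  Inputs: `StVAR`, `StAVG`, `StEX2`, `StDIF`, `StNUL`,
`StCAL`.
PROOF.  `ψ = PP s lam t`, smooth on `ℂ^m`, `hes ψ = ∑ e^{tλ_j} ∂s_j conj(∂s_j)`, positive semidefinite.
`G = PPn 1 * J`, smooth, in `L²(e^{-ψ})` (`StDIF`).  `∂̄_k G = J ∑_j λ_j e^{tλ_j} s_j conj(∂_k s_j)`; for `ξ`:
`|∑_k ∂̄_k G conj(ξ_k)|² ≤ |J|² (∑ λ_j² e^{tλ_j} |s_j|²) (∑ e^{tλ_j} |∑_k ∂_k s_j ξ_k|²) = κ hf (hes ψ) ξ`,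
`κ = PPn 2 ‖J‖²`.  `StVAR`: entire `h` with `nrm (G - h) ≤ ∫ PPn 2 e^{-ψ} dν`.  `StAVG` (`U = univ`,
`a = jd`; `ψ`, `PPn 1` are invariant for `‖c‖ = 1`, `J` has degree `jd`): `h` may be taken homogeneous of
degree `jd`; `h ∈ L²(e^{-ψ})`, `ψ ≤ B sz^{2D}`.  `StEX2` with `k = 0` and `Good.cst`: `h = c J`.  Hence
`∫ |PPn 1 - c|² e^{-ψ} dν ≤ ∫ PPn 2 e^{-ψ} dν`, and the left side is at least
`∫ PPn 1 ^2 e^{-ψ} dν - (∫ PPn 1 e^{-ψ} dν)² / ZZ`.  (`Uᶜ` is a null set.) -/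
def StVRP : Prop := ∀ C : Cone, Good C → ∀ (D N : ℕ), 0 < D →
  ∀ (s : Fin N → MvPolynomial (Fin C.m) ℂ) (lam : Fin N → ℕ),
  Submodule.span ℂ (Set.range s) = C.R D → ∀ t : ℝ,
  (∫ z in C.U, PPn 1 s lam t z ^ 2 * Real.exp (-PP s lam t z) * ‖ev C.J z‖ ^ 2) * C.ZZ s lam t -
    (∫ z in C.U, PPn 1 s lam t z * Real.exp (-PP s lam t z) * ‖ev C.J z‖ ^ 2) ^ 2 ≤
  (∫ z in C.U, PPn 2 s lam t z * Real.exp (-PP s lam t z) * ‖ev C.J z‖ ^ 2) * C.ZZ s lam t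

/-- MODULE CVX (convexity).  Inputs: `StDIF`, `StVRP`.
PROOF.  `(- log Z)'' = (Z'^2 - Z'' Z) / Z²` with `Z' = - ∫ P' e^{-P}`, `Z'' = ∫ (P'^2 - P'') e^{-P}`; nonnegative by
`StVRP`.  `convexOn_of_deriv2_nonneg` or monotone derivative. -/
def StCVX : Prop := ∀ C : Cone, Good C → ∀ (D N : ℕ), 0 < D →
  ∀ (s : Fin N → MvPolynomial (Fin C.m) ℂ) (lam : Fin N → ℕ),
  Submodule.span ℂ (Set.range s) = C.R D →
  ConvexOn ℝ Set.univ (fun t => -Real.log (C.ZZ s lam t))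

/-- MODULE ADP (orthonormal adapted bases).  Input: `StMOM`.
PROOF.  `F k 0 = R (n r k)` is finite-dimensional, the `F k l` decrease; `F k l = ⊥` for `l > Λ k` if
`F 1 (Λ+1) = ⊥` (by `gen`, induction on `k`: an element of `F (k+1) l` is a sum of products of elements of
`F k i`, `F 1 j`, `i + j = l`; `F 0 l = ⊥` for `l ≥ 1`).  The inner product is positive definite on
`R (n r k)` (a polynomial vanishing on the open set `U` is zero).  Choose an orthonormal basis of the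
smallest nonzero `F k l`, extend step by step to orthonormal bases of the larger ones (Gram-Schmidt);
`lam j` = the largest `l` with `s_j ∈ F k l`.  `∑ lam_j = ∑_{l ≥ 1} #{j : l ≤ lam_j} = ∑_{l≥1} dim F k l`. -/
def StADP : Prop := ∀ C : Cone, Good C → ∀ r F, NF C r F → ∃ Λ : ℕ, ∀ k : ℕ,
  (∀ l, Λ * k < l → F k l = ⊥) ∧
  ∃ (N : ℕ) (s : Fin N → MvPolynomial (Fin C.m) ℂ) (lam : Fin N → ℕ), Adp C r F k s lam ∧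
    ONB C (C.n * r * k) s ∧ (∀ j, lam j ≤ Λ * k) ∧
    N = Module.finrank ℂ (C.R (C.n * r * k)) ∧ (∑ j, (lam j : ℝ)) = wF F k

/-- MODULE DER (derivative at zero).  Inputs: `StBER`, `StBLB`, `StRAD`, `StSCA`, `StVOL`, `StDIF`.
PROOF.  `P₀ = PP s lam 0 = ∑ ‖s_j‖² = K berg u^{2D}`, `K > 0` a constant; `g = PPn 1 s lam 0 / P₀` is homogeneous
of degree `0`, `0 ≤ g ≤ Λ D`.  `a = m / (2D)`.  By `StSCA` (`ψ = P₀`): `∫ g P₀ e^{-P₀} dν = a Γ(a+1) ∫_{P₀<1} g dν`,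
`∫ e^{-P₀} dν = Γ(a+1) ν{P₀ < 1}`, so the quotient is `E = a ∫_{P₀<1} g dν / ν{P₀<1}`, and by `StRAD`
`E = a ∫_{u<1} g berg^{-a} dν / ∫_{u<1} berg^{-a} dν` (the constant `K^{-a}` cancels).  `berg ≥ c^D` gives
`berg^{-a} ≤ c^{-m/2}`-type bound, and `berg → 1` in `L¹`, so in measure, so `berg^{-a} → 1` in measure and in
`L¹(u<1)` (`a → 0`).  As `a g ≤ m Λ / 2`: `E - a ∫_{u<1} g dν / ν₁ → 0` uniformly, and likewise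
`a ∫ g dν / ν₁ - a ∫ g berg dν / ∫ berg dν → 0`.  Finally `∫_{u<1} g berg dν = K^{-1} ∑ lam_j ∫_{u<1} ‖s_j‖² u^{-2D} dν`
and all these integrals are equal (`= 1 / (m (2D+m-1)!)`, `StSCA`), so the quotient is `∑ lam_j / N`. -/
def StDER : Prop := ∀ C : Cone, Good C → ∀ (Λ ε : ℝ), 0 < ε → ∀ᶠ D : ℕ in atTop,
  ∀ (N : ℕ) (s : Fin N → MvPolynomial (Fin C.m) ℂ) (lam : Fin N → ℕ), ONB C D s →
    (∀ j, (lam j : ℝ) ≤ Λ * D) →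
    |(∫ z in C.U, PPn 1 s lam 0 z * Real.exp (-PP s lam 0 z) * ‖ev C.J z‖ ^ 2) / C.ZZ s lam 0 -
      C.m / (2 * D) * ((∑ j, (lam j : ℝ)) / N)| ≤ ε

/-- MODULE LEV (comparison of levels).  Inputs: `StDIF`, `StSCA`, `StMOM`.
PROOF.  (1) `P^{(k)}_t ≤ B (P^{(1)}_t)^k` for `t ≥ 0`: by `gen` (induction) every `s'_j ∈ F k (lam'_j)` is a
finite combination of products of `k` of the `s_i` with sum of the `lam_i` at least `lam'_j`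
(elements of `F 1 j` are combinations of the `s_i` with `lam_i ≥ j`), so
`e^{t lam'_j} ‖s'_j‖² ≤ B ∑ ∏ e^{t lam_i} ‖s_i‖² ≤ B (P^{(1)})^k`.  (2) `(P^{(1)}_t)^k ≤ B P^{(k)}_t`: it is a sum of
products `∏ e^{t lam_i} ‖s_i‖²`, and `∏ s_i ∈ F k (∑ lam_i)` is a combination of the `s'_j` with
`lam'_j ≥ ∑ lam_i`.  (3) By `StSCA` (`ψ = PP`, `g = 1`) `ZZ = Γ(1 + a) ν {PP < 1}`, `a = m / (2 n r k) = 1 / (r k)`,
and `ν {(P^{(1)})^k < T} = T^{a} ν{P^{(1)} < 1}`; so the two `ZZ` are comparable, uniformly in `t ≥ 0`; and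
`ν {PP ≤ 1}` is comparable with `ZZ` as well. -/
def StLEV : Prop := ∀ C : Cone, Good C → ∀ r F, NF C r F → ∀ k : ℕ, 0 < k →
  ∀ (N N' : ℕ) (s : Fin N → MvPolynomial (Fin C.m) ℂ) (lam : Fin N → ℕ)
    (s' : Fin N' → MvPolynomial (Fin C.m) ℂ) (lam' : Fin N' → ℕ),
  Adp C r F 1 s lam → Adp C r F k s' lam' → ∃ B : ℝ, 0 < B ∧ ∀ t : ℝ, 0 ≤ t →
    C.ZZ s lam t ≤ B * C.ZZ s' lam' t ∧ C.ZZ s' lam' t ≤ B * C.ZZ s lam t ∧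
    C.nu {z | z ∈ C.U ∧ PP s lam t z ≤ 1} ≤ ENNReal.ofReal (B * C.ZZ s lam t) ∧
    ENNReal.ofReal (C.ZZ s lam t) ≤ ENNReal.ofReal B * C.nu {z | z ∈ C.U ∧ PP s lam t z ≤ 1}

/-- MODULE UPB (growth).  Inputs: `StSCA`, `StDIF`.
PROOF.  `PP s lam t ≤ e^{tL} PP s lam 0` if `lam ≤ L`, `t ≥ 0`, so `ν{PP_t < 1} ≥ ν {PP_0 < e^{-tL}} =
e^{-tL m/(2D)} ν {PP_0 < 1}`, and `ZZ t = Γ(1+a) ν{PP_t < 1}` for all `t` with the same `a = m/(2D)`. -/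
def StUPB : Prop := ∀ C : Cone, Good C → ∀ (D N : ℕ), 0 < D →
  ∀ (s : Fin N → MvPolynomial (Fin C.m) ℂ) (lam : Fin N → ℕ) (L : ℕ),
  Submodule.span ℂ (Set.range s) = C.R D → (∀ j, lam j ≤ L) → ∀ t : ℝ, 0 ≤ t →
  C.ZZ s lam 0 * Real.exp (-(t * L * C.m / (2 * D))) ≤ C.ZZ s lam t

/-- MODULE SLO (the slope).  Inputs: `StCVX`, `StADP`, `StDER`, `StLEV`, `StUPB`, `StDIF`, `StNUL`.
PROOF.  For `k ≥ 1` let `U_k t = - log ZZ` for the basis of `StADP` at level `k`: convex (`StCVX`), at most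
`C + C t` for `t ≥ 0` (`StUPB`); so `U_k t / t` has a finite limit `ℓ_k`, `U_k'(0) ≤ ℓ_k`, and
`U_k t ≥ (ℓ_k - ε) t - C`.  `StLEV`: `U_k - U_1` is bounded on `[0, ∞)`, so `ℓ_k = ℓ_1 =: ℓ`.  `StDER` with
`D = n r k`, jumps `≤ Λ k ≤ Λ D`: `ℓ ≥ U_k'(0) ≥ (m / (2 n r k)) wF F k / N_k - ε = (1/r) (wF F k / (k N_k)) - ε`
and `wF F k / (k N_k) → b₀ / a₀` by `Ex` if `a₀ > 0` (`a₀ > 0` follows from `Good.dim`, `rd > 0`).  So `ℓ ≥ b₀ / (r a₀)`.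
`Slo`: for any adapted basis of `F 1`, by `StLEV` (`k = 1`, two adapted bases) and
`ν {PP ≤ 1} ≤ B ZZ ≤ B e^{C} e^{-(ℓ - ε) t}`.  `{PP ≤ 1}` without `z ∈ U`: `Uᶜ` is a null set for `ν`. -/
def StSLP : Prop := StSLO

end Pool.Agent.Helper52.KP
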