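import Pool.Agent.Helper52.KP.StM

/-!
# Project KP (MP_26be5b_ag): the Hermitian form
-/

set_option autoImplicit false

namespace Pool.Agent.Helper52.KP

open MeasureTheory Filter
open scoped ContDiff ComplexOrder Topology

/-- the Hermitian form `∫ f conj(g) |J|² e^{-u}` on functions on the orbit -/
noncomputable def ipp (C : Cone) (f g : MvPolynomial (Fin C.m) ℂ) : ℂ :=
  inn C.U C.u (fun z => ev f z * ev C.J z) (fun z => ev g z * ev C.J z)

/-- MODULE IPP.  Input: `StMOM`, `StNUL`.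
PROOF.  All products are integrable (`StMOM`, Cauchy-Schwarz), so additivity etc. of integrals.
Positivity: if `re (ipp f f) = ∫_U |f|² |J|² e^{-u} = 0` then the continuous function `f` vanishes almost
everywhere on `U`, which is open with null complement, and `J` has no zero on `U`; so `f = 0` as a function and
as a polynomial (`MvPolynomial.funext`).  Different degrees are orthogonal: the change of variables
`z ↦ scl w c z`, `‖c‖ = 1`, multiplies `ipp f g` by `c^k conj(c)^k'`. -/
def StIPP : Prop := ∀ C : Cone, Good C →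
  (∀ k, ∀ f ∈ C.R k, ∀ g ∈ C.R k, ∀ h ∈ C.R k, ipp C (f + g) h = ipp C f h + ipp C g h) ∧
  (∀ k, ∀ f ∈ C.R k, ∀ h ∈ C.R k, ∀ c : ℂ, ipp C (c • f) h = c * ipp C f h) ∧
  (∀ f g, ipp C g f = star (ipp C f g)) ∧
  (∀ k, ∀ f ∈ C.R k, f ≠ 0 → 0 < (ipp C f f).re ∧ (ipp C f f).im = 0) ∧
  (∀ k k', k ≠ k' → ∀ f ∈ C.R k, ∀ g ∈ C.R k', ipp C f g = 0)

end Pool.Agent.Helper52.KP
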